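import Mathlib

open Filter Topology Asymptotics

namespace D6

theorem ev_le_real (C a b : ℝ) (k : ℕ) (hab : a < b) :
    ∀ᶠ x : ℝ in atTop, C * x ^ a * (Real.log x) ^ k ≤ x ^ b := by
  have h1 : (fun x : ℝ => Real.log x ^ (k : ℝ)) =o[atTop] fun x : ℝ => x ^ (b - a) :=
    isLittleO_log_rpow_rpow_atTop (k : ℝ) (by linarith)
  have h2 := h1.def (c := 1 / (|C| + 1)) (by positivity)
  filter_upwards [h2, eventually_ge_atTop (1 : ℝ)] with x hx hx1
  have hx0 : 0 < x := by linarith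
  have hlog : 0 ≤ Real.log x := Real.log_nonneg hx1
  rw [Real.rpow_natCast, Real.norm_of_nonneg (by positivity),
    Real.norm_of_nonneg (by positivity)] at hx
  have h3 : x ^ b = x ^ a * x ^ (b - a) := by
    rw [← Real.rpow_add hx0]; congr 1; ring
  rw [h3]
  have ha : 0 < x ^ a := by positivity
  have hC : 0 < |C| + 1 := by positivity
  have h4 : C * Real.log x ^ k ≤ x ^ (b - a) := by
    calc C * Real.log x ^ k ≤ (|C| + 1) * Real.log x ^ k := by
          apply mul_le_mul_of_nonneg_right _ (by positivity)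
          have := le_abs_self C
          linarith
      _ ≤ (|C| + 1) * (1 / (|C| + 1) * x ^ (b - a)) :=
          mul_le_mul_of_nonneg_left hx hC.le
      _ = x ^ (b - a) := by field_simp
  calc C * x ^ a * Real.log x ^ k = x ^ a * (C * Real.log x ^ k) := by ring
    _ ≤ _ := mul_le_mul_of_nonneg_left h4 ha.le

theorem ev_le (C a b : ℝ) (k : ℕ) (hab : a < b) :
    ∀ᶠ x : ℕ in atTop, C * (x : ℝ) ^ a * (Real.log x) ^ k ≤ (x : ℝ) ^ b :=
  tendsto_natCast_atTop_atTop.eventually (ev_le_real C a b k hab)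

theorem ev_le0 (C a b : ℝ) (hab : a < b) :
    ∀ᶠ x : ℕ in atTop, C * (x : ℝ) ^ a ≤ (x : ℝ) ^ b := by
  filter_upwards [ev_le C a b 0 hab] with x hx
  simpa using hx

theorem ev_const_le (C b : ℝ) (hb : 0 < b) :
    ∀ᶠ x : ℕ in atTop, C ≤ (x : ℝ) ^ b := by
  filter_upwards [ev_le0 C 0 b hb] with x hx
  simpa using hx

theorem ev_le_log (C : ℝ) : ∀ᶠ x : ℕ in atTop, C ≤ Real.log x :=
  (Real.tendsto_log_atTop.comp tendsto_natCast_atTop_atTop).eventually_ge_atTop C

end D6
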