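import Mathlib
import Pool.Agent.H86.BtWeak

namespace D6

/-- T2: weak Brun–Titchmarsh -/
theorem bt_weak (δ : ℝ) (hδ : 0 < δ) :
    ∃ C : ℝ, 0 < C ∧ ∀ x : ℝ, 2 ≤ x → ∀ u h : ℕ,
      (((Finset.Ioc u (u + h)).filter Nat.Prime).card : ℝ) ≤ C * (h + x ^ δ) / Real.log x :=
  Pool.Agent.H86.BtWeak.bt_weak δ hδ

end D6
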