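import Mathlib
import Pool.Agent.H90.D6.BtWeak

open Finset

namespace D6

/-- the property provided by `bt_weak` -/
def BT (δ C : ℝ) : Prop := ∀ x : ℝ, 2 ≤ x → ∀ u h : ℕ,
      (((Finset.Ioc u (u + h)).filter Nat.Prime).card : ℝ) ≤ C * (h + x ^ δ) / Real.log x

theorem bt_cover {δ C : ℝ} (hδ : 0 < δ) (hC : 0 < C) (hBT : BT δ C) {x : ℝ} (hx : 2 ≤ x)
    {u v : ℕ} (huv : u ≤ v) (A S : Finset ℕ) (hA : ∀ a ∈ A, 1 ≤ a)
    (hS : ∀ q ∈ S, q.Prime ∧ (q : ℝ) ≤ x ∧ ∃ a ∈ A, a * q ∈ Ioc u v) :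
    ∑ q ∈ S, Real.log q ≤
      C * (((v : ℝ) - u) * ∑ a ∈ A, (1 / (a : ℝ)) + 2 * x ^ δ * A.card) := by
  have hlogx : 0 < Real.log x := Real.log_pos (by linarith)
  have h1 : S ⊆ A.biUnion (fun a => (Ioc (u / a) (v / a)).filter Nat.Prime) := by
    intro q hq
    obtain ⟨h1, h2, a, ha, h3⟩ := hS q hq
    simp only [mem_biUnion, mem_filter, mem_Ioc] at h3 ⊢
    have ha1 := hA a ha
    refine ⟨a, ha, ⟨?_, ?_⟩, h1⟩
    · rw [Nat.div_lt_iff_lt_mul (by omega)]
      linarith [Nat.mul_comm a q, h3.1]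
    · rw [Nat.le_div_iff_mul_le (by omega)]
      linarith [Nat.mul_comm a q, h3.2]
  have h2 : (S.card : ℝ) ≤ ∑ a ∈ A, C * ((((v : ℝ) - u) / a + 1) + x ^ δ) / Real.log x := by
    calc (S.card : ℝ) ≤ ((A.biUnion (fun a => (Ioc (u / a) (v / a)).filter Nat.Prime)).card : ℝ) := by
          exact_mod_cast Finset.card_le_card h1
      _ ≤ ((∑ a ∈ A, ((Ioc (u / a) (v / a)).filter Nat.Prime).card : ℕ) : ℝ) := by
          exact_mod_cast Finset.card_biUnion_le
      _ = ∑ a ∈ A, (((Ioc (u / a) (v / a)).filter Nat.Prime).card : ℝ) := by push_cast; rfl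
      _ ≤ _ := by
          apply Finset.sum_le_sum
          intro a ha
          have ha1 := hA a ha
          have hle : u / a ≤ v / a := Nat.div_le_div_right huv
          have h3 := hBT x hx (u / a) (v / a - u / a)
          rw [Nat.add_sub_cancel' hle] at h3
          refine h3.trans ?_
          apply div_le_div_of_nonneg_right _ hlogx.le
          apply mul_le_mul_of_nonneg_left _ hC.le
          have ha' : (0 : ℝ) < a := by exact_mod_cast ha1
          have e1 : ((v / a - u / a : ℕ) : ℝ) = ((v / a : ℕ) : ℝ) - ((u / a : ℕ) : ℝ) := by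
            push_cast [hle]; ring
          have h4 : ((v / a : ℕ) : ℝ) ≤ v / a := Nat.cast_div_le
          have h5 : (u : ℝ) / a < ((u / a : ℕ) : ℝ) + 1 := by
            rw [div_lt_iff₀ ha']
            have := Nat.lt_div_mul_add (a := u) (b := a) ha1
            have h6 : u < (u / a + 1) * a := by
              rw [Nat.add_mul, Nat.one_mul]; exact this
            exact_mod_cast h6
          rw [e1, sub_div]
          linarith
  have h3 : ∑ q ∈ S, Real.log q ≤ S.card * Real.log x := by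
    rw [← nsmul_eq_mul, ← Finset.sum_const]
    apply Finset.sum_le_sum
    intro q hq
    obtain ⟨h1, h2, -⟩ := hS q hq
    exact Real.log_le_log (by exact_mod_cast h1.pos) h2
  have hxδ : 1 ≤ x ^ δ := Real.one_le_rpow (by linarith) hδ.le
  calc ∑ q ∈ S, Real.log q ≤ S.card * Real.log x := h3
    _ ≤ (∑ a ∈ A, C * ((((v : ℝ) - u) / a + 1) + x ^ δ) / Real.log x) * Real.log x :=
        mul_le_mul_of_nonneg_right h2 hlogx.le
    _ = ∑ a ∈ A, C * ((((v : ℝ) - u) / a + 1) + x ^ δ) := by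
        rw [Finset.sum_mul]
        apply Finset.sum_congr rfl
        intro a ha
        field_simp
    _ ≤ ∑ a ∈ A, C * (((v : ℝ) - u) * (1 / (a : ℝ)) + 2 * x ^ δ) := by
        apply Finset.sum_le_sum
        intro a ha
        apply mul_le_mul_of_nonneg_left _ hC.le
        have : ((v : ℝ) - u) / a = ((v : ℝ) - u) * (1 / (a : ℝ)) := by ring
        linarith
    _ = _ := by
        rw [← Finset.mul_sum, Finset.sum_add_distrib, ← Finset.mul_sum, Finset.sum_const,
          nsmul_eq_mul]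
        ring

/-- primes in `(y/2, y]` dividing elements of `Ioc u v`, `v ≤ 2u` -/
theorem bt_dyadic {δ C : ℝ} (hδ : 0 < δ) (hC : 0 < C) (hBT : BT δ C) {x : ℝ} (hx : 2 ≤ x)
    {u v y : ℕ} (huv : u ≤ v) (hvu : v ≤ 2 * u) (hy : 1 ≤ y) (hvx : (v : ℝ) ≤ x) (S : Finset ℕ)
    (hS : ∀ q ∈ S, q.Prime ∧ y < 2 * q ∧ q ≤ y ∧ ∃ n ∈ Ioc u v, q ∣ n) :
    ∑ q ∈ S, Real.log q ≤ C * (4 * ((v : ℝ) - u) + 4 * x ^ δ * (v / y)) := by
  have hy' : (0 : ℝ) < y := by exact_mod_cast hy
  have hvu' : (0 : ℝ) ≤ (v : ℝ) - u := by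
    have : (u : ℝ) ≤ v := by exact_mod_cast huv
    linarith
  set A : Finset ℕ := (Icc 1 (2 * v / y)).filter (fun a => v < 2 * (a * y)) with hA
  have h1 := bt_cover hδ hC hBT hx huv A S (by
    intro a ha
    simp only [hA, mem_filter, mem_Icc] at ha
    exact ha.1.1) (by
    intro q hq
    obtain ⟨h1, h2, h3, n, hn, hqn⟩ := hS q hq
    simp only [mem_Ioc] at hn
    have hqv : q ≤ v := (Nat.le_of_dvd (by omega) hqn).trans hn.2
    refine ⟨h1, ?_, ?_⟩
    · exact le_trans (by exact_mod_cast hqv) hvx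
    · obtain ⟨a, rfl⟩ := hqn
      refine ⟨a, ?_, ?_⟩
      · simp only [hA, mem_filter, mem_Icc]
        refine ⟨⟨?_, ?_⟩, ?_⟩
        · rcases Nat.eq_zero_or_pos a with rfl | ha
          · simp at hn
          · exact ha
        · rw [Nat.le_div_iff_mul_le (by omega)]
          calc a * y ≤ a * (2 * q) := Nat.mul_le_mul_left _ h2.le
            _ = 2 * (q * a) := by ring
            _ ≤ 2 * v := by omega
        · have : q * a ≤ a * y := by rw [mul_comm]; exact Nat.mul_le_mul_left _ h3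
          omega
      · simp only [mem_Ioc]
        rw [mul_comm a q]
        exact hn)
  refine h1.trans ?_
  apply mul_le_mul_of_nonneg_left _ hC.le
  have hcard : (A.card : ℝ) ≤ 2 * (v / y) := by
    have h2 : A.card ≤ 2 * v / y := by
      calc A.card ≤ (Icc 1 (2 * v / y)).card := Finset.card_filter_le _ _
        _ = _ := by simp
    calc (A.card : ℝ) ≤ ((2 * v / y : ℕ) : ℝ) := by exact_mod_cast h2
      _ ≤ ((2 * v : ℕ) : ℝ) / y := Nat.cast_div_le
      _ = 2 * (v / y) := by push_cast; ring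
  have hsum : ∑ a ∈ A, (1 / (a : ℝ)) ≤ 4 := by
    rcases Nat.eq_zero_or_pos v with hv | hv
    · subst hv
      have : A = ∅ := by
        rw [hA]; simp
      rw [this]; simp
    · have hv' : (0 : ℝ) < v := by exact_mod_cast hv
      calc ∑ a ∈ A, (1 / (a : ℝ)) ≤ ∑ a ∈ A, (2 * y / v : ℝ) := by
            apply Finset.sum_le_sum
            intro a ha
            simp only [hA, mem_filter, mem_Icc] at ha
            have ha' : (0 : ℝ) < a := by exact_mod_cast (by omega : 0 < a)
            rw [div_le_div_iff₀ ha' hv']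
            have : (v : ℝ) < 2 * (a * y) := by exact_mod_cast ha.2
            linarith
        _ = A.card * (2 * y / v) := by rw [Finset.sum_const, nsmul_eq_mul]
        _ ≤ (2 * (v / y)) * (2 * y / v) := by
            apply mul_le_mul_of_nonneg_right hcard (by positivity)
        _ = 4 := by field_simp; ring
  have hxδ : 0 < x ^ δ := by positivity
  have e1 : ((v : ℝ) - u) * ∑ a ∈ A, (1 / (a : ℝ)) ≤ ((v : ℝ) - u) * 4 :=
    mul_le_mul_of_nonneg_left hsum hvu'
  have e2 : 2 * x ^ δ * (A.card : ℝ) ≤ 2 * x ^ δ * (2 * (v / y)) :=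
    mul_le_mul_of_nonneg_left hcard (by positivity)
  linarith

end D6
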