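import Mathlib

open Finset

namespace D6

theorem inv_den_mul_le {f g : ℚ} (h : f < g) :
    (1 : ℝ) / ((f.den : ℝ) * g.den) ≤ (g : ℝ) - f := by
  have hf := f.den_pos
  have hg := g.den_pos
  have h1 : f.num * g.den < g.num * f.den := by
    rwa [Rat.lt_iff] at h
  have h2 : (f.num : ℝ) * g.den + 1 ≤ g.num * f.den := by exact_mod_cast h1
  have e1 : (f : ℝ) = f.num / f.den := by exact_mod_cast (Rat.num_div_den f).symm
  have e2 : (g : ℝ) = g.num / g.den := by exact_mod_cast (Rat.num_div_den g).symm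
  have hf' : (0 : ℝ) < f.den := by exact_mod_cast hf
  have hg' : (0 : ℝ) < g.den := by exact_mod_cast hg
  rw [e1, e2, div_sub_div _ _ hg'.ne' hf'.ne', div_le_div_iff₀ (by positivity) (by positivity)]
  have : 0 < (f.den : ℝ) * g.den := by positivity
  nlinarith

theorem frac_sum_aux (F : Finset ℚ) (Q : ℝ) (hQ : 0 ≤ Q)
    (h : ∀ f ∈ F, (f.den : ℝ) ≤ Q) (hne : F.Nonempty) :
    ∑ f ∈ F.erase (F.max' hne), (1 / (f.den : ℝ)) ≤
      Q * (((F.max' hne : ℚ) : ℝ) - ((F.min' hne : ℚ) : ℝ)) := by
  induction F using Finset.induction_on_max with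
  | empty => simp at hne
  | insert g s hlt ih =>
    have hg : g ∉ s := fun hgs => lt_irrefl _ (hlt g hgs)
    rcases s.eq_empty_or_nonempty with rfl | hs
    · simp
    · have hmax : (insert g s).max' hne = g := by
        apply le_antisymm
        · apply Finset.max'_le
          intro y hy
          rcases Finset.mem_insert.mp hy with rfl | hy
          · exact le_rfl
          · exact (hlt y hy).le
        · exact Finset.le_max' _ _ (Finset.mem_insert_self _ _)
      have hmin : (insert g s).min' hne = s.min' hs := by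
        apply le_antisymm
        · exact Finset.min'_le _ _ (Finset.mem_insert_of_mem (s.min'_mem hs))
        · apply Finset.le_min'
          intro y hy
          rcases Finset.mem_insert.mp hy with rfl | hy
          · exact (hlt _ (s.min'_mem hs)).le
          · exact s.min'_le _ hy
      rw [hmax, hmin, Finset.erase_insert hg]
      have ih' := ih (fun f hf => h f (Finset.mem_insert_of_mem hf)) hs
      rw [← Finset.add_sum_erase s _ (s.max'_mem hs)]
      have h3 := inv_den_mul_le (hlt _ (s.max'_mem hs))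
      have h4 : (g.den : ℝ) ≤ Q := h g (Finset.mem_insert_self _ _)
      have hp : (0 : ℝ) < g.den := by exact_mod_cast g.den_pos
      have hp' : (0 : ℝ) < ((s.max' hs : ℚ).den : ℝ) := by exact_mod_cast (s.max' hs : ℚ).den_pos
      have h5 : 1 / (((s.max' hs : ℚ).den : ℝ)) ≤ Q * ((g : ℝ) - ((s.max' hs : ℚ) : ℝ)) := by
        have h6 : 1 / (((s.max' hs : ℚ).den : ℝ)) =
            g.den * (1 / (((s.max' hs : ℚ).den : ℝ) * g.den)) := by
          field_simp
        rw [h6]
        have h7 : 0 ≤ (1 : ℝ) / (((s.max' hs : ℚ).den : ℝ) * g.den) := by positivity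
        calc (g.den : ℝ) * (1 / (((s.max' hs : ℚ).den : ℝ) * g.den))
            ≤ Q * (1 / (((s.max' hs : ℚ).den : ℝ) * g.den)) :=
              mul_le_mul_of_nonneg_right h4 h7
          _ ≤ _ := mul_le_mul_of_nonneg_left h3 hQ
      linarith

/-- fractions in a short window -/
theorem frac_sum (F : Finset ℚ) (Q a b w : ℝ) (hab : a ≤ b) (hw : 0 < w) (hQ : 0 ≤ Q)
    (h : ∀ f ∈ F, a ≤ (f : ℝ) ∧ (f : ℝ) ≤ b ∧ (f.den : ℝ) ≤ Q ∧ w ≤ f.den) :
    ∑ f ∈ F, (1 / (f.den : ℝ)) ≤ Q * (b - a) + 1 / w := by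
  rcases F.eq_empty_or_nonempty with rfl | hne
  · simp only [Finset.sum_empty]
    have : 0 ≤ b - a := by linarith
    positivity
  · have h1 := frac_sum_aux F Q hQ (fun f hf => (h f hf).2.2.1) hne
    rw [← Finset.add_sum_erase F _ (F.max'_mem hne)]
    obtain ⟨-, h2, -, h3⟩ := h _ (F.max'_mem hne)
    obtain ⟨h4, -⟩ := h _ (F.min'_mem hne)
    have h5 : 1 / (((F.max' hne : ℚ).den : ℝ)) ≤ 1 / w := one_div_le_one_div_of_le hw h3
    have h6 : Q * (((F.max' hne : ℚ) : ℝ) - ((F.min' hne : ℚ) : ℝ)) ≤ Q * (b - a) :=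
      mul_le_mul_of_nonneg_left (by linarith) hQ
    linarith

end D6
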