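import Mathlib

/-!
Basic combinatorics of square products of factorials `m! b! c! d! e!`.
-/

open Finset

namespace D6

/-- relaxed representation: `m > b ≥ c ≥ d ≥ e ≥ 0` and `m! b! c! d! e!` is a square -/
def Rep (m b c d e : ℕ) : Prop :=
  b < m ∧ c ≤ b ∧ d ≤ c ∧ e ≤ d ∧
    IsSquare (m.factorial * b.factorial * c.factorial * d.factorial * e.factorial)

theorem factorial_eq_mul_prod {b m : ℕ} (h : b ≤ m) :
    m.factorial = b.factorial * ∏ n ∈ Ioc b m, n := by
  induction m, h using Nat.le_induction with
  | base => simp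
  | succ k hk ih =>
    rw [Nat.factorial_succ, ih, ← Finset.insert_Ioc_right_eq_Ioc_add_one (by omega),
      Finset.prod_insert (by simp)]
    ring

theorem even_factorization_of_isSquare {n : ℕ} (h : IsSquare n) (q : ℕ) :
    Even (n.factorization q) := by
  obtain ⟨r, rfl⟩ := h
  rcases eq_or_ne r 0 with rfl | hr
  · simp
  · rw [Nat.factorization_mul hr hr]
    exact ⟨r.factorization q, rfl⟩

theorem factorization_prod_Ioc (b m q : ℕ) :
    (∏ n ∈ Ioc b m, n).factorization q = ∑ n ∈ Ioc b m, n.factorization q := by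
  rw [Nat.factorization_prod]
  · simp
  · intro n hn
    simp at hn
    omega

theorem prod_Ioc_ne_zero (b m : ℕ) : ∏ n ∈ Ioc b m, n ≠ 0 := by
  rw [Finset.prod_ne_zero_iff]
  intro n hn
  simp at hn
  omega

/-- parity of valuations -/
theorem Rep.parity {m b c d e : ℕ} (h : Rep m b c d e) (q : ℕ) :
    Even ((∑ n ∈ Ioc b m, n.factorization q) + (∑ n ∈ Ioc d c, n.factorization q) +
      (e.factorial).factorization q) := by
  obtain ⟨h1, h2, h3, h4, h5⟩ := h
  have hm := factorial_eq_mul_prod (b := b) (m := m) h1.le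
  have hc := factorial_eq_mul_prod (b := d) (m := c) h3
  have h6 := even_factorization_of_isSquare h5 q
  have hb0 := Nat.factorial_ne_zero b
  have hd0 := Nat.factorial_ne_zero d
  have he0 := Nat.factorial_ne_zero e
  have p1 := prod_Ioc_ne_zero b m
  have p2 := prod_Ioc_ne_zero d c
  rw [hm, hc] at h6
  have e1 : b.factorial * (∏ n ∈ Ioc b m, n) * b.factorial *
      (d.factorial * ∏ n ∈ Ioc d c, n) * d.factorial * e.factorial =
      (b.factorial * b.factorial) * (d.factorial * d.factorial) *
        ((∏ n ∈ Ioc b m, n) * (∏ n ∈ Ioc d c, n) * e.factorial) := by ring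
  rw [e1, Nat.factorization_mul (by positivity) (by positivity),
    Nat.factorization_mul (by positivity) (by positivity),
    Nat.factorization_mul hb0 hb0, Nat.factorization_mul hd0 hd0,
    Nat.factorization_mul (by positivity) he0, Nat.factorization_mul p1 p2] at h6
  simp only [Finsupp.add_apply, factorization_prod_Ioc] at h6
  rw [Nat.even_iff] at h6 ⊢
  omega

/-- a prime `q ≥ m - b` divides at most one element of `Ioc b m` -/
theorem unique_multiple {b m q n n' : ℕ} (hq : m - b ≤ q) (hn : n ∈ Ioc b m)
    (hn' : n' ∈ Ioc b m) (h : q ∣ n) (h' : q ∣ n') : n = n' := by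
  simp only [mem_Ioc] at hn hn'
  obtain ⟨a, rfl⟩ := h
  obtain ⟨a', rfl⟩ := h'
  rcases lt_trichotomy a a' with hlt | heq | hgt
  · exfalso
    have : q * (a + 1) ≤ q * a' := Nat.mul_le_mul_left q hlt
    rw [Nat.mul_add, Nat.mul_one] at this
    omega
  · rw [heq]
  · exfalso
    have : q * (a' + 1) ≤ q * a := Nat.mul_le_mul_left q hgt
    rw [Nat.mul_add, Nat.mul_one] at this
    omega

theorem sum_factorization_eq {b m q n : ℕ} (hq : m - b ≤ q) (hn : n ∈ Ioc b m) (h : q ∣ n) :
    ∑ n ∈ Ioc b m, n.factorization q = n.factorization q := by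
  apply Finset.sum_eq_single_of_mem n hn
  intro n' hn' hne
  apply Nat.factorization_eq_zero_of_not_dvd
  intro h'
  exact hne (unique_multiple hq hn' hn h' h)

theorem sum_factorization_eq_zero {b m q : ℕ} (h : ∀ n ∈ Ioc b m, ¬ q ∣ n) :
    ∑ n ∈ Ioc b m, n.factorization q = 0 := by
  apply Finset.sum_eq_zero
  intro n hn
  exact Nat.factorization_eq_zero_of_not_dvd (h n hn)

theorem factorization_factorial_eq_zero {e q : ℕ} (h : e < q) :
    (e.factorial).factorization q = 0 := by
  by_cases hq : q.Prime
  · apply Nat.factorization_eq_zero_of_not_dvd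
    rw [hq.dvd_factorial]
    omega
  · exact Nat.factorization_eq_zero_of_not_prime _ hq

/-- a prime `q > e` with odd valuation in `Ioc b m` must divide an element of `Ioc d c` -/
theorem Rep.match1 {m b c d e : ℕ} (h : Rep m b c d e) {q n : ℕ} (hq : m - b ≤ q)
    (hn : n ∈ Ioc b m) (hodd : ¬ Even (n.factorization q)) (he : e < q) :
    ∃ n' ∈ Ioc d c, q ∣ n' := by
  by_contra hcon
  push Not at hcon
  have h1 := h.parity q
  have hdvd : q ∣ n := by
    by_contra h2
    apply hodd
    rw [Nat.factorization_eq_zero_of_not_dvd h2]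
    exact Even.zero
  rw [sum_factorization_eq hq hn hdvd, sum_factorization_eq_zero hcon,
    factorization_factorial_eq_zero he] at h1
  exact hodd (by simpa using h1)

/-- a prime with odd valuation in `Ioc d c` divides an element of `Ioc b m` or has odd
valuation in `e!` -/
theorem Rep.match2 {m b c d e : ℕ} (h : Rep m b c d e) {q n : ℕ} (hq : c - d ≤ q)
    (hn : n ∈ Ioc d c) (hodd : ¬ Even (n.factorization q)) :
    (∃ n' ∈ Ioc b m, q ∣ n') ∨ ¬ Even ((e.factorial).factorization q) := by
  by_contra hcon
  push Not at hcon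
  obtain ⟨hc1, hc2⟩ := hcon
  have h1 := h.parity q
  have hdvd : q ∣ n := by
    by_contra h2
    apply hodd
    rw [Nat.factorization_eq_zero_of_not_dvd h2]
    exact Even.zero
  rw [sum_factorization_eq hq hn hdvd, sum_factorization_eq_zero hc1, zero_add] at h1
  rw [Nat.even_add] at h1
  exact hodd (h1.mpr hc2)

/-- a prime with odd valuation in `e!` divides an element of one of the two intervals -/
theorem Rep.match3 {m b c d e : ℕ} (h : Rep m b c d e) {q : ℕ}
    (hodd : ¬ Even ((e.factorial).factorization q)) :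
    (∃ n ∈ Ioc b m, q ∣ n) ∨ (∃ n ∈ Ioc d c, q ∣ n) := by
  by_contra hcon
  push Not at hcon
  obtain ⟨hc1, hc2⟩ := hcon
  have h1 := h.parity q
  rw [sum_factorization_eq_zero hc1, sum_factorization_eq_zero hc2, zero_add, zero_add] at h1
  exact hodd h1

/-- primes `q ∈ (e/2, e]`, have valuation one in `e!` -/
theorem factorization_factorial_eq_one {e q : ℕ} (hq : q.Prime) (h1 : q ≤ e) (h2 : e < 2 * q) :
    (e.factorial).factorization q = 1 := by
  obtain ⟨k, rfl⟩ := Nat.exists_eq_add_of_le h1
  rw [factorial_eq_mul_prod (b := q - 1) (m := q + k) (by omega)]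
  have h3 : ((q-1).factorial).factorization q = 0 :=
    factorization_factorial_eq_zero (by have := hq.pos; omega)
  rw [Nat.factorization_mul (Nat.factorial_ne_zero _) (prod_Ioc_ne_zero _ _),
    Finsupp.add_apply, h3, factorization_prod_Ioc, zero_add]
  have h4 : ∑ n ∈ Ioc (q-1) (q+k), n.factorization q = q.factorization q := by
    apply Finset.sum_eq_single_of_mem q
    · have := hq.pos
      simp only [mem_Ioc]; omega
    · intro n' hn' hne
      apply Nat.factorization_eq_zero_of_not_dvd
      rintro ⟨a, rfl⟩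
      simp only [mem_Ioc] at hn'
      have hq0 := hq.pos
      rcases Nat.lt_or_ge a 2 with ha | ha
      · interval_cases a
        · omega
        · omega
      · have : q * 2 ≤ q * a := Nat.mul_le_mul_left q ha
        omega
  rw [h4, hq.factorization_self]

end D6
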