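import Mathlib

open Finset

namespace D6

theorem prod_primes_dvd_of {S : Finset ℕ} {n : ℕ} (h : ∀ q ∈ S, q.Prime ∧ q ∣ n) :
    ∏ q ∈ S, q ∣ n := by
  apply Finset.prod_primes_dvd
  · intro q hq; exact (h q hq).1.prime
  · intro q hq; exact (h q hq).2

theorem sum_log_primes_le {S : Finset ℕ} {n : ℕ} (hn : n ≠ 0)
    (h : ∀ q ∈ S, q.Prime ∧ q ∣ n) :
    ∑ q ∈ S, Real.log q ≤ Real.log n := by
  have h1 : ∏ q ∈ S, q ≤ n := Nat.le_of_dvd (Nat.pos_of_ne_zero hn) (prod_primes_dvd_of h)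
  have h2 : ∑ q ∈ S, Real.log q = Real.log ((∏ q ∈ S, q : ℕ) : ℝ) := by
    rw [Nat.cast_prod, Real.log_prod]
    intro q hq
    exact_mod_cast (h q hq).1.ne_zero
  rw [h2]
  apply Real.log_le_log
  · have : 0 < ∏ q ∈ S, q := Finset.prod_pos (fun q hq => (h q hq).1.pos)
    exact_mod_cast this
  · exact_mod_cast h1

open Classical in
/-- T4: Gallagher's larger sieve (with exceptions) -/
theorem larger_sieve (N L A : ℕ) (P Z : Finset ℕ) (ε : ℝ)
    (hL : 1 ≤ L) (hN : 1 ≤ N)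
    (hZ : ∀ d ∈ Z, A ≤ d ∧ d ≤ A + N)
    (hP : ∀ q ∈ P, q.Prime ∧ L < q)
    (hε : 0 ≤ ε) (hε' : ε ≤ ∑ q ∈ P, Real.log q)
    (hhit : ∀ d ∈ Z, (∑ q ∈ P, Real.log q) - ε ≤
      ∑ q ∈ P.filter (fun q : ℕ => ∃ i : ℕ, 1 ≤ i ∧ i ≤ L ∧ q ∣ d + i), Real.log q) :
    (Z.card : ℝ) ^ 2 * ((∑ q ∈ P, Real.log q) - ε) ^ 2 ≤
      L * (∑ q ∈ P, Real.log q) *
        (Z.card * (∑ q ∈ P, Real.log q) + (Z.card : ℝ) ^ 2 * Real.log N) := by
  set θ := ∑ q ∈ P, Real.log q with hθ
  have hlog : ∀ q ∈ P, 0 ≤ Real.log q := fun q hq =>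
    Real.log_nonneg (by exact_mod_cast (hP q hq).1.one_le)
  have hθ0 : 0 ≤ θ := Finset.sum_nonneg hlog
  set Zq : ℕ → Finset ℕ := fun q => Z.filter (fun d => ∃ i : ℕ, 1 ≤ i ∧ i ≤ L ∧ q ∣ d + i)
    with hZq
  set Zqi : ℕ → ℕ → Finset ℕ := fun q i => Z.filter (fun d => q ∣ d + i) with hZqi
  -- step 1
  have s1 : (Z.card : ℝ) * (θ - ε) ≤ ∑ q ∈ P, Real.log q * ((Zq q).card : ℝ) := by
    have e1 : ∑ q ∈ P, Real.log q * ((Zq q).card : ℝ) =
        ∑ d ∈ Z, ∑ q ∈ P.filter (fun q : ℕ => ∃ i : ℕ, 1 ≤ i ∧ i ≤ L ∧ q ∣ d + i),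
          Real.log q := by
      simp_rw [Finset.sum_filter]
      rw [Finset.sum_comm]
      apply Finset.sum_congr rfl
      intro q hq
      rw [hZq]
      simp only [Finset.card_filter, Nat.cast_sum, Finset.mul_sum]
      apply Finset.sum_congr rfl
      intro d hd
      split_ifs <;> simp
    rw [e1]
    calc (Z.card : ℝ) * (θ - ε) = ∑ d ∈ Z, (θ - ε) := by rw [Finset.sum_const, nsmul_eq_mul]
      _ ≤ _ := Finset.sum_le_sum hhit
  -- step 2
  have s2 : (∑ q ∈ P, Real.log q * ((Zq q).card : ℝ)) ^ 2 ≤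
      θ * ∑ q ∈ P, Real.log q * ((Zq q).card : ℝ) ^ 2 := by
    apply Finset.sum_sq_le_sum_mul_sum_of_sq_le_mul
    · exact hlog
    · intro q hq
      have := hlog q hq
      positivity
    · intro q hq
      apply le_of_eq
      ring
  -- step 3, 4
  have s4 : ∀ q ∈ P, ((Zq q).card : ℝ) ^ 2 ≤
      L * (((Z ×ˢ Z).filter (fun x => (q : ℤ) ∣ (x.1 : ℤ) - x.2)).card : ℝ) := by
    intro q hq
    have t1 : (Zq q).card ≤ ∑ i ∈ Icc 1 L, (Zqi q i).card := by
      have : Zq q ⊆ (Icc 1 L).biUnion (Zqi q) := by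
        intro d hd
        simp only [hZq, mem_filter] at hd
        obtain ⟨hd1, i, hi1, hi2, hi3⟩ := hd
        simp only [mem_biUnion, mem_Icc, hZqi, mem_filter]
        exact ⟨i, ⟨hi1, hi2⟩, hd1, hi3⟩
      exact (Finset.card_le_card this).trans Finset.card_biUnion_le
    have t2 : (∑ i ∈ Icc 1 L, ((Zqi q i).card : ℝ)) ^ 2 ≤
        L * ∑ i ∈ Icc 1 L, ((Zqi q i).card : ℝ) ^ 2 := by
      have := sq_sum_le_card_mul_sum_sq (s := Icc 1 L) (f := fun i => ((Zqi q i).card : ℝ))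
      simpa using this
    have t3 : ∑ i ∈ Icc 1 L, (Zqi q i).card ^ 2 ≤
        ((Z ×ˢ Z).filter (fun x => (q : ℤ) ∣ (x.1 : ℤ) - x.2)).card := by
      have hdisj : ∀ i ∈ Icc 1 L, ∀ j ∈ Icc 1 L, i ≠ j →
          Disjoint ((Zqi q i) ×ˢ (Zqi q i)) ((Zqi q j) ×ˢ (Zqi q j)) := by
        intro i hi j hj hij
        rw [Finset.disjoint_left]
        rintro ⟨a, b⟩ h1 h2
        simp only [hZqi, mem_product, mem_filter] at h1 h2
        have h3 := h1.1.2
        have h4 := h2.1.2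
        simp only [mem_Icc] at hi hj
        have hqL := (hP q hq).2
        have h5 : (q : ℤ) ∣ (i : ℤ) - j := by
          have h3' : (q : ℤ) ∣ (a : ℤ) + i := by exact_mod_cast h3
          have h4' : (q : ℤ) ∣ (a : ℤ) + j := by exact_mod_cast h4
          have := dvd_sub h3' h4'
          simpa using this
        apply hij
        have h6 : |(i : ℤ) - j| < q := by rw [abs_lt]; omega
        have h7 := Int.eq_zero_of_abs_lt_dvd h5 h6
        omega
      have e2 : ∑ i ∈ Icc 1 L, (Zqi q i).card ^ 2 =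
          ((Icc 1 L).biUnion (fun i => (Zqi q i) ×ˢ (Zqi q i))).card := by
        rw [Finset.card_biUnion hdisj]
        apply Finset.sum_congr rfl
        intro i hi
        rw [Finset.card_product, sq]
      rw [e2]
      apply Finset.card_le_card
      rintro ⟨a, b⟩ hab
      simp only [mem_biUnion, mem_product, hZqi, mem_filter] at hab
      obtain ⟨i, -, ⟨ha, ha'⟩, hb, hb'⟩ := hab
      simp only [mem_filter, mem_product]
      refine ⟨⟨ha, hb⟩, ?_⟩
      have h3' : (q : ℤ) ∣ (a : ℤ) + i := by exact_mod_cast ha'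
      have h4' : (q : ℤ) ∣ (b : ℤ) + i := by exact_mod_cast hb'
      have := dvd_sub h3' h4'
      simpa using this
    have t1' : ((Zq q).card : ℝ) ≤ ∑ i ∈ Icc 1 L, ((Zqi q i).card : ℝ) := by exact_mod_cast t1
    have t3' : ∑ i ∈ Icc 1 L, ((Zqi q i).card : ℝ) ^ 2 ≤
        (((Z ×ˢ Z).filter (fun x => (q : ℤ) ∣ (x.1 : ℤ) - x.2)).card : ℝ) := by
      exact_mod_cast t3
    calc ((Zq q).card : ℝ) ^ 2 ≤ (∑ i ∈ Icc 1 L, ((Zqi q i).card : ℝ)) ^ 2 := by
          apply pow_le_pow_left₀ (by positivity) t1'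
      _ ≤ L * ∑ i ∈ Icc 1 L, ((Zqi q i).card : ℝ) ^ 2 := t2
      _ ≤ _ := by
          apply mul_le_mul_of_nonneg_left t3' (by positivity)
  -- step 5
  have s5 : ∑ q ∈ P, Real.log q *
      (((Z ×ˢ Z).filter (fun x => (q : ℤ) ∣ (x.1 : ℤ) - x.2)).card : ℝ) ≤
      Z.card * θ + (Z.card : ℝ) ^ 2 * Real.log N := by
    have e1 : ∑ q ∈ P, Real.log q *
        (((Z ×ˢ Z).filter (fun x => (q : ℤ) ∣ (x.1 : ℤ) - x.2)).card : ℝ) =
        ∑ x ∈ Z ×ˢ Z, ∑ q ∈ P.filter (fun q : ℕ => (q : ℤ) ∣ (x.1 : ℤ) - x.2),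
          Real.log q := by
      simp_rw [Finset.sum_filter]
      rw [Finset.sum_comm]
      apply Finset.sum_congr rfl
      intro q hq
      simp only [Finset.card_filter, Nat.cast_sum, Finset.mul_sum]
      apply Finset.sum_congr rfl
      intro d hd
      split_ifs <;> simp
    rw [e1]
    have hlogN : 0 ≤ Real.log N := Real.log_nonneg (by exact_mod_cast hN)
    have b1 : ∀ x ∈ Z ×ˢ Z, ∑ q ∈ P.filter (fun q : ℕ => (q : ℤ) ∣ (x.1 : ℤ) - x.2),
          Real.log q ≤ (if x.1 = x.2 then θ else 0) + Real.log N := by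
      rintro ⟨a, b⟩ hab
      simp only [mem_product] at hab
      by_cases hab' : a = b
      · subst hab'
        simp only [sub_self, dvd_zero, Finset.filter_true, if_true]
        linarith
      · simp only [if_neg hab', zero_add]
        have hne : ((a : ℤ) - b).natAbs ≠ 0 := by
          rw [Int.natAbs_ne_zero]; omega
        have h1 := sum_log_primes_le (S := P.filter (fun q : ℕ => (q : ℤ) ∣ (a : ℤ) - b))
          hne (by
            intro q hq
            simp only [mem_filter] at hq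
            refine ⟨(hP q hq.1).1, ?_⟩
            exact Int.natCast_dvd.mp hq.2)
        refine h1.trans ?_
        apply Real.log_le_log
        · have : 0 < ((a : ℤ) - b).natAbs := Nat.pos_of_ne_zero hne
          exact_mod_cast this
        · have ha := hZ a hab.1
          have hb := hZ b hab.2
          have : ((a : ℤ) - b).natAbs ≤ N := by omega
          exact_mod_cast this
    refine (Finset.sum_le_sum b1).trans ?_
    rw [Finset.sum_add_distrib]
    have e3 : ∑ x ∈ Z ×ˢ Z, (if x.1 = x.2 then θ else 0) = Z.card * θ := by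
      rw [Finset.sum_product]
      simp
    rw [e3]
    simp [Finset.card_product, sq, mul_assoc]
  have hθε : 0 ≤ θ - ε := by linarith
  calc (Z.card : ℝ) ^ 2 * (θ - ε) ^ 2 = ((Z.card : ℝ) * (θ - ε)) ^ 2 := by ring
    _ ≤ (∑ q ∈ P, Real.log q * ((Zq q).card : ℝ)) ^ 2 := by
        apply pow_le_pow_left₀ (by positivity) s1
    _ ≤ θ * ∑ q ∈ P, Real.log q * ((Zq q).card : ℝ) ^ 2 := s2
    _ ≤ θ * ∑ q ∈ P, Real.log q *
        (L * (((Z ×ˢ Z).filter (fun x => (q : ℤ) ∣ (x.1 : ℤ) - x.2)).card : ℝ)) := by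
        apply mul_le_mul_of_nonneg_left _ hθ0
        apply Finset.sum_le_sum
        intro q hq
        exact mul_le_mul_of_nonneg_left (s4 q hq) (hlog q hq)
    _ = L * θ * ∑ q ∈ P, Real.log q *
        (((Z ×ˢ Z).filter (fun x => (q : ℤ) ∣ (x.1 : ℤ) - x.2)).card : ℝ) := by
        rw [Finset.mul_sum, Finset.mul_sum]
        apply Finset.sum_congr rfl
        intro q hq
        ring
    _ ≤ _ := by
        apply mul_le_mul_of_nonneg_left s5 (by positivity)

end D6
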