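import Mathlib
import Pool.Agent.H90.D6.Basic
import Pool.Agent.H90.D6.Larger

open Finset

namespace D6

theorem prod_Ioc_eq_factorial_mul_choose (u H : ℕ) :
    ∏ n ∈ Ioc u (u + H), n = H.factorial * (u + H).choose H := by
  have h1 := factorial_eq_mul_prod (b := u) (m := u + H) (by omega)
  have h2 := Nat.choose_mul_factorial_mul_factorial (n := u + H) (k := H) (by omega)
  rw [Nat.add_sub_cancel] at h2
  have h3 : 0 < u.factorial := Nat.factorial_pos u
  apply Nat.eq_of_mul_eq_mul_left h3
  rw [← h1, ← h2]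
  ring

theorem choose_dvd_prime {u H q : ℕ} (hq : q.Prime) (hH : H < q)
    (h : ∃ n ∈ Ioc u (u + H), q ∣ n) : q ∣ (u + H).choose H := by
  obtain ⟨n, hn, hqn⟩ := h
  have h1 : q ∣ ∏ n ∈ Ioc u (u + H), n := hqn.trans (Finset.dvd_prod_of_mem _ hn)
  rw [prod_Ioc_eq_factorial_mul_choose] at h1
  rcases hq.dvd_mul.mp h1 with h2 | h2
  · exact absurd ((hq.dvd_factorial).mp h2) (by omega)
  · exact h2

theorem log_choose_le_aux (v H : ℕ) (hH : 1 ≤ H) (hHv : H ≤ v) :
    Real.log (v.choose H) ≤ H * (1 + Real.log (v / H)) := by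
  have hv : (0 : ℝ) < v := by exact_mod_cast (by omega : 0 < v)
  have hH' : (0 : ℝ) < H := by exact_mod_cast (by omega : 0 < H)
  have h1 := Nat.choose_le_pow_div (α := ℝ) H v
  have h2 := Real.pow_div_factorial_le_exp (x := (H : ℝ)) hH'.le H
  have hf : (0 : ℝ) < H.factorial := by exact_mod_cast Nat.factorial_pos H
  have h3 : (v.choose H : ℝ) ≤ (v / H : ℝ) ^ H * Real.exp H := by
    calc (v.choose H : ℝ) ≤ (v : ℝ) ^ H / H.factorial := h1
      _ = (v / H : ℝ) ^ H * ((H : ℝ) ^ H / H.factorial) := by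
          rw [div_pow]; field_simp
      _ ≤ _ := by
          apply mul_le_mul_of_nonneg_left h2 (by positivity)
  have hc : (0 : ℝ) < v.choose H := by exact_mod_cast Nat.choose_pos hHv
  calc Real.log (v.choose H) ≤ Real.log ((v / H : ℝ) ^ H * Real.exp H) :=
        Real.log_le_log hc h3
    _ = H * (1 + Real.log (v / H)) := by
        rw [Real.log_mul (by positivity) (by positivity), Real.log_pow, Real.log_exp]
        ring

/-- Lemma U: upper bound for the mass of primes `> H` dividing an interval of length `H` -/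
theorem mass_upper {u H : ℕ} (hH : 1 ≤ H) (S : Finset ℕ)
    (hS : ∀ q ∈ S, q.Prime ∧ H < q ∧ ∃ n ∈ Ioc u (u + H), q ∣ n) :
    ∑ q ∈ S, Real.log q ≤ H * (1 + Real.log (((u + H : ℕ) : ℝ) / H)) := by
  have h1 : ∑ q ∈ S, Real.log q ≤ Real.log ((u + H).choose H) := by
    apply sum_log_primes_le
    · exact (Nat.choose_pos (by omega)).ne'
    · intro q hq
      obtain ⟨h1, h2, h3⟩ := hS q hq
      exact ⟨h1, choose_dvd_prime h1 h2 h3⟩
  exact h1.trans (log_choose_le_aux (u + H) H hH (by omega))

theorem choose_ge_pow (v H : ℕ) (hHv : H ≤ v) :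
    v ^ H ≤ v.choose H * H ^ H := by
  have h1 : v ^ H * H.factorial ≤ v.descFactorial H * H ^ H := by
    have e1 : v ^ H * H.factorial = ∏ i ∈ range H, (v * (H - i)) := by
      rw [Finset.prod_mul_distrib, Finset.prod_const, card_range, ← Nat.descFactorial_self H,
        Nat.descFactorial_eq_prod_range]
    have e2 : v.descFactorial H * H ^ H = ∏ i ∈ range H, ((v - i) * H) := by
      rw [Finset.prod_mul_distrib, Finset.prod_const, card_range,
        Nat.descFactorial_eq_prod_range]
    rw [e1, e2]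
    apply Finset.prod_le_prod'
    intro i hi
    simp only [mem_range] at hi
    obtain ⟨a, rfl⟩ := Nat.exists_eq_add_of_lt hi
    obtain ⟨c, rfl⟩ := Nat.exists_eq_add_of_le hHv
    have e3 : i + a + 1 - i = a + 1 := by omega
    have e4 : i + a + 1 + c - i = a + 1 + c := by omega
    rw [e3, e4]
    nlinarith
  rw [Nat.descFactorial_eq_factorial_mul_choose] at h1
  have h2 : 0 < H.factorial := Nat.factorial_pos H
  have h3 : H.factorial * v ^ H ≤ H.factorial * (v.choose H * H ^ H) := by
    calc _ = v ^ H * H.factorial := by ring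
      _ ≤ _ := h1
      _ = _ := by ring
  exact Nat.le_of_mul_le_mul_left h3 h2

theorem log_choose_ge (v H : ℕ) (hH : 1 ≤ H) (hHv : H ≤ v) :
    H * Real.log (v / H) ≤ Real.log (v.choose H) := by
  have hv : (0 : ℝ) < v := by exact_mod_cast (by omega : 0 < v)
  have hH' : (0 : ℝ) < H := by exact_mod_cast (by omega : 0 < H)
  have h1 : ((v : ℝ) ^ H) ≤ v.choose H * (H : ℝ) ^ H := by exact_mod_cast choose_ge_pow v H hHv
  have h2 : ((v / H : ℝ)) ^ H ≤ v.choose H := by
    rw [div_pow, div_le_iff₀ (by positivity)]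
    exact h1
  calc H * Real.log (v / H) = Real.log ((v / H : ℝ) ^ H) := by rw [Real.log_pow]
    _ ≤ _ := Real.log_le_log (by positivity) h2

theorem log_eq_sum_primeFactors (n : ℕ) :
    Real.log n = ∑ q ∈ n.primeFactors, (n.factorization q : ℝ) * Real.log q := by
  rw [Real.log_nat_eq_sum_factorization, Finsupp.sum, Nat.support_factorization]

theorem factorization_choose_mul_log_le (v H q : ℕ) (hv : 0 < v) :
    ((v.choose H).factorization q : ℝ) * Real.log q ≤ Real.log v := by
  rcases Nat.eq_zero_or_pos q with rfl | hq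
  · simp
    exact Real.log_nonneg (by exact_mod_cast hv)
  · have h1 := Nat.pow_factorization_choose_le (p := q) (k := H) hv
    have h2 : ((q : ℝ) ^ (v.choose H).factorization q) ≤ v := by exact_mod_cast h1
    have hq' : (0 : ℝ) < q := by exact_mod_cast hq
    calc ((v.choose H).factorization q : ℝ) * Real.log q =
        Real.log ((q : ℝ) ^ (v.choose H).factorization q) := by rw [Real.log_pow]
      _ ≤ _ := Real.log_le_log (by positivity) h2

theorem sum_log_primes_le_theta {S : Finset ℕ} {z : ℕ} (h : ∀ q ∈ S, q.Prime ∧ q ≤ z) :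
    ∑ q ∈ S, Real.log q ≤ Chebyshev.theta z := by
  rw [Chebyshev.theta]
  simp only [Nat.floor_natCast]
  apply Finset.sum_le_sum_of_subset_of_nonneg
  · intro q hq
    simp only [mem_filter, mem_Ioc]
    exact ⟨⟨(h q hq).1.pos, (h q hq).2⟩, (h q hq).1⟩
  · intro q hq _
    simp only [mem_filter, mem_Ioc] at hq
    exact Real.log_nonneg (by exact_mod_cast hq.2.one_le)

/-- Lemma Lo: lower bound for the mass of large primes dividing an interval -/
theorem log_choose_le_mass (v H z : ℕ) (hv : 0 < v) (hz : v < (z + 1) ^ 2) :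
    Real.log (v.choose H) ≤ Real.sqrt v * Real.log v + Chebyshev.theta z +
      ∑ q ∈ (v.choose H).primeFactors.filter (fun q => z < q), Real.log q := by
  rw [log_eq_sum_primeFactors]
  have hlogv : 0 ≤ Real.log v := Real.log_nonneg (by exact_mod_cast hv)
  set P := (v.choose H).primeFactors with hP
  have hpr : ∀ q ∈ P, q.Prime := fun q hq => Nat.prime_of_mem_primeFactors hq
  have h1 : ∀ q ∈ P, ((v.choose H).factorization q : ℝ) * Real.log q ≤
      (if q ≤ Nat.sqrt v then Real.log v else 0) + Real.log q := by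
    intro q hq
    have hlq : 0 ≤ Real.log q := Real.log_nonneg (by exact_mod_cast (hpr q hq).one_le)
    split_ifs with h
    · have := factorization_choose_mul_log_le v H q hv
      linarith
    · have h2 : v < q ^ 2 := by
        rw [not_le] at h
        have := Nat.lt_succ_sqrt v
        calc v < (Nat.sqrt v).succ * (Nat.sqrt v).succ := this
          _ ≤ q * q := Nat.mul_le_mul h h
          _ = q ^ 2 := by ring
      have h3 := Nat.factorization_choose_le_one (k := H) h2
      have h4 : ((v.choose H).factorization q : ℝ) ≤ 1 := by exact_mod_cast h3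
      nlinarith
  refine (Finset.sum_le_sum h1).trans ?_
  rw [Finset.sum_add_distrib]
  have h2 : ∑ q ∈ P, (if q ≤ Nat.sqrt v then Real.log v else 0) ≤ Real.sqrt v * Real.log v := by
    rw [← Finset.sum_filter, Finset.sum_const, nsmul_eq_mul]
    apply mul_le_mul_of_nonneg_right _ hlogv
    have h3 : (P.filter (fun q => q ≤ Nat.sqrt v)).card ≤ Nat.sqrt v := by
      calc (P.filter (fun q => q ≤ Nat.sqrt v)).card ≤ (Icc 1 (Nat.sqrt v)).card := by
            apply Finset.card_le_card
            intro q hq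
            simp only [mem_filter] at hq
            simp only [mem_Icc]
            exact ⟨(hpr q hq.1).one_le, hq.2⟩
        _ = Nat.sqrt v := by simp
    calc ((P.filter (fun q => q ≤ Nat.sqrt v)).card : ℝ) ≤ (Nat.sqrt v : ℝ) := by
          exact_mod_cast h3
      _ ≤ Real.sqrt v := Real.nat_sqrt_le_real_sqrt
  have h3 : ∑ q ∈ P, Real.log q = ∑ q ∈ P.filter (fun q => z < q), Real.log q +
      ∑ q ∈ P.filter (fun q => ¬ z < q), Real.log q :=
    (Finset.sum_filter_add_sum_filter_not _ _ _).symm
  have h4 : ∑ q ∈ P.filter (fun q => ¬ z < q), Real.log q ≤ Chebyshev.theta z := by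
    apply sum_log_primes_le_theta
    intro q hq
    simp only [mem_filter, not_lt] at hq
    exact ⟨hpr q hq.1, hq.2⟩
  rw [h3]
  linarith

/-- primes `> z` in the interval `Ioc u v` -/
def PS (u v z : ℕ) : Finset ℕ :=
  (Finset.Icc 1 v).filter (fun q => q.Prime ∧ z < q ∧ ∃ n ∈ Ioc u v, q ∣ n)

theorem mem_PS {u v z q : ℕ} :
    q ∈ PS u v z ↔ q.Prime ∧ z < q ∧ ∃ n ∈ Ioc u v, q ∣ n := by
  simp only [PS, mem_filter, mem_Icc, and_iff_right_iff_imp]
  rintro ⟨h1, h2, n, hn, hqn⟩
  refine ⟨h1.one_le, ?_⟩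
  simp only [mem_Ioc] at hn
  exact (Nat.le_of_dvd (by omega) hqn).trans hn.2

theorem mass_lower {u H z : ℕ} (hH : 1 ≤ H) (hz : u + H < (z + 1) ^ 2) :
    H * Real.log (((u + H : ℕ) : ℝ) / H) - Real.sqrt (u + H : ℕ) * Real.log (u + H : ℕ) -
      Chebyshev.theta z ≤ ∑ q ∈ PS u (u + H) z, Real.log q := by
  have h1 := log_choose_ge (u + H) H hH (by omega)
  have h2 := log_choose_le_mass (u + H) H z (by omega) hz
  have h3 : ∑ q ∈ ((u + H).choose H).primeFactors.filter (fun q => z < q), Real.log q ≤
      ∑ q ∈ PS u (u + H) z, Real.log q := by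
    apply Finset.sum_le_sum_of_subset_of_nonneg
    · intro q hq
      simp only [mem_filter, Nat.mem_primeFactors] at hq
      rw [mem_PS]
      refine ⟨hq.1.1, hq.2, ?_⟩
      have h4 : q ∣ ∏ n ∈ Ioc u (u + H), n := by
        rw [prod_Ioc_eq_factorial_mul_choose]
        exact hq.1.2.1.mul_left _
      exact (hq.1.1.prime.dvd_finsetProd_iff _).mp h4
    · intro q hq _
      rw [mem_PS] at hq
      exact Real.log_nonneg (by exact_mod_cast hq.1.one_le)
  linarith

end D6
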