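import Mathlib
import Pool.Agent.H90.D6.Mass
import Pool.Agent.H90.D6.Frac

open Finset

namespace D6

theorem rat_den_dvd_of_mul {n₁ n₂ q : ℕ} (hq : 0 < q) (h1 : q ∣ n₁) (h2 : q ∣ n₂) (hn : 0 < n₁) :
    ((n₂ : ℚ) / n₁).den * q ∣ n₁ := by
  obtain ⟨a, rfl⟩ := h1
  obtain ⟨b, rfl⟩ := h2
  have ha : 0 < a := Nat.pos_of_mul_pos_left hn
  have e1 : (((q * b : ℕ) : ℚ) / ((q * a : ℕ) : ℚ)) = ((b : ℤ) : ℚ) / ((a : ℤ) : ℚ) := by
    push_cast
    rw [mul_div_mul_left]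
    exact_mod_cast hq.ne'
  rw [e1, mul_comm]
  apply Nat.mul_dvd_mul_left
  have := Rat.den_dvd (b : ℤ) (a : ℤ)
  exact_mod_cast this

open Classical in
theorem frac_mass {m b c d z : ℕ} (Q₀ : Finset ℕ) (hbm : b < m) (hcb : c ≤ b) (hdc : d ≤ c)
    (hz : 1 ≤ z)
    (hQ : ∀ q ∈ Q₀, q.Prime ∧ z < q ∧ (∃ n ∈ Ioc b m, q ∣ n) ∧ (∃ n ∈ Ioc d c, q ∣ n))
    (w₀ : ℝ) (hw₀ : 0 < w₀)
    (hw : ∀ n₁ ∈ Ioc b m, ∀ n₂ ∈ Ioc d c, w₀ ≤ (((n₂ : ℚ) / n₁).den : ℝ))
    (β γ : ℝ) (hβ : 0 ≤ β) (hγ : 0 ≤ γ)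
    (hW : ∀ w : ℕ, 1 ≤ w → w₀ ≤ w → w * z ≤ m → ∀ S : Finset ℕ,
      (∀ q ∈ S, q.Prime ∧ z < q ∧ ∃ n ∈ Ioc b m, w * q ∣ n) →
      ∑ q ∈ S, Real.log q ≤ β * (1 / w) + γ) :
    ∑ q ∈ Q₀, Real.log q ≤
      β * ((m / z : ℝ) * ((((m : ℝ) - b) + ((c : ℝ) - d)) / m) + 1 / w₀) +
        γ * ((m / z : ℝ) + 1) ^ 2 := by
  choose! n₁ hn₁ using fun q hq => (hQ q hq).2.2.1
  choose! n₂ hn₂ using fun q hq => (hQ q hq).2.2.2
  set f : ℕ → ℚ := fun q => (n₂ q : ℚ) / n₁ q with hf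
  set F := Q₀.image f with hF
  have hm' : (0 : ℝ) < m := by exact_mod_cast (by omega : 0 < m)
  have hz' : (0 : ℝ) < z := by exact_mod_cast hz
  have hb' : (0 : ℝ) < (b : ℝ) + 1 := by positivity
  have hbm' : (b : ℝ) + 1 ≤ m := by exact_mod_cast hbm
  have hcb' : (c : ℝ) ≤ b := by exact_mod_cast hcb
  have hdc' : (d : ℝ) ≤ c := by exact_mod_cast hdc
  -- properties of elements of F
  have key : ∀ q ∈ Q₀, (f q).den * q ∣ n₁ q ∧ (f q).den * z ≤ m := by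
    intro q hq
    obtain ⟨h1, h2, -, -⟩ := hQ q hq
    obtain ⟨h3, h4⟩ := hn₁ q hq
    obtain ⟨h5, h6⟩ := hn₂ q hq
    simp only [mem_Ioc] at h3 h5
    have h7 := rat_den_dvd_of_mul (n₁ := n₁ q) (n₂ := n₂ q) h1.pos h4 h6 (by omega)
    refine ⟨h7, ?_⟩
    have h8 := Nat.le_of_dvd (by omega) h7
    calc (f q).den * z ≤ (f q).den * q := Nat.mul_le_mul_left _ h2.le
      _ ≤ n₁ q := h8
      _ ≤ m := h3.2
  have hFprop : ∀ g ∈ F, (d / m : ℝ) ≤ (g : ℝ) ∧ (g : ℝ) ≤ (c / (b + 1) : ℝ) ∧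
      (g.den : ℝ) ≤ (m / z : ℝ) ∧ w₀ ≤ g.den := by
    intro g hg
    simp only [hF, mem_image] at hg
    obtain ⟨q, hq, rfl⟩ := hg
    obtain ⟨h3, h4⟩ := hn₁ q hq
    obtain ⟨h5, h6⟩ := hn₂ q hq
    have h9 := hw _ h3 _ h5
    simp only [mem_Ioc] at h3 h5
    have hpos : (0 : ℝ) < n₁ q := by exact_mod_cast (by omega : 0 < n₁ q)
    have r1 : (n₁ q : ℝ) ≤ m := by exact_mod_cast h3.2
    have r2 : (b : ℝ) + 1 ≤ n₁ q := by exact_mod_cast h3.1
    have r3 : (d : ℝ) ≤ n₂ q := by exact_mod_cast h5.1.le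
    have r4 : (n₂ q : ℝ) ≤ c := by exact_mod_cast h5.2
    have r5 : (0 : ℝ) ≤ d := by positivity
    have ef : ((f q : ℚ) : ℝ) = (n₂ q : ℝ) / n₁ q := by simp [hf]
    refine ⟨?_, ?_, ?_, h9⟩
    · rw [ef, div_le_div_iff₀ hm' hpos]
      nlinarith
    · rw [ef, div_le_div_iff₀ hpos hb']
      nlinarith
    · rw [le_div_iff₀ hz']
      exact_mod_cast (key q hq).2
  have hwin : (d / m : ℝ) ≤ (c / (b + 1) : ℝ) := by
    rw [div_le_div_iff₀ hm' hb']
    nlinarith [(by positivity : (0 : ℝ) ≤ d)]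
  have hQ0 : (0 : ℝ) ≤ m / z := by positivity
  have s1 := frac_sum F (m / z) (d / m) (c / (b + 1)) w₀ hwin hw₀ hQ0 hFprop
  have s2 : (c / (b + 1) : ℝ) - d / m ≤ (((m : ℝ) - b) + ((c : ℝ) - d)) / m := by
    rw [div_sub_div _ _ hb'.ne' hm'.ne', div_le_div_iff₀ (by positivity) hm']
    have h1 : (c : ℝ) * m - (b + 1) * d ≤ ((m : ℝ) - b + (c - d)) * (b + 1) := by
      nlinarith
    calc ((c : ℝ) * m - (b + 1) * d) * m ≤ (((m : ℝ) - b + (c - d)) * (b + 1)) * m :=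
          mul_le_mul_of_nonneg_right h1 hm'.le
      _ = _ := by ring
  -- count of F
  have s3 : (F.card : ℝ) ≤ ((m / z : ℝ) + 1) ^ 2 := by
    have hsub : F.card ≤ ((range (m / z + 1)) ×ˢ (range (m / z + 1))).card := by
      apply Finset.card_le_card_of_injOn (fun g : ℚ => (g.num.toNat, g.den))
      · intro g hg
        obtain ⟨h1, h2, h3, h4⟩ := hFprop g hg
        have h5 : (0 : ℝ) ≤ g := le_trans (by positivity) h1
        have h5' : (0 : ℚ) ≤ g := by exact_mod_cast h5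
        have h6 : (g : ℝ) < 1 := by
          refine lt_of_le_of_lt h2 ?_
          rw [div_lt_one hb']
          linarith
        have h6' : g < 1 := by exact_mod_cast h6
        have h7 : g.num < g.den := by
          rw [Rat.lt_iff] at h6'
          simpa using h6'
        have h8 : 0 ≤ g.num := Rat.num_nonneg.mpr h5'
        have h9 : g.den ≤ m / z := by
          rw [Nat.le_div_iff_mul_le (by omega)]
          rw [le_div_iff₀ hz'] at h3
          exact_mod_cast h3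
        simp only [coe_product, coe_range, Set.mem_prod, Set.mem_Iio]
        constructor
        · omega
        · omega
      · intro g hg g' hg' hgg
        simp only [Prod.mk.injEq] at hgg
        obtain ⟨h1, -, -, -⟩ := hFprop g hg
        obtain ⟨h1', -, -, -⟩ := hFprop g' hg'
        have h5 : (0 : ℚ) ≤ g := by
          have : (0 : ℝ) ≤ g := le_trans (by positivity) h1
          exact_mod_cast this
        have h5' : (0 : ℚ) ≤ g' := by
          have : (0 : ℝ) ≤ g' := le_trans (by positivity) h1'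
          exact_mod_cast this
        have h8 := Rat.num_nonneg.mpr h5
        have h8' := Rat.num_nonneg.mpr h5'
        apply Rat.ext
        · omega
        · exact hgg.2
    rw [card_product, card_range] at hsub
    have h1 : (F.card : ℝ) ≤ (((m / z : ℕ) : ℝ) + 1) * (((m / z : ℕ) : ℝ) + 1) := by
      exact_mod_cast hsub
    have h2 : ((m / z : ℕ) : ℝ) ≤ m / z := Nat.cast_div_le
    have h3 : (0 : ℝ) ≤ ((m / z : ℕ) : ℝ) := by positivity
    nlinarith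
  -- fiberwise sum
  have s4 : ∑ q ∈ Q₀, Real.log q = ∑ g ∈ F, ∑ q ∈ Q₀.filter (fun q => f q = g), Real.log q := by
    rw [hF]
    exact (Finset.sum_fiberwise_of_maps_to (fun q hq => mem_image_of_mem f hq) _).symm
  rw [s4]
  have s5 : ∀ g ∈ F, ∑ q ∈ Q₀.filter (fun q => f q = g), Real.log q ≤
      β * (1 / (g.den : ℝ)) + γ := by
    intro g hg
    obtain ⟨h1, h2, h3, h4⟩ := hFprop g hg
    apply hW g.den g.den_pos h4
    · rw [le_div_iff₀ hz'] at h3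
      exact_mod_cast h3
    · intro q hq
      simp only [mem_filter] at hq
      obtain ⟨hq1, rfl⟩ := hq
      obtain ⟨h5, h6, -, -⟩ := hQ q hq1
      exact ⟨h5, h6, n₁ q, (hn₁ q hq1).1, (key q hq1).1⟩
  refine (Finset.sum_le_sum s5).trans ?_
  rw [Finset.sum_add_distrib, ← Finset.mul_sum, Finset.sum_const, nsmul_eq_mul]
  have s6 : ∑ g ∈ F, (1 / (g.den : ℝ)) ≤
      (m / z : ℝ) * ((((m : ℝ) - b) + ((c : ℝ) - d)) / m) + 1 / w₀ := by
    refine s1.trans ?_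
    have := mul_le_mul_of_nonneg_left s2 hQ0
    linarith
  have s7 := mul_le_mul_of_nonneg_left s6 hβ
  have s8 := mul_le_mul_of_nonneg_left s3 hγ
  linarith

end D6
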