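import Mathlib
import Pool.Agent.H62.PNT

open Finset Filter Topology

namespace D6

/-- T1: PNT-lite -/
theorem pnt_lite (ρ : ℝ) (h0 : 0 < ρ) (h1 : ρ < 1) :
    ∃ c : ℝ, 0 < c ∧ ∃ Y : ℝ, ∀ y : ℝ, Y ≤ y →
      c * y ≤ Chebyshev.theta y - Chebyshev.theta (ρ * y) := by
  have hT := Pool.Agent.H62.PNT.theta_div_tendsto
  have h2 : Tendsto (fun y : ℝ => ρ * y) atTop atTop :=
    Filter.Tendsto.const_mul_atTop h0 tendsto_id
  have h3 := hT.comp h2
  have h4 : Tendsto (fun y : ℝ => Chebyshev.theta y / y -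
      ρ * (Chebyshev.theta (ρ * y) / (ρ * y))) atTop (𝓝 (1 - ρ * 1)) := by
    exact hT.sub (h3.const_mul ρ)
  have h5 : ∀ᶠ y : ℝ in atTop, (1 - ρ) / 2 < Chebyshev.theta y / y -
      ρ * (Chebyshev.theta (ρ * y) / (ρ * y)) := by
    apply h4.eventually (lt_mem_nhds _)
    linarith
  have h6 := h5.and (eventually_gt_atTop (0 : ℝ))
  obtain ⟨Y, hY⟩ := h6.exists_forall_of_atTop
  refine ⟨(1 - ρ) / 2, by linarith, Y, ?_⟩
  intro y hy
  obtain ⟨h7, h8⟩ := hY y hy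
  have e1 : Chebyshev.theta y / y - ρ * (Chebyshev.theta (ρ * y) / (ρ * y)) =
      (Chebyshev.theta y - Chebyshev.theta (ρ * y)) / y := by
    field_simp
  rw [e1, lt_div_iff₀ h8] at h7
  exact h7.le

end D6
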