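import Mathlib
import Pool.Agent.H90.D6.FracMass
import Pool.Agent.H90.D6.Cover
import Pool.Agent.H90.D6.Asymp
import Pool.Agent.H90.D6.PntLite

open Finset Filter

namespace D6

theorem mul_log_div_le {H V h : ℝ} (hH : 0 < H) (hV : 0 < V) (hh : 0 < h) :
    H * Real.log (V / H) ≤ H * Real.log (V / h) + (h - H) := by
  have e : V / H = (V / h) * (h / H) := by field_simp
  rw [e, Real.log_mul (by positivity) (by positivity)]
  have h1 := Real.log_le_sub_one_of_pos (show 0 < h / H by positivity)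
  have h2 : H * Real.log (h / H) ≤ H * (h / H - 1) := mul_le_mul_of_nonneg_left h1 hH.le
  have h3 : H * (h / H - 1) = h - H := by field_simp
  linarith

theorem mass_upper_w {b m z w : ℕ} (hbm : b < m) (hz : m - b ≤ z) (hw : 1 ≤ w)
    (S : Finset ℕ) (hS : ∀ q ∈ S, q.Prime ∧ z < q ∧ ∃ n ∈ Ioc b m, w * q ∣ n) :
    ∑ q ∈ S, Real.log q ≤
      (((m : ℝ) - b) * (1 + Real.log (m / ((m : ℝ) - b)))) * (1 / w) + Real.log m := by
  have hm' : (0 : ℝ) < m := by exact_mod_cast (by omega : 0 < m)
  have hw' : (0 : ℝ) < w := by exact_mod_cast hw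
  have hK : (0 : ℝ) < (m : ℝ) - b := by
    have : (b : ℝ) < m := by exact_mod_cast hbm
    linarith
  have hb0 : (0 : ℝ) ≤ b := by positivity
  have hKm : (m : ℝ) - b ≤ m := by linarith
  have hlogm : 0 ≤ Real.log m := Real.log_nonneg (by exact_mod_cast (by omega : 1 ≤ m))
  have hlogT : 0 ≤ Real.log (m / ((m : ℝ) - b)) := by
    apply Real.log_nonneg
    rw [le_div_iff₀ hK]; linarith
  have hdiv : ∀ q ∈ S, ∃ n' ∈ Ioc (b / w) (m / w), q ∣ n' := by
    intro q hq
    obtain ⟨h1, h2, n, hn, a, rfl⟩ := hS q hq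
    simp only [mem_Ioc] at hn
    refine ⟨q * a, ?_, Dvd.intro _ rfl⟩
    simp only [mem_Ioc]
    constructor
    · rw [Nat.div_lt_iff_lt_mul (by omega)]
      calc b < w * q * a := hn.1
        _ = q * a * w := by ring
    · rw [Nat.le_div_iff_mul_le (by omega)]
      calc q * a * w = w * q * a := by ring
        _ ≤ m := hn.2
  rcases Nat.lt_or_ge (b / w) (m / w) with hlt | hge
  · obtain ⟨H, hH⟩ := Nat.exists_eq_add_of_lt hlt
    have hH1 : m / w = b / w + (H + 1) := by omega
    have hHK : H + 1 ≤ m - b := by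
      have h1 : m / w ≤ b / w + (m - b) := by
        rw [← Nat.lt_succ_iff, Nat.div_lt_iff_lt_mul (by omega)]
        have h2 : b < (b / w + 1) * w := by
          rw [Nat.add_mul, Nat.one_mul]
          exact Nat.lt_div_mul_add (by omega)
        have h3 : (m - b) ≤ (m - b) * w := Nat.le_mul_of_pos_right _ (by omega)
        calc m = b + (m - b) := by omega
          _ < (b / w + 1) * w + (m - b) * w := by omega
          _ = (b / w + (m - b)).succ * w := by
              rw [Nat.succ_eq_add_one]; ring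
      omega
    have h1 := mass_upper (u := b / w) (H := H + 1) (by omega) S (by
      intro q hq
      obtain ⟨h1, h2, h3⟩ := hS q hq
      refine ⟨h1, by omega, ?_⟩
      rw [← hH1]
      exact hdiv q hq)
    refine h1.trans ?_
    rw [← hH1]
    -- real computations
    have hHpos : (0 : ℝ) < ((H + 1 : ℕ) : ℝ) := by positivity
    have hV1 : ((m / w : ℕ) : ℝ) ≤ (m : ℝ) / w := Nat.cast_div_le
    have hV2 : (b : ℝ) / w < ((b / w : ℕ) : ℝ) + 1 := by
      rw [div_lt_iff₀ hw']
      have h6 : b < (b / w + 1) * w := by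
        rw [Nat.add_mul, Nat.one_mul]; exact Nat.lt_div_mul_add (by omega)
      exact_mod_cast h6
    have hH2 : ((H + 1 : ℕ) : ℝ) ≤ ((m : ℝ) - b) / w + 1 := by
      have e1 : ((H + 1 : ℕ) : ℝ) = ((m / w : ℕ) : ℝ) - ((b / w : ℕ) : ℝ) := by
        rw [hH1]; push_cast; ring
      rw [e1, sub_div]; linarith
    have hVpos : (0 : ℝ) < ((m / w : ℕ) : ℝ) := by
      have : 0 < m / w := by rw [hH1]; positivity
      exact_mod_cast this
    have h2 : Real.log (((m / w : ℕ) : ℝ) / ((H + 1 : ℕ) : ℝ)) ≤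
        Real.log (((m : ℝ) / w) / ((H + 1 : ℕ) : ℝ)) := by
      apply Real.log_le_log (by positivity)
      apply div_le_div_of_nonneg_right hV1 hHpos.le
    have h3 := mul_log_div_le (H := ((H + 1 : ℕ) : ℝ)) (V := (m : ℝ) / w)
      (h := ((m : ℝ) - b) / w) hHpos (by positivity) (by positivity)
    have e2 : ((m : ℝ) / w) / (((m : ℝ) - b) / w) = m / ((m : ℝ) - b) := by
      field_simp
    rw [e2] at h3
    have h4 : ((H + 1 : ℕ) : ℝ) * Real.log (m / ((m : ℝ) - b)) ≤
        (((m : ℝ) - b) / w + 1) * Real.log (m / ((m : ℝ) - b)) :=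
      mul_le_mul_of_nonneg_right hH2 hlogT
    have h5 : Real.log (m / ((m : ℝ) - b)) ≤ Real.log m := by
      apply Real.log_le_log (by positivity)
      apply div_le_self hm'.le
      have : (b : ℝ) + 1 ≤ m := by exact_mod_cast hbm
      linarith
    have h6 : ((H + 1 : ℕ) : ℝ) * Real.log (((m / w : ℕ) : ℝ) / ((H + 1 : ℕ) : ℝ)) ≤
        ((H + 1 : ℕ) : ℝ) * Real.log (((m : ℝ) / w) / ((H + 1 : ℕ) : ℝ)) :=
      mul_le_mul_of_nonneg_left h2 hHpos.le
    have e3 : (((m : ℝ) - b) * (1 + Real.log (m / ((m : ℝ) - b)))) * (1 / w) =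
        ((m : ℝ) - b) / w + ((m : ℝ) - b) / w * Real.log (m / ((m : ℝ) - b)) := by
      field_simp
    rw [e3]
    linarith
  · have : S = ∅ := by
      rw [Finset.eq_empty_iff_forall_notMem]
      intro q hq
      obtain ⟨n', hn', -⟩ := hdiv q hq
      simp only [mem_Ioc] at hn'
      omega
    rw [this, Finset.sum_empty]
    positivity

theorem factorization_eq_one_of_sq {q n : ℕ} (hq : q.Prime) (hn : n ≠ 0) (h : q ∣ n)
    (h2 : n < q ^ 2) : n.factorization q = 1 := by
  have h3 : 1 ≤ n.factorization q := (hq.dvd_iff_one_le_factorization hn).mp h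
  have h4 : n.factorization q < 2 := by
    by_contra hcon
    push Not at hcon
    have h5 : q ^ 2 ∣ n := (hq.pow_dvd_iff_le_factorization hn).mpr hcon
    have := Nat.le_of_dvd (Nat.pos_of_ne_zero hn) h5
    omega
  omega

theorem exists_prime_of_theta_lt {a y : ℝ} (ha : 0 ≤ a) (h : Chebyshev.theta a < Chebyshev.theta y) :
    ∃ q : ℕ, q.Prime ∧ a < q ∧ (q : ℝ) ≤ y := by
  by_contra hcon
  push Not at hcon
  have hle : Chebyshev.theta y ≤ Chebyshev.theta a := by
    rcases le_or_gt y a with h1 | h1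
    · exact Chebyshev.theta_mono h1
    · rw [Chebyshev.theta, Chebyshev.theta]
      apply Finset.sum_le_sum_of_subset_of_nonneg
      · intro q hq
        simp only [mem_filter, mem_Ioc] at hq ⊢
        refine ⟨⟨hq.1.1, ?_⟩, hq.2⟩
        have h2 : (q : ℝ) ≤ y := (Nat.le_floor_iff (by linarith)).mp hq.1.2
        apply Nat.le_floor
        by_contra h3
        push Not at h3
        have := hcon q hq.2 h3
        linarith
      · intro q hq _
        simp only [mem_filter, mem_Ioc] at hq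
        exact Real.log_nonneg (by exact_mod_cast hq.2.one_le)
  linarith

theorem sum_factorization_self {b m q : ℕ} (hq : q.Prime) (hb : b < q) (hm : q ≤ m)
    (h2 : m < 2 * q) : ∑ n ∈ Ioc b m, n.factorization q = 1 := by
  rw [Finset.sum_eq_single_of_mem q (by simp; omega), hq.factorization_self]
  intro n' hn' hne
  apply Nat.factorization_eq_zero_of_not_dvd
  rintro ⟨a, rfl⟩
  simp only [mem_Ioc] at hn'
  rcases Nat.lt_or_ge a 2 with ha | ha
  · interval_cases a
    · omega
    · omega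
  · have : q * 2 ≤ q * a := Nat.mul_le_mul_left q ha
    omega

/-- Step 1 -/
theorem step1 (ε₀ : ℝ) (hε : 0 < ε₀) :
    ∀ᶠ x : ℕ in atTop, ∀ m b c d e : ℕ, x < 2 * m → m ≤ x → Rep m b c d e →
      (m : ℝ) - b ≤ ε₀ * m := by
  set ρ : ℝ := max (1 - ε₀) (1 / 2) with hρ
  have h0 : 0 < ρ := lt_of_lt_of_le (by norm_num) (le_max_right _ _)
  have h1 : ρ < 1 := max_lt (by linarith) (by norm_num)
  obtain ⟨c₀, hc₀, Y, hY⟩ := pnt_lite ρ h0 h1
  filter_upwards [eventually_ge_atTop (2 * (⌈Y⌉₊ + 1))] with x hx m b c d e hxm hmx hrep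
  have hmY : Y ≤ (m : ℝ) := by
    have h2 : ⌈Y⌉₊ ≤ m := by omega
    exact (Nat.le_ceil Y).trans (by exact_mod_cast h2)
  have hm' : (0 : ℝ) < m := by exact_mod_cast (by omega : 0 < m)
  have h2 := hY m hmY
  obtain ⟨q, hq, hq1, hq2⟩ := exists_prime_of_theta_lt (a := ρ * m) (y := m) (by positivity) (by
    have : 0 < c₀ * m := by positivity
    linarith)
  by_contra hcon
  push Not at hcon
  have hq2' : q ≤ m := by exact_mod_cast hq2
  have h2q : m < 2 * q := by
    have : (1 / 2 : ℝ) * m ≤ ρ * m := mul_le_mul_of_nonneg_right (le_max_right _ _) hm'.le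
    have h3 : (m : ℝ) < 2 * q := by linarith
    exact_mod_cast h3
  have hbq : b < q := by
    have h3 : (1 - ε₀) * m ≤ ρ * m := mul_le_mul_of_nonneg_right (le_max_left _ _) hm'.le
    have h4 : (b : ℝ) < q := by linarith
    exact_mod_cast h4
  have hpar := hrep.parity q
  obtain ⟨r1, r2, r3, r4, -⟩ := hrep
  rw [sum_factorization_self hq hbq hq2' h2q, sum_factorization_eq_zero, 
    factorization_factorial_eq_zero (by omega)] at hpar
  · exact absurd hpar (by decide)
  · intro n hn hqn
    simp only [mem_Ioc] at hn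
    have := Nat.le_of_dvd (by omega) hqn
    omega

end D6
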