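import Mathlib
import Pool.Agent.H90.D6.PropA1

open Finset Filter

namespace D6

theorem theta_sub_le {a y : ℝ} (ha : 0 ≤ a) (S : Finset ℕ) (hS1 : ∀ q ∈ S, 1 ≤ q)
    (hS : ∀ q : ℕ, q.Prime → a < q → (q : ℝ) ≤ y → q ∈ S) :
    Chebyshev.theta y - Chebyshev.theta a ≤ ∑ q ∈ S, Real.log q := by
  have h1 : Chebyshev.theta y ≤ Chebyshev.theta a + ∑ q ∈ S, Real.log q := by
    rw [Chebyshev.theta, Chebyshev.theta]
    have hsub : (Ioc 0 ⌊y⌋₊).filter Nat.Prime ⊆ ((Ioc 0 ⌊a⌋₊).filter Nat.Prime) ∪ S := by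
      intro q hq
      simp only [mem_filter, mem_Ioc, mem_union] at hq ⊢
      rcases lt_or_ge a q with h | h
      · right
        apply hS q hq.2 h
        rcases lt_or_ge y 0 with hy | hy
        · rw [Nat.floor_of_nonpos hy.le] at hq
          omega
        · exact (Nat.le_floor_iff hy).mp hq.1.2
      · left
        exact ⟨⟨hq.1.1, Nat.le_floor h⟩, hq.2⟩
    calc ∑ p ∈ Ioc 0 ⌊y⌋₊ with Nat.Prime p, Real.log p ≤
        ∑ q ∈ ((Ioc 0 ⌊a⌋₊).filter Nat.Prime) ∪ S, Real.log q := by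
          apply Finset.sum_le_sum_of_subset_of_nonneg hsub
          intro q hq _
          simp only [mem_union, mem_filter, mem_Ioc] at hq
          apply Real.log_nonneg
          rcases hq with hq | hq
          · exact_mod_cast hq.2.one_le
          · exact_mod_cast hS1 q hq
      _ ≤ _ := by
          rw [← Finset.sum_union_inter]
          have : 0 ≤ ∑ i ∈ ((Ioc 0 ⌊a⌋₊).filter Nat.Prime) ∩ S, Real.log i := by
            apply Finset.sum_nonneg
            intro q hq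
            simp only [mem_inter] at hq
            exact Real.log_nonneg (by exact_mod_cast hS1 q hq.2)
          linarith
  linarith

/-- Step 2 : `e` is at most a constant times the longest interval -/
theorem step2 {C : ℝ} (hC : 0 < C) (hBT : BT (1 / 100) C) :
    ∃ Ce : ℕ, 1 ≤ Ce ∧ ∀ᶠ x : ℕ in atTop, ∀ m b c d e J : ℕ, x < 2 * m → m ≤ x →
      Rep m b c d e → m ≤ 2 * b → m - b ≤ J → c - d ≤ J → (x : ℝ) ^ (0.97 : ℝ) ≤ J →
      e ≤ Ce * J := by
  obtain ⟨c₁, hc₁, Y, hY⟩ := pnt_lite (1 / 2) (by norm_num) (by norm_num)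
  refine ⟨⌈16 * C / c₁⌉₊ + 1, by omega, ?_⟩
  filter_upwards [eventually_ge_atTop 2, ev_const_le Y 0.97 (by norm_num),
    ev_le0 1 (0.04) (0.97) (by norm_num)] with x hx2 hxY hx3 m b c d e J hxm hmx hrep hmb hJ1 hJ2 hJ
  have hx2' : (2 : ℝ) ≤ x := by exact_mod_cast hx2
  have hx0 : (0 : ℝ) < x := by linarith
  have hJpos : (0 : ℝ) < J := lt_of_lt_of_le (by positivity) hJ
  have hJ1' : 1 ≤ J := by
    have : 0 < J := by exact_mod_cast hJpos
    exact this
  by_contra hcon
  push Not at hcon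
  have heJ : J < e := by
    have : 1 * J ≤ (⌈16 * C / c₁⌉₊ + 1) * J := Nat.mul_le_mul_right _ (by omega)
    omega
  have hrep' := hrep
  obtain ⟨r1, r2, r3, r4, -⟩ := hrep'
  have hc2 : c ≤ 2 * d := by omega
  have heY : Y ≤ (e : ℝ) := by
    have : (J : ℝ) ≤ e := by exact_mod_cast heJ.le
    linarith
  have hePos : (0 : ℝ) < e := by
    have : (J : ℝ) ≤ e := by exact_mod_cast heJ.le
    linarith
  have h1 := hY e heY
  set S₁ : Finset ℕ := (Icc 1 e).filter (fun q => q.Prime ∧ e < 2 * q ∧ ∃ n ∈ Ioc b m, q ∣ n)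
    with hS₁
  set S₂ : Finset ℕ := (Icc 1 e).filter (fun q => q.Prime ∧ e < 2 * q ∧ ∃ n ∈ Ioc d c, q ∣ n)
    with hS₂
  have h2 := theta_sub_le (a := 1 / 2 * e) (y := e) (by positivity) (S₁ ∪ S₂) (by
      intro q hq
      simp only [hS₁, hS₂, mem_union, mem_filter, mem_Icc] at hq
      rcases hq with hq | hq
      · exact hq.1.1
      · exact hq.1.1) (by
      intro q hq hq1 hq2
      have hq1' : e < 2 * q := by
        have : (e : ℝ) < 2 * q := by linarith
        exact_mod_cast this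
      have hq2' : q ≤ e := by exact_mod_cast hq2
      have h3 := hrep.match3 (q := q) (by
        rw [factorization_factorial_eq_one hq hq2' hq1']
        decide)
      simp only [hS₁, hS₂, mem_union, mem_filter, mem_Icc]
      rcases h3 with h3 | h3
      · exact Or.inl ⟨⟨hq.one_le, hq2'⟩, hq, hq1', h3⟩
      · exact Or.inr ⟨⟨hq.one_le, hq2'⟩, hq, hq1', h3⟩)
  have h3 : ∑ q ∈ S₁ ∪ S₂, Real.log q ≤ ∑ q ∈ S₁, Real.log q + ∑ q ∈ S₂, Real.log q := by
    rw [← Finset.sum_union_inter]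
    have : 0 ≤ ∑ i ∈ S₁ ∩ S₂, Real.log i := by
      apply Finset.sum_nonneg
      intro q hq
      simp only [mem_inter, hS₁, mem_filter, mem_Icc] at hq
      exact Real.log_nonneg (by exact_mod_cast hq.1.1.1)
    linarith
  have h4 := bt_dyadic (by norm_num) hC hBT hx2' (u := b) (v := m) (y := e) (by omega) hmb
    (by omega) (by exact_mod_cast hmx) S₁ (by
      intro q hq
      simp only [hS₁, mem_filter, mem_Icc] at hq
      exact ⟨hq.2.1, hq.2.2.1, hq.1.2, hq.2.2.2⟩)
  have h5 := bt_dyadic (by norm_num) hC hBT hx2' (u := d) (v := c) (y := e) (by omega) hc2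
    (by omega) (by
      have : c ≤ x := by omega
      exact_mod_cast this) S₂ (by
      intro q hq
      simp only [hS₂, mem_filter, mem_Icc] at hq
      exact ⟨hq.2.1, hq.2.2.1, hq.1.2, hq.2.2.2⟩)
  have hxe : (x : ℝ) ^ (1 / 100 : ℝ) * ((x : ℝ) / e) ≤ J := by
    have e1 : (x : ℝ) / e ≤ (x : ℝ) ^ (0.03 : ℝ) := by
      rw [div_le_iff₀ hePos]
      calc (x : ℝ) = (x : ℝ) ^ (0.03 : ℝ) * (x : ℝ) ^ (0.97 : ℝ) := by
            rw [← Real.rpow_add hx0]; norm_num
        _ ≤ (x : ℝ) ^ (0.03 : ℝ) * e := by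
            apply mul_le_mul_of_nonneg_left _ (by positivity)
            have : (J : ℝ) ≤ e := by exact_mod_cast heJ.le
            linarith
    calc (x : ℝ) ^ (1 / 100 : ℝ) * ((x : ℝ) / e) ≤
        (x : ℝ) ^ (1 / 100 : ℝ) * (x : ℝ) ^ (0.03 : ℝ) :=
          mul_le_mul_of_nonneg_left e1 (by positivity)
      _ = (x : ℝ) ^ (0.04 : ℝ) := by rw [← Real.rpow_add hx0]; norm_num
      _ ≤ J := by linarith
  have hme : (x : ℝ) ^ (1 / 100 : ℝ) * ((m : ℝ) / e) ≤ J := by
    refine le_trans ?_ hxe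
    apply mul_le_mul_of_nonneg_left _ (by positivity)
    apply div_le_div_of_nonneg_right _ hePos.le
    exact_mod_cast hmx
  have hce : (x : ℝ) ^ (1 / 100 : ℝ) * ((c : ℝ) / e) ≤ J := by
    refine le_trans ?_ hxe
    apply mul_le_mul_of_nonneg_left _ (by positivity)
    apply div_le_div_of_nonneg_right _ hePos.le
    have : c ≤ x := by omega
    exact_mod_cast this
  have hK : (m : ℝ) - b ≤ J := by
    have : m ≤ b + J := by omega
    have : (m : ℝ) ≤ b + J := by exact_mod_cast this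
    linarith
  have hL : (c : ℝ) - d ≤ J := by
    have : c ≤ d + J := by omega
    have : (c : ℝ) ≤ d + J := by exact_mod_cast this
    linarith
  have h6 : c₁ * e ≤ 16 * C * J := by
    have e4 : C * (4 * ((m : ℝ) - b) + 4 * (x : ℝ) ^ (1 / 100 : ℝ) * (m / e)) ≤ C * (8 * J) := by
      apply mul_le_mul_of_nonneg_left _ hC.le
      nlinarith
    have e5 : C * (4 * ((c : ℝ) - d) + 4 * (x : ℝ) ^ (1 / 100 : ℝ) * (c / e)) ≤ C * (8 * J) := by
      apply mul_le_mul_of_nonneg_left _ hC.le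
      nlinarith
    linarith
  have h7 : (e : ℝ) ≤ (16 * C / c₁) * J := by
    rw [div_mul_eq_mul_div, le_div_iff₀ hc₁]
    linarith
  have h8 : (e : ℝ) ≤ ((⌈16 * C / c₁⌉₊ + 1 : ℕ) : ℝ) * J := by
    refine h7.trans ?_
    apply mul_le_mul_of_nonneg_right _ hJpos.le
    have := Nat.le_ceil (16 * C / c₁)
    push_cast
    linarith
  have h9 : e ≤ (⌈16 * C / c₁⌉₊ + 1) * J := by exact_mod_cast h8
  omega

end D6
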