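import Mathlib
import Pool.Agent.H90.D6.PropA2

open Finset Filter

namespace D6

theorem two_le_den {n₁ n₂ : ℕ} (h0 : 0 < n₂) (h : n₂ < n₁) :
    (2 : ℝ) ≤ (((n₂ : ℚ) / n₁).den : ℝ) := by
  have h1 : ((n₂ : ℚ) / n₁).den ≠ 1 := by
    intro h2
    have h3 := (Rat.den_eq_one_iff _).mp h2
    set k := ((n₂ : ℚ) / n₁).num
    have hn1 : (0 : ℚ) < n₁ := by exact_mod_cast (by omega : 0 < n₁)
    have h4 : (0 : ℚ) < (n₂ : ℚ) / n₁ := by
      have : (0 : ℚ) < n₂ := by exact_mod_cast h0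
      positivity
    have h5 : (n₂ : ℚ) / n₁ < 1 := by
      rw [div_lt_one hn1]; exact_mod_cast h
    rw [← h3] at h4 h5
    have h6 : 0 < k := by exact_mod_cast h4
    have h7 : k < 1 := by exact_mod_cast h5
    omega
  have h2 := ((n₂ : ℚ) / n₁).den_pos
  have h3 : 2 ≤ ((n₂ : ℚ) / n₁).den := by omega
  exact_mod_cast h3

theorem log_four_le : Real.log 4 ≤ 1.4 := by
  have h1 : Real.log 4 = 2 * Real.log 2 := by
    rw [show (4 : ℝ) = 2 ^ 2 by norm_num, Real.log_pow]; norm_num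
  have := Real.log_two_lt_d9
  rw [h1]; linarith

/-- asymptotic facts used in steps 3 and 4 -/
theorem ev_small : ∀ᶠ x : ℕ in atTop, 2 ≤ x ∧ (x : ℝ) < (x : ℝ) ^ (1.94 : ℝ) ∧
    Real.sqrt x * Real.log x + Real.log x * ((x : ℝ) ^ (0.03 : ℝ) + 1) ^ 2 ≤
      (x : ℝ) ^ (0.97 : ℝ) := by
  filter_upwards [eventually_ge_atTop 2, ev_le0 2 1 (1.94) (by norm_num),
    ev_le 2 (0.5) (0.97) 1 (by norm_num), ev_le 8 (0.06) (0.97) 1 (by norm_num)]
    with x hx h1 h2 h3
  have hx2' : (2 : ℝ) ≤ x := by exact_mod_cast hx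
  have hx0 : (0 : ℝ) < x := by linarith
  refine ⟨hx, ?_, ?_⟩
  · rw [Real.rpow_one] at h1; linarith
  · have hlog : 0 ≤ Real.log x := Real.log_nonneg (by linarith)
    have h4 : (1 : ℝ) ≤ (x : ℝ) ^ (0.03 : ℝ) := Real.one_le_rpow (by linarith) (by norm_num)
    have h5 : ((x : ℝ) ^ (0.03 : ℝ)) ^ 2 = (x : ℝ) ^ (0.06 : ℝ) := by
      rw [← Real.rpow_natCast, ← Real.rpow_mul hx0.le]; norm_num
    have h6 : ((x : ℝ) ^ (0.03 : ℝ) + 1) ^ 2 ≤ 4 * (x : ℝ) ^ (0.06 : ℝ) := by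
      rw [← h5]; nlinarith
    have h7 : Real.log x * ((x : ℝ) ^ (0.03 : ℝ) + 1) ^ 2 ≤
        Real.log x * (4 * (x : ℝ) ^ (0.06 : ℝ)) := mul_le_mul_of_nonneg_left h6 hlog
    rw [Real.sqrt_eq_rpow, show (1 / 2 : ℝ) = 0.5 by norm_num]
    rw [pow_one] at h2 h3
    linarith

/-- Step 3 -/
theorem step3 (Ce : ℕ) : ∃ ε₀ : ℝ, 0 < ε₀ ∧
    ∀ᶠ x : ℕ in atTop, ∀ m b c d e : ℕ, x < 2 * m → m ≤ x → Rep m b c d e →
      c - d ≤ m - b → (x : ℝ) ^ (0.97 : ℝ) ≤ ((m - b : ℕ) : ℝ) → e ≤ Ce * (m - b) →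
      (m : ℝ) - b ≤ ε₀ * m → False := by
  set t : ℕ := max Ce 8 with ht
  have ht8 : 8 ≤ t := le_max_right _ _
  have htC : Ce ≤ t := le_max_left _ _
  refine ⟨Real.exp (-(8 + 6 * t)), Real.exp_pos _, ?_⟩
  filter_upwards [ev_small] with x hxs m b c d e hxm hmx hrep hLK hK he hε
  obtain ⟨hx2, hx194, hsmall⟩ := hxs
  have hx2' : (2 : ℝ) ≤ x := by exact_mod_cast hx2
  have hx0 : (0 : ℝ) < x := by linarith
  have hlogx : 0 ≤ Real.log x := Real.log_nonneg (by linarith)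
  obtain ⟨r1, r2, r3, r4, -⟩ := id hrep
  set K := m - b with hKdef
  have hbK : b + K = m := by omega
  have hK1 : 1 ≤ K := by omega
  have hKpos : (0 : ℝ) < K := by exact_mod_cast hK1
  have hKreal : (m : ℝ) - b = K := by
    rw [← hbK]; push_cast; ring
  have hm' : (0 : ℝ) < m := by exact_mod_cast (by omega : 0 < m)
  have hmx' : (m : ℝ) ≤ x := by exact_mod_cast hmx
  have ht' : (8 : ℝ) ≤ t := by exact_mod_cast ht8
  set z := t * K with hz
  have hzK : K ≤ z := Nat.le_mul_of_pos_left _ (by omega)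
  have hz1 : 1 ≤ z := by omega
  have hzreal : (z : ℝ) = t * K := by rw [hz]; push_cast; ring
  have hzpos : (0 : ℝ) < z := by exact_mod_cast hz1
  have hez : e ≤ z := he.trans (Nat.mul_le_mul_right _ htC)
  have hKx : (x : ℝ) < (K : ℝ) ^ 2 := by
    calc (x : ℝ) < (x : ℝ) ^ (1.94 : ℝ) := hx194
      _ = ((x : ℝ) ^ (0.97 : ℝ)) ^ 2 := by
          rw [← Real.rpow_natCast, ← Real.rpow_mul hx0.le]; norm_num
      _ ≤ (K : ℝ) ^ 2 := pow_le_pow_left₀ (by positivity) hK 2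
  have hxK : x < K ^ 2 := by exact_mod_cast hKx
  have hmz : m < (z + 1) ^ 2 := by
    calc m ≤ x := hmx
      _ < K ^ 2 := hxK
      _ ≤ (z + 1) ^ 2 := Nat.pow_le_pow_left (by omega) 2
  -- lower bound
  have lo := mass_lower (u := b) (H := K) (z := z) hK1 (by rw [hbK]; exact hmz)
  rw [hbK] at lo
  -- upper bound
  have hT1 : (1 : ℝ) ≤ m / K := by
    rw [le_div_iff₀ hKpos, one_mul]
    have : K ≤ m := by omega
    exact_mod_cast this
  have hlogT : 0 ≤ Real.log (m / K) := Real.log_nonneg hT1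
  have hlogm : 0 ≤ Real.log m := Real.log_nonneg (by exact_mod_cast (by omega : 1 ≤ m))
  have up := frac_mass (m := m) (b := b) (c := c) (d := d) (z := z) (PS b m z) r1 r2 r3 hz1 (by
      intro q hq
      rw [mem_PS] at hq
      obtain ⟨q1, q2, n, hn, hqn⟩ := hq
      refine ⟨q1, q2, ⟨n, hn, hqn⟩, ?_⟩
      have hn' := hn
      simp only [mem_Ioc] at hn'
      have h1 : n.factorization q = 1 := factorization_eq_one_of_sq q1 (by omega) hqn (by
        calc n ≤ x := by omega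
          _ < K ^ 2 := hxK
          _ ≤ q ^ 2 := Nat.pow_le_pow_left (by omega) 2)
      exact hrep.match1 (q := q) (n := n) (by omega) hn (by rw [h1]; decide) (by omega)) 2
      (by norm_num) (by
        intro n₁ hn₁ n₂ hn₂
        simp only [mem_Ioc] at hn₁ hn₂
        exact two_le_den (by omega) (by omega))
      (((m : ℝ) - b) * (1 + Real.log (m / ((m : ℝ) - b)))) (Real.log m)
      (by rw [hKreal]; positivity) hlogm (by
        intro w hw1 hw2 hw3 S hS
        exact mass_upper_w r1 (by omega) hw1 S hS)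
  rw [hKreal] at up
  have hth := Chebyshev.theta_le_log4_mul_x (x := (z : ℝ)) hzpos.le
  have h4 := log_four_le
  -- the window factor
  have hLreal : (c : ℝ) - d ≤ K := by
    have : c ≤ d + K := by omega
    have : (c : ℝ) ≤ d + K := by exact_mod_cast this
    linarith
  have hfac : (m / z : ℝ) * (((K : ℝ) + ((c : ℝ) - d)) / m) ≤ 1 / 4 := by
    have e1 : (m / z : ℝ) * (((K : ℝ) + ((c : ℝ) - d)) / m) = ((K : ℝ) + ((c : ℝ) - d)) / z := by
      field_simp
    rw [e1, div_le_iff₀ hzpos, hzreal]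
    nlinarith
  have hup2 : (K : ℝ) * (1 + Real.log (m / K)) *
      ((m / z : ℝ) * (((K : ℝ) + ((c : ℝ) - d)) / m) + 1 / 2) ≤
      (K : ℝ) * (1 + Real.log (m / K)) * (3 / 4) := by
    apply mul_le_mul_of_nonneg_left (by linarith) (by positivity)
  have hmz2 : (m / z : ℝ) ≤ (x : ℝ) ^ (0.03 : ℝ) := by
    rw [div_le_iff₀ hzpos]
    calc (m : ℝ) ≤ x := hmx'
      _ = (x : ℝ) ^ (0.03 : ℝ) * (x : ℝ) ^ (0.97 : ℝ) := by
            rw [← Real.rpow_add hx0]; norm_num
      _ ≤ (x : ℝ) ^ (0.03 : ℝ) * z := by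
            apply mul_le_mul_of_nonneg_left _ (by positivity)
            have : (K : ℝ) ≤ z := by exact_mod_cast hzK
            linarith
  have hlmx : Real.log m ≤ Real.log x := Real.log_le_log hm' hmx'
  have hsm : Real.sqrt m * Real.log m + Real.log m * ((m / z : ℝ) + 1) ^ 2 ≤ K := by
    have a1 : Real.sqrt m * Real.log m ≤ Real.sqrt x * Real.log x :=
      mul_le_mul (Real.sqrt_le_sqrt hmx') hlmx hlogm (by positivity)
    have a2 : Real.log m * ((m / z : ℝ) + 1) ^ 2 ≤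
        Real.log x * ((x : ℝ) ^ (0.03 : ℝ) + 1) ^ 2 := by
      apply mul_le_mul hlmx _ (by positivity) hlogx
      apply pow_le_pow_left₀ (by positivity) (by linarith)
    linarith
  have hzt : Chebyshev.theta z ≤ 1.4 * t * K := by
    refine hth.trans ?_
    rw [hzreal]
    have : (0 : ℝ) ≤ t * K := by positivity
    have := mul_le_mul_of_nonneg_right h4 this
    linarith
  have htK : (0 : ℝ) ≤ t * K := by positivity
  have hfin : (K : ℝ) * Real.log (m / K) ≤ K * (7 + 6 * t) := by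
    have b1 : (K : ℝ) * (1 + Real.log (m / K)) * (3 / 4) =
      3 / 4 * K + 3 / 4 * (K * Real.log (m / K)) := by ring
    have b2 : (K : ℝ) * (7 + 6 * t) = 7 * K + 6 * (t * K) := by ring
    have b3 : 1.4 * (t : ℝ) * K = 1.4 * (t * K) := by ring
    rw [b2]
    rw [b3] at hzt
    linarith
  have hfin2 : Real.log (m / K) ≤ 7 + 6 * t := le_of_mul_le_mul_left hfin hKpos
  -- contradiction with K ≤ ε₀ m
  have hexp : Real.exp (8 + 6 * t) ≤ m / K := by
    rw [le_div_iff₀ hKpos]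
    rw [hKreal] at hε
    calc Real.exp (8 + 6 * t) * K ≤ Real.exp (8 + 6 * t) * (Real.exp (-(8 + 6 * t)) * m) :=
          mul_le_mul_of_nonneg_left hε (Real.exp_pos _).le
      _ = m := by
          rw [← mul_assoc, ← Real.exp_add]; simp
  have := Real.log_le_log (Real.exp_pos _) hexp
  rw [Real.log_exp] at this
  linarith

end D6
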