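import Mathlib
import Pool.Agent.H90.D6.PropA3

open Finset Filter

namespace D6

theorem sq_add_one_le {y : ℝ} (h : 1 ≤ y) : (y + 1) ^ 2 ≤ 4 * y ^ 2 := by nlinarith

theorem den_ge {n₁ n₂ : ℕ} (h0 : 0 < n₂) (h : 0 < n₁) :
    (n₁ : ℝ) / n₂ ≤ (((n₂ : ℚ) / n₁).den : ℝ) := by
  set f : ℚ := (n₂ : ℚ) / n₁ with hf
  have hn1 : (0 : ℚ) < n₁ := by exact_mod_cast h
  have hn2 : (0 : ℚ) < n₂ := by exact_mod_cast h0
  have hfpos : 0 < f := by positivity
  have hnum : 1 ≤ f.num := by
    have := Rat.num_pos.mpr hfpos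
    omega
  have hden : (0 : ℝ) < f.den := by exact_mod_cast f.den_pos
  have e1 : (f : ℝ) = f.num / f.den := by exact_mod_cast (Rat.num_div_den f).symm
  have e2 : (f : ℝ) = (n₂ : ℝ) / n₁ := by rw [hf]; push_cast; ring
  have hn1' : (0 : ℝ) < n₁ := by exact_mod_cast h
  have hn2' : (0 : ℝ) < n₂ := by exact_mod_cast h0
  have h1 : (1 : ℝ) / f.den ≤ (n₂ : ℝ) / n₁ := by
    rw [← e2, e1]
    apply div_le_div_of_nonneg_right _ hden.le
    exact_mod_cast hnum
  rw [div_le_div_iff₀ hden hn1'] at h1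
  rw [div_le_iff₀ hn2']
  linarith

theorem bt_mass_w {C : ℝ} (hC : 0 < C) (hBT : BT (1 / 100) C) {x : ℝ} (hx : 2 ≤ x)
    {b m z w : ℕ} (hbm : b < m) (hmx : (m : ℝ) ≤ x) (hz : 1 ≤ z) (hw : 1 ≤ w) (hwz : w * z ≤ m)
    (S : Finset ℕ) (hS : ∀ q ∈ S, q.Prime ∧ z < q ∧ ∃ n ∈ Ioc b m, w * q ∣ n) :
    ∑ q ∈ S, Real.log q ≤
      C * ((((m : ℝ) - b) * (1 + Real.log (m / (w * z)))) * (1 / w) +
        2 * x ^ (1 / 100 : ℝ) * (m / z)) := by
  have hw' : (0 : ℝ) < w := by exact_mod_cast hw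
  have hz' : (0 : ℝ) < z := by exact_mod_cast hz
  have hm' : (0 : ℝ) < m := by exact_mod_cast (by omega : 0 < m)
  have hK : (0 : ℝ) < (m : ℝ) - b := by
    have : (b : ℝ) < m := by exact_mod_cast hbm
    linarith
  set M := m / (w * z) with hM
  have hwz0 : 0 < w * z := Nat.mul_pos (by omega) (by omega)
  have hM1 : 1 ≤ M := by
    rw [hM, Nat.le_div_iff_mul_le hwz0]; omega
  have hinj : Set.InjOn (fun a => w * a) (Icc 1 M : Finset ℕ) := by
    intro a _ a' _ h
    exact Nat.eq_of_mul_eq_mul_left (by omega) h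
  set A : Finset ℕ := (Icc 1 M).image (fun a => w * a) with hA
  have h1 := bt_cover (by norm_num) hC hBT hx hbm.le A S (by
    intro a ha
    simp only [hA, mem_image, mem_Icc] at ha
    obtain ⟨a', ⟨h1, h2⟩, rfl⟩ := ha
    exact Nat.mul_pos (by omega) (by omega)) (by
    intro q hq
    obtain ⟨h1, h2, n, hn, a, rfl⟩ := hS q hq
    simp only [mem_Ioc] at hn
    have ha : 0 < a := by
      rcases Nat.eq_zero_or_pos a with rfl | ha
      · simp at hn
      · exact ha
    have hwqa : 0 < w * q * a := by omega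
    refine ⟨h1, ?_, w * a, ?_, ?_⟩
    · have : q ≤ w * q * a := Nat.le_of_dvd hwqa ⟨w * a, by ring⟩
      have h3 : q ≤ m := this.trans hn.2
      exact le_trans (by exact_mod_cast h3) hmx
    · simp only [hA, mem_image, mem_Icc]
      refine ⟨a, ⟨ha, ?_⟩, rfl⟩
      rw [hM, Nat.le_div_iff_mul_le hwz0]
      calc a * (w * z) ≤ a * (w * q) := Nat.mul_le_mul_left _ (Nat.mul_le_mul_left _ h2.le)
        _ = w * q * a := by ring
        _ ≤ m := hn.2
    · simp only [mem_Ioc]
      have : w * a * q = w * q * a := by ring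
      rw [this]; exact hn)
  refine h1.trans ?_
  apply mul_le_mul_of_nonneg_left _ hC.le
  have hcard : (A.card : ℝ) ≤ m / z := by
    have h2 : A.card ≤ M := by
      calc A.card ≤ (Icc 1 M).card := Finset.card_image_le
        _ = M := by simp
    have h3 : M ≤ m / z := Nat.div_le_div_left (Nat.le_mul_of_pos_left _ (by omega)) (by omega)
    calc (A.card : ℝ) ≤ ((m / z : ℕ) : ℝ) := by exact_mod_cast h2.trans h3
      _ ≤ m / z := Nat.cast_div_le
  have hsum : ∑ a ∈ A, (1 / (a : ℝ)) ≤ (1 + Real.log (m / (w * z))) * (1 / w) := by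
    rw [hA, Finset.sum_image hinj]
    have h2 : ∑ a ∈ Icc 1 M, (1 / ((w * a : ℕ) : ℝ)) = (∑ a ∈ Icc 1 M, (1 / (a : ℝ))) * (1 / w) := by
      rw [Finset.sum_mul]
      apply Finset.sum_congr rfl
      intro a _
      push_cast
      rw [one_div_mul_one_div, mul_comm]
    rw [h2]
    apply mul_le_mul_of_nonneg_right _ (by positivity)
    have h3 := harmonic_le_one_add_log M
    have h4 : ∑ a ∈ Icc 1 M, (1 / (a : ℝ)) = ((harmonic M : ℚ) : ℝ) := by
      rw [harmonic_eq_sum_Icc]
      push_cast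
      apply Finset.sum_congr rfl
      intro a _
      rw [one_div]
    rw [h4]
    refine h3.trans ?_
    have h5 : Real.log M ≤ Real.log (m / (w * z)) := by
      apply Real.log_le_log (by exact_mod_cast hM1)
      have := Nat.cast_div_le (α := ℝ) (m := m) (n := w * z)
      push_cast at this
      exact this
    linarith
  have e1 : ((m : ℝ) - b) * ∑ a ∈ A, (1 / (a : ℝ)) ≤
      ((m : ℝ) - b) * ((1 + Real.log (m / (w * z))) * (1 / w)) :=
    mul_le_mul_of_nonneg_left hsum hK.le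
  have e2 : 2 * x ^ (1 / 100 : ℝ) * (A.card : ℝ) ≤ 2 * x ^ (1 / 100 : ℝ) * (m / z) :=
    mul_le_mul_of_nonneg_left hcard (by positivity)
  have e3 : ((m : ℝ) - b) * ((1 + Real.log (m / (w * z))) * (1 / w)) =
    ((m : ℝ) - b) * (1 + Real.log (m / (w * z))) * (1 / w) := by ring
  linarith

set_option maxHeartbeats 1000000 in
/-- Step 4b -/
theorem step4b {C : ℝ} (hC : 0 < C) (hBT : BT (1 / 100) C) (Ce : ℕ) : ∃ T₂ : ℝ, 0 < T₂ ∧
    ∀ᶠ x : ℕ in atTop, ∀ m b c d e : ℕ, x < 2 * m → m ≤ x → Rep m b c d e → m ≤ 2 * b →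
      m - b ≤ c - d → (x : ℝ) ^ (0.97 : ℝ) ≤ ((c - d : ℕ) : ℝ) → e ≤ Ce * (c - d) →
      (c : ℝ) ≤ T₂ * ((c : ℝ) - d) := by
  set t : ℕ := max (max Ce 8) ⌈8 * C⌉₊ with ht
  have ht8 : 8 ≤ t := (le_max_right _ _).trans (le_max_left _ _)
  have htC : Ce ≤ t := (le_max_left _ _).trans (le_max_left _ _)
  have htC2 : 8 * C ≤ t := by
    have h1 : ⌈8 * C⌉₊ ≤ t := le_max_right _ _
    exact (Nat.le_ceil _).trans (by exact_mod_cast h1)
  set ρ₀ : ℝ := max 1 (8 * C) with hρ₀
  have hρ1 : 1 ≤ ρ₀ := le_max_left _ _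
  have hρC : 8 * C ≤ ρ₀ := le_max_right _ _
  have hlogρ : 0 ≤ Real.log ρ₀ := Real.log_nonneg hρ1
  set T₂ : ℝ := Real.exp (7 + 3 * Real.log ρ₀ + 6 * t) with hT₂
  have ht' : (8 : ℝ) ≤ t := by exact_mod_cast ht8
  have hT2t : (t : ℝ) ≤ T₂ := by
    have := Real.add_one_le_exp (7 + 3 * Real.log ρ₀ + 6 * t)
    linarith
  refine ⟨T₂, Real.exp_pos _, ?_⟩
  filter_upwards [ev_small, ev_le0 (8 * C) (0.1) (0.97) (by norm_num)]
    with x hxs hx8 m b c d e hxm hmx hrep hmb hKL hL he
  obtain ⟨hx2, hx194, hsmall⟩ := hxs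
  have hx2' : (2 : ℝ) ≤ x := by exact_mod_cast hx2
  have hx0 : (0 : ℝ) < x := by linarith
  have hlogx : 0 ≤ Real.log x := Real.log_nonneg (by linarith)
  obtain ⟨r1, r2, r3, r4, -⟩ := id hrep
  set K := m - b with hKdef
  set L := c - d with hLdef
  have hbK : b + K = m := by omega
  have hdL : d + L = c := by omega
  have hK1 : 1 ≤ K := by omega
  have hL1 : 1 ≤ L := by omega
  have hKpos : (0 : ℝ) < K := by exact_mod_cast hK1
  have hLpos : (0 : ℝ) < L := by exact_mod_cast hL1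
  have hKreal : (m : ℝ) - b = K := by
    rw [← hbK]; push_cast; ring
  have hLreal : (c : ℝ) - d = L := by
    rw [← hdL]; push_cast; ring
  have hKL' : (K : ℝ) ≤ L := by exact_mod_cast hKL
  have hm' : (0 : ℝ) < m := by exact_mod_cast (by omega : 0 < m)
  have hc1 : 1 ≤ c := by omega
  have hc' : (0 : ℝ) < c := by exact_mod_cast hc1
  have hcm' : (c : ℝ) ≤ m := by exact_mod_cast (by omega : c ≤ m)
  have hmx' : (m : ℝ) ≤ x := by exact_mod_cast hmx
  rw [hLreal]
  set z := t * L with hz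
  have hzL : L ≤ z := Nat.le_mul_of_pos_left _ (by omega)
  have hz1 : 1 ≤ z := by omega
  have hzreal : (z : ℝ) = t * L := by rw [hz]; push_cast; ring
  have hzpos : (0 : ℝ) < z := by exact_mod_cast hz1
  have hez : e ≤ z := he.trans (Nat.mul_le_mul_right _ htC)
  by_contra hcon
  push Not at hcon
  have hcL : T₂ < c / L := by rwa [lt_div_iff₀ hLpos]
  have hxL : (x : ℝ) < (L : ℝ) ^ 2 := by
    calc (x : ℝ) < (x : ℝ) ^ (1.94 : ℝ) := hx194
      _ = ((x : ℝ) ^ (0.97 : ℝ)) ^ 2 := by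
          rw [← Real.rpow_natCast, ← Real.rpow_mul hx0.le]; norm_num
      _ ≤ (L : ℝ) ^ 2 := pow_le_pow_left₀ (by positivity) hL 2
  have hxL' : x < L ^ 2 := by exact_mod_cast hxL
  have hcz : c < (z + 1) ^ 2 := by
    calc c ≤ x := by omega
      _ < L ^ 2 := hxL'
      _ ≤ (z + 1) ^ 2 := Nat.pow_le_pow_left (by omega) 2
  -- lower bound
  have lo := mass_lower (u := d) (H := L) (z := z) hL1 (by rw [hdL]; exact hcz)
  rw [hdL] at lo
  have hlogm : 0 ≤ Real.log m := Real.log_nonneg (by exact_mod_cast (by omega : 1 ≤ m))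
  have hlogc : 0 ≤ Real.log c := Real.log_nonneg (by exact_mod_cast hc1)
  have hmatch : ∀ q ∈ PS d c z, q.Prime ∧ z < q ∧ (∃ n ∈ Ioc b m, q ∣ n) ∧
      (∃ n ∈ Ioc d c, q ∣ n) := by
    intro q hq
    rw [mem_PS] at hq
    obtain ⟨q1, q2, n, hn, hqn⟩ := hq
    refine ⟨q1, q2, ?_, ⟨n, hn, hqn⟩⟩
    have hn' := hn
    simp only [mem_Ioc] at hn'
    have h1 : n.factorization q = 1 := factorization_eq_one_of_sq q1 (by omega) hqn (by
      calc n ≤ x := by omega
        _ < L ^ 2 := hxL'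
        _ ≤ q ^ 2 := Nat.pow_le_pow_left (by omega) 2)
    rcases hrep.match2 (q := q) (n := n) (by omega) hn (by rw [h1]; decide) with h2 | h2
    · exact h2
    · exfalso
      apply h2
      rw [factorization_factorial_eq_zero (by omega)]
      exact Even.zero
  have hth := Chebyshev.theta_le_log4_mul_x (x := (z : ℝ)) hzpos.le
  have h4 := log_four_le
  have htL : (0 : ℝ) ≤ t * L := by positivity
  have hzt : Chebyshev.theta z ≤ 1.4 * (t * L) := by
    refine hth.trans ?_
    rw [hzreal]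
    exact mul_le_mul_of_nonneg_right h4 htL
  have hmz2 : (m / z : ℝ) ≤ (x : ℝ) ^ (0.03 : ℝ) := by
    rw [div_le_iff₀ hzpos]
    calc (m : ℝ) ≤ x := hmx'
      _ = (x : ℝ) ^ (0.03 : ℝ) * (x : ℝ) ^ (0.97 : ℝ) := by
            rw [← Real.rpow_add hx0]; norm_num
      _ ≤ (x : ℝ) ^ (0.03 : ℝ) * z := by
            apply mul_le_mul_of_nonneg_left _ (by positivity)
            have : (L : ℝ) ≤ z := by exact_mod_cast hzL
            linarith
  have hlmx : Real.log m ≤ Real.log x := Real.log_le_log hm' hmx'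
  have hlcx : Real.log c ≤ Real.log x := Real.log_le_log hc' (by linarith)
  have hsm1 : Real.sqrt c * Real.log c ≤ Real.sqrt x * Real.log x :=
    mul_le_mul (Real.sqrt_le_sqrt (by linarith)) hlcx hlogc (by positivity)
  have hsm2 : Real.log m * ((m / z : ℝ) + 1) ^ 2 ≤
        Real.log x * ((x : ℝ) ^ (0.03 : ℝ) + 1) ^ 2 := by
    apply mul_le_mul hlmx _ (by positivity) hlogx
    apply pow_le_pow_left₀ (by positivity) (by linarith)
  have hsq0 : 0 ≤ Real.log x * ((x : ℝ) ^ (0.03 : ℝ) + 1) ^ 2 := by positivity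
  have hsq1 : 0 ≤ Real.sqrt x * Real.log x := by positivity
  have e1 : (m / z : ℝ) * (((m : ℝ) - b + ((c : ℝ) - d)) / m) = ((K : ℝ) + L) / z := by
    rw [hKreal, hLreal]
    field_simp
  have hfac : ((K : ℝ) + L) / z ≤ 2 / t := by
    rw [div_le_div_iff₀ hzpos (by linarith), hzreal]
    nlinarith
  have hcLpos : 0 < (c : ℝ) / L := by positivity
  have hlogT2 : Real.log T₂ < Real.log (c / L) := Real.log_lt_log (Real.exp_pos _) hcL
  rw [hT₂, Real.log_exp] at hlogT2
  rcases le_or_gt (m : ℝ) (ρ₀ * c) with hcase | hcase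
  · -- case m ≤ ρ₀ c
    have up := frac_mass (m := m) (b := b) (c := c) (d := d) (z := z) (PS d c z) r1 r2 r3 hz1
      hmatch 2 (by norm_num) (by
        intro n₁ hn₁ n₂ hn₂
        simp only [mem_Ioc] at hn₁ hn₂
        exact two_le_den (by omega) (by omega))
      (((m : ℝ) - b) * (1 + Real.log (m / ((m : ℝ) - b)))) (Real.log m)
      (by
        rw [hKreal]
        have : 0 ≤ Real.log (m / K) := by
          apply Real.log_nonneg
          rw [le_div_iff₀ hKpos, one_mul]
          exact_mod_cast (by omega : K ≤ m)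
        positivity) hlogm (by
        intro w hw1 hw2 hw3 S hS
        exact mass_upper_w r1 (by omega) hw1 S hS)
    rw [e1, hKreal] at up
    have hmono : (K : ℝ) * (1 + Real.log (m / K)) ≤ L * (1 + Real.log (m / L)) := by
      have h1 := mul_log_div_le hKpos hm' hLpos
      have h2 : 0 ≤ Real.log (m / L) := by
        apply Real.log_nonneg
        rw [le_div_iff₀ hLpos, one_mul]
        exact_mod_cast (by omega : L ≤ m)
      nlinarith
    have hlogmL : Real.log (m / L) ≤ Real.log ρ₀ + Real.log (c / L) := by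
      rw [← Real.log_mul (by linarith) hcLpos.ne']
      apply Real.log_le_log (by positivity)
      rw [← mul_div_assoc]
      exact div_le_div_of_nonneg_right hcase hLpos.le
    have hfac2 : ((K : ℝ) + L) / z + 1 / 2 ≤ 3 / 4 := by
      have : 2 / (t : ℝ) ≤ 1 / 4 := by
        rw [div_le_div_iff₀ (by linarith) (by norm_num)]; linarith
      linarith
    have hβ0 : 0 ≤ (K : ℝ) * (1 + Real.log (m / K)) := by
      have : 0 ≤ Real.log (m / K) := by
          apply Real.log_nonneg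
          rw [le_div_iff₀ hKpos, one_mul]
          exact_mod_cast (by omega : K ≤ m)
      positivity
    have h5 : (K : ℝ) * (1 + Real.log (m / K)) * (((K : ℝ) + L) / z + 1 / 2) ≤
        (L * (1 + (Real.log ρ₀ + Real.log (c / L)))) * (3 / 4) := by
      apply mul_le_mul _ hfac2 (by positivity)
      · apply mul_nonneg hLpos.le
        linarith
      · refine hmono.trans ?_
        apply mul_le_mul_of_nonneg_left _ hLpos.le
        linarith
    have h6 : (L : ℝ) * Real.log (c / L) ≤ L * (7 + 3 * Real.log ρ₀ + 6 * t) := by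
      have b1 : (L * (1 + (Real.log ρ₀ + Real.log (c / L)))) * (3 / 4) =
        3 / 4 * L + 3 / 4 * (L * Real.log ρ₀) + 3 / 4 * (L * Real.log (c / L)) := by ring
      have b2 : (L : ℝ) * (7 + 3 * Real.log ρ₀ + 6 * t) =
        7 * L + 3 * (L * Real.log ρ₀) + 6 * (t * L) := by ring
      rw [b2]
      rw [b1] at h5
      linarith
    have h7 := le_of_mul_le_mul_left h6 hLpos
    linarith
  · -- case m > ρ₀ c
    have hw0 : (0 : ℝ) < m / (2 * c) := by positivity
    have hb2 : (m : ℝ) / 2 ≤ b := by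
      have : (m : ℝ) ≤ 2 * b := by exact_mod_cast hmb
      linarith
    have hlog2c : 0 ≤ Real.log (2 * c / L) := by
      apply Real.log_nonneg
      rw [le_div_iff₀ hLpos, one_mul]
      have : (L : ℝ) ≤ c := by exact_mod_cast (by omega : L ≤ c)
      linarith
    have up := frac_mass (m := m) (b := b) (c := c) (d := d) (z := z) (PS d c z) r1 r2 r3 hz1
      hmatch (m / (2 * c)) hw0 (by
        intro n₁ hn₁ n₂ hn₂
        simp only [mem_Ioc] at hn₁ hn₂
        refine le_trans ?_ (den_ge (n₁ := n₁) (n₂ := n₂) (by omega) (by omega))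
        have h1 : (b : ℝ) ≤ n₁ := by exact_mod_cast hn₁.1.le
        have h2 : (n₂ : ℝ) ≤ c := by exact_mod_cast hn₂.2
        have h3 : (0 : ℝ) < n₂ := by exact_mod_cast (by omega : 0 < n₂)
        rw [div_le_div_iff₀ (by positivity) h3]
        nlinarith)
      (C * (K * (1 + Real.log (2 * c / L)))) (C * (2 * (x : ℝ) ^ (0.04 : ℝ)))
      (by positivity) (by positivity) (by
        intro w hw1 hw2 hw3 S hS
        refine (bt_mass_w hC hBT hx2' r1 hmx' hz1 hw1 hw3 S hS).trans ?_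
        rw [hKreal]
        have hw1' : (0 : ℝ) < w := by exact_mod_cast hw1
        have g1 : Real.log ((m : ℝ) / (w * z)) ≤ Real.log (2 * c / L) := by
          apply Real.log_le_log (by positivity)
          rw [div_le_div_iff₀ (by positivity) hLpos]
          rw [div_le_iff₀ (by positivity)] at hw2
          have hzL' : (L : ℝ) ≤ z := by exact_mod_cast hzL
          calc (m : ℝ) * L ≤ (w * (2 * c)) * z := mul_le_mul hw2 hzL' hLpos.le (by positivity)
            _ = 2 * c * (w * z) := by ring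
        have g2 : (x : ℝ) ^ (1 / 100 : ℝ) * (m / z) ≤ (x : ℝ) ^ (0.04 : ℝ) := by
          calc (x : ℝ) ^ (1 / 100 : ℝ) * (m / z) ≤
              (x : ℝ) ^ (1 / 100 : ℝ) * (x : ℝ) ^ (0.03 : ℝ) :=
                mul_le_mul_of_nonneg_left hmz2 (by positivity)
            _ = (x : ℝ) ^ (0.04 : ℝ) := by rw [← Real.rpow_add hx0]; norm_num
        have g3 : (K : ℝ) * (1 + Real.log ((m : ℝ) / (w * z))) * (1 / w) ≤
            K * (1 + Real.log (2 * c / L)) * (1 / w) := by
          apply mul_le_mul_of_nonneg_right _ (by positivity)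
          apply mul_le_mul_of_nonneg_left _ hKpos.le
          linarith
        calc C * ((K : ℝ) * (1 + Real.log ((m : ℝ) / (w * z))) * (1 / w) +
              2 * (x : ℝ) ^ (1 / 100 : ℝ) * (m / z)) ≤
            C * (K * (1 + Real.log (2 * c / L)) * (1 / w) + 2 * (x : ℝ) ^ (0.04 : ℝ)) := by
              apply mul_le_mul_of_nonneg_left _ hC.le
              linarith
          _ = _ := by ring)
    rw [e1] at up
    have e2 : (1 : ℝ) / (m / (2 * c)) = 2 * c / m := by field_simp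
    rw [e2] at up
    have hfac3 : C * (((K : ℝ) + L) / z + 2 * c / m) ≤ 1 / 2 := by
      have c1 : C * (2 / t) ≤ 1 / 4 := by
        rw [mul_div_assoc', div_le_div_iff₀ (by linarith) (by norm_num)]
        linarith
      have c2 : C * (2 * c / m) ≤ 1 / 4 := by
        rw [mul_div_assoc', div_le_div_iff₀ hm' (by norm_num)]
        have : 8 * C * c ≤ ρ₀ * c := mul_le_mul_of_nonneg_right hρC hc'.le
        linarith
      have c3 : C * (((K : ℝ) + L) / z) ≤ C * (2 / t) := mul_le_mul_of_nonneg_left hfac hC.le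
      calc C * (((K : ℝ) + L) / z + 2 * c / m) = C * (((K : ℝ) + L) / z) + C * (2 * c / m) := by
            ring
        _ ≤ _ := by linarith
    have hlog2 : Real.log (2 * c / L) ≤ 1 + Real.log (c / L) := by
      rw [mul_div_assoc, Real.log_mul (by norm_num) hcLpos.ne']
      have := Real.log_two_lt_d9
      linarith
    have h5 : C * (K * (1 + Real.log (2 * c / L))) * (((K : ℝ) + L) / z + 2 * c / m) ≤
        L * (2 + Real.log (c / L)) * (1 / 2) := by
      calc C * (K * (1 + Real.log (2 * c / L))) * (((K : ℝ) + L) / z + 2 * c / m) =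
          (K * (1 + Real.log (2 * c / L))) * (C * (((K : ℝ) + L) / z + 2 * c / m)) := by ring
        _ ≤ (K * (1 + Real.log (2 * c / L))) * (1 / 2) :=
            mul_le_mul_of_nonneg_left hfac3 (by positivity)
        _ ≤ (L * (2 + Real.log (c / L))) * (1 / 2) := by
            apply mul_le_mul_of_nonneg_right _ (by norm_num)
            apply mul_le_mul hKL' (by linarith) (by linarith) hLpos.le
    have h8 : C * (2 * (x : ℝ) ^ (0.04 : ℝ)) * ((m / z : ℝ) + 1) ^ 2 ≤ L := by
      have d1 : ((m / z : ℝ) + 1) ^ 2 ≤ 4 * (x : ℝ) ^ (0.06 : ℝ) := by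
        have h4 : (1 : ℝ) ≤ (x : ℝ) ^ (0.03 : ℝ) :=
          Real.one_le_rpow (by linarith) (by norm_num)
        have h5 : ((x : ℝ) ^ (0.03 : ℝ)) ^ 2 = (x : ℝ) ^ (0.06 : ℝ) := by
          rw [← Real.rpow_natCast, ← Real.rpow_mul hx0.le]; norm_num
        have h6 : ((m / z : ℝ) + 1) ^ 2 ≤ ((x : ℝ) ^ (0.03 : ℝ) + 1) ^ 2 :=
          pow_le_pow_left₀ (by positivity) (by linarith) 2
        rw [← h5]
        exact h6.trans (sq_add_one_le h4)
      calc C * (2 * (x : ℝ) ^ (0.04 : ℝ)) * ((m / z : ℝ) + 1) ^ 2 ≤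
          C * (2 * (x : ℝ) ^ (0.04 : ℝ)) * (4 * (x : ℝ) ^ (0.06 : ℝ)) :=
            mul_le_mul_of_nonneg_left d1 (by positivity)
        _ = 8 * C * ((x : ℝ) ^ (0.04 : ℝ) * (x : ℝ) ^ (0.06 : ℝ)) := by ring
        _ = 8 * C * (x : ℝ) ^ (0.1 : ℝ) := by rw [← Real.rpow_add hx0]; norm_num
        _ ≤ L := hx8.trans hL
    have h6 : (L : ℝ) * Real.log (c / L) ≤ L * (6 + 3 * t) := by
      have b1 : (L : ℝ) * (2 + Real.log (c / L)) * (1 / 2) =
        L + 1 / 2 * (L * Real.log (c / L)) := by ring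
      have b2 : (L : ℝ) * (6 + 3 * t) = 6 * L + 3 * (t * L) := by ring
      rw [b2]
      rw [b1] at h5
      linarith
    have h7 := le_of_mul_le_mul_left h6 hLpos
    linarith

end D6
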