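import Mathlib
import Pool.Agent.H90.D6.PropA4

open Finset Filter

namespace D6

set_option maxHeartbeats 1000000 in
/-- Step 4a -/
theorem step4a {C : ℝ} (hC : 0 < C) (hBT : BT (1 / 100) C) (T₂ : ℝ) :
    ∃ ε₀ : ℝ, 0 < ε₀ ∧
    ∀ᶠ x : ℕ in atTop, ∀ m b c d e : ℕ, x < 2 * m → m ≤ x → Rep m b c d e → m ≤ 2 * b →
      m - b ≤ c - d → (x : ℝ) ^ (0.97 : ℝ) ≤ ((c - d : ℕ) : ℝ) →
      (c : ℝ) ≤ T₂ * ((c : ℝ) - d) → (m : ℝ) - b ≤ ε₀ * m → False := by
  set T : ℝ := max T₂ 2 with hT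
  have hT2 : 2 ≤ T := le_max_right _ _
  have hTT : T₂ ≤ T := le_max_left _ _
  set ρ : ℝ := 1 - 1 / T with hρ
  have hTi : 1 / T ≤ 1 / 2 := one_div_le_one_div_of_le (by norm_num) hT2
  have hTi0 : 0 < 1 / T := by positivity
  obtain ⟨c₁, hc₁, Y, hY⟩ := pnt_lite ρ (by rw [hρ]; linarith) (by rw [hρ]; linarith)
  set B : ℝ := 3 * (8 * C / c₁) with hB
  refine ⟨Real.exp (-(B + 1)), Real.exp_pos _, ?_⟩
  filter_upwards [ev_small, ev_const_le Y 0.97 (by norm_num),
    ev_le0 (8 * C / c₁) (0.04) (0.97) (by norm_num)]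
    with x hxs hxY hx8 m b c d e hxm hmx hrep hmb hKL hL hcT hε
  obtain ⟨hx2, hx194, hsmall⟩ := hxs
  have hx2' : (2 : ℝ) ≤ x := by exact_mod_cast hx2
  have hx0 : (0 : ℝ) < x := by linarith
  have hlogx : 0 ≤ Real.log x := Real.log_nonneg (by linarith)
  obtain ⟨r1, r2, r3, r4, -⟩ := id hrep
  set K := m - b with hKdef
  set L := c - d with hLdef
  have hbK : b + K = m := by omega
  have hdL : d + L = c := by omega
  have hK1 : 1 ≤ K := by omega
  have hL1 : 1 ≤ L := by omega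
  have hKpos : (0 : ℝ) < K := by exact_mod_cast hK1
  have hLpos : (0 : ℝ) < L := by exact_mod_cast hL1
  have hKreal : (m : ℝ) - b = K := by
    rw [← hbK]; push_cast; ring
  have hLreal : (c : ℝ) - d = L := by
    rw [← hdL]; push_cast; ring
  have hm' : (0 : ℝ) < m := by exact_mod_cast (by omega : 0 < m)
  have hc1 : 1 ≤ c := by omega
  have hc' : (0 : ℝ) < c := by exact_mod_cast hc1
  have hmx' : (m : ℝ) ≤ x := by exact_mod_cast hmx
  have hLc : (L : ℝ) ≤ c := by exact_mod_cast (by omega : L ≤ c)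
  have hcx97 : (x : ℝ) ^ (0.97 : ℝ) ≤ c := hL.trans hLc
  rw [hLreal] at hcT
  have hcT' : (c : ℝ) ≤ T * L := hcT.trans (mul_le_mul_of_nonneg_right hTT hLpos.le)
  have hdρ : (d : ℝ) ≤ ρ * c := by
    have h1 : (c : ℝ) / T ≤ L := by
      rw [div_le_iff₀ (by linarith)]; linarith
    have h2 : (d : ℝ) = c - L := by linarith
    rw [h2, hρ]
    have : (1 - 1 / T) * (c : ℝ) = c - c / T := by ring
    linarith
  have hcY : Y ≤ (c : ℝ) := hxY.trans hcx97
  have h1 := hY c hcY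
  set S : Finset ℕ := (Icc 1 c).filter (fun q => q.Prime ∧ c < 2 * q ∧ ∃ n ∈ Ioc b m, q ∣ n)
    with hS
  have h2 := theta_sub_le (a := ρ * c) (y := c) (by
      have : 0 ≤ ρ := by rw [hρ]; linarith
      positivity) S (by
      intro q hq
      simp only [hS, mem_filter, mem_Icc] at hq
      exact hq.1.1) (by
      intro q hq hq1 hq2
      have hcq : c < 2 * q := by
        have h3 : (1 / 2 : ℝ) * c ≤ ρ * c := by
          apply mul_le_mul_of_nonneg_right _ hc'.le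
          rw [hρ]; linarith
        have : (c : ℝ) < 2 * q := by linarith
        exact_mod_cast this
      have hq2' : q ≤ c := by exact_mod_cast hq2
      have hdq : d < q := by
        have : (d : ℝ) < q := by linarith
        exact_mod_cast this
      simp only [hS, mem_filter, mem_Icc]
      refine ⟨⟨hq.one_le, hq2'⟩, hq, hcq, ?_⟩
      by_contra hcon
      push Not at hcon
      have hpar := hrep.parity q
      rw [sum_factorization_self hq hdq hq2' hcq, sum_factorization_eq_zero hcon,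
        factorization_factorial_eq_zero (by omega)] at hpar
      exact absurd hpar (by decide))
  have h3 := bt_dyadic (by norm_num) hC hBT hx2' (u := b) (v := m) (y := c) (by omega) hmb
    hc1 hmx' S (by
      intro q hq
      simp only [hS, mem_filter, mem_Icc] at hq
      exact ⟨hq.2.1, hq.2.2.1, hq.1.2, hq.2.2.2⟩)
  rw [hKreal] at h3
  have hmc : (x : ℝ) ^ (1 / 100 : ℝ) * ((m : ℝ) / c) ≤ (x : ℝ) ^ (0.04 : ℝ) := by
    have e1 : (m : ℝ) / c ≤ (x : ℝ) ^ (0.03 : ℝ) := by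
      rw [div_le_iff₀ hc']
      calc (m : ℝ) ≤ x := hmx'
        _ = (x : ℝ) ^ (0.03 : ℝ) * (x : ℝ) ^ (0.97 : ℝ) := by
            rw [← Real.rpow_add hx0]; norm_num
        _ ≤ (x : ℝ) ^ (0.03 : ℝ) * c := mul_le_mul_of_nonneg_left hcx97 (by positivity)
    calc (x : ℝ) ^ (1 / 100 : ℝ) * ((m : ℝ) / c) ≤
        (x : ℝ) ^ (1 / 100 : ℝ) * (x : ℝ) ^ (0.03 : ℝ) :=
          mul_le_mul_of_nonneg_left e1 (by positivity)
      _ = (x : ℝ) ^ (0.04 : ℝ) := by rw [← Real.rpow_add hx0]; norm_num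
  have h4 : C * (4 * (K : ℝ) + 4 * (x : ℝ) ^ (1 / 100 : ℝ) * (m / c)) ≤
      4 * C * K + 4 * C * (x : ℝ) ^ (0.04 : ℝ) := by
    calc C * (4 * (K : ℝ) + 4 * (x : ℝ) ^ (1 / 100 : ℝ) * (m / c)) =
        4 * C * K + 4 * C * ((x : ℝ) ^ (1 / 100 : ℝ) * (m / c)) := by ring
      _ ≤ _ := by
        have := mul_le_mul_of_nonneg_left hmc (show 0 ≤ 4 * C by linarith)
        linarith
  have h5 : 4 * C * (x : ℝ) ^ (0.04 : ℝ) ≤ c₁ / 2 * c := by
    have h6 : 8 * C / c₁ * (x : ℝ) ^ (0.04 : ℝ) ≤ c := hx8.trans hcx97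
    rw [div_mul_eq_mul_div, div_le_iff₀ hc₁] at h6
    linarith
  have h6 : (c : ℝ) ≤ 8 * C / c₁ * K := by
    rw [div_mul_eq_mul_div, le_div_iff₀ hc₁]
    linarith
  -- now no prime > c divides the first interval
  have hxL : (x : ℝ) < (L : ℝ) ^ 2 := by
    calc (x : ℝ) < (x : ℝ) ^ (1.94 : ℝ) := hx194
      _ = ((x : ℝ) ^ (0.97 : ℝ)) ^ 2 := by
          rw [← Real.rpow_natCast, ← Real.rpow_mul hx0.le]; norm_num
      _ ≤ (L : ℝ) ^ 2 := pow_le_pow_left₀ (by positivity) hL 2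
  have hxL' : x < L ^ 2 := by exact_mod_cast hxL
  have hempty : PS b m c = ∅ := by
    rw [Finset.eq_empty_iff_forall_notMem]
    intro q hq
    rw [mem_PS] at hq
    obtain ⟨q1, q2, n, hn, hqn⟩ := hq
    have hn' := hn
    simp only [mem_Ioc] at hn'
    have h1 : n.factorization q = 1 := factorization_eq_one_of_sq q1 (by omega) hqn (by
      calc n ≤ x := by omega
        _ < L ^ 2 := hxL'
        _ ≤ q ^ 2 := Nat.pow_le_pow_left (by omega) 2)
    obtain ⟨n', hn1, hn2⟩ := hrep.match1 (q := q) (n := n) (by omega) hn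
      (by rw [h1]; decide) (by omega)
    simp only [mem_Ioc] at hn1
    have := Nat.le_of_dvd (by omega) hn2
    omega
  have hmz : m < (c + 1) ^ 2 := by
    calc m ≤ x := hmx
      _ < L ^ 2 := hxL'
      _ ≤ (c + 1) ^ 2 := Nat.pow_le_pow_left (by omega) 2
  have lo := mass_lower (u := b) (H := K) (z := c) hK1 (by rw [hbK]; exact hmz)
  rw [hbK, hempty, Finset.sum_empty] at lo
  have hth := Chebyshev.theta_le_log4_mul_x (x := (c : ℝ)) hc'.le
  have hl4 := log_four_le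
  have hth2 : Chebyshev.theta c ≤ 1.4 * c := hth.trans (mul_le_mul_of_nonneg_right hl4 hc'.le)
  have hlogm : 0 ≤ Real.log m := Real.log_nonneg (by exact_mod_cast (by omega : 1 ≤ m))
  have hlmx : Real.log m ≤ Real.log x := Real.log_le_log hm' hmx'
  have a1 : Real.sqrt m * Real.log m ≤ c := by
    have a2 : Real.sqrt m * Real.log m ≤ Real.sqrt x * Real.log x :=
      mul_le_mul (Real.sqrt_le_sqrt hmx') hlmx hlogm (by positivity)
    have a3 : 0 ≤ Real.log x * ((x : ℝ) ^ (0.03 : ℝ) + 1) ^ 2 := by positivity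
    linarith
  have hKB : (K : ℝ) * Real.log (m / K) ≤ K * B := by
    rw [hB]
    have : (K : ℝ) * (3 * (8 * C / c₁)) = 3 * (8 * C / c₁ * K) := by ring
    rw [this]
    linarith
  have hfin := le_of_mul_le_mul_left hKB hKpos
  have hexp : Real.exp (B + 1) ≤ m / K := by
    rw [le_div_iff₀ hKpos]
    rw [hKreal] at hε
    calc Real.exp (B + 1) * K ≤ Real.exp (B + 1) * (Real.exp (-(B + 1)) * m) :=
          mul_le_mul_of_nonneg_left hε (Real.exp_pos _).le
      _ = m := by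
          rw [← mul_assoc, ← Real.exp_add]; simp
  have := Real.log_le_log (Real.exp_pos _) hexp
  rw [Real.log_exp] at this
  linarith

/-- Proposition A: the intervals of a representation are short -/
theorem propA : ∀ᶠ x : ℕ in atTop, ∀ m b c d e : ℕ, x < 2 * m → m ≤ x → Rep m b c d e →
    ((m - b : ℕ) : ℝ) < (x : ℝ) ^ (0.97 : ℝ) ∧ ((c - d : ℕ) : ℝ) < (x : ℝ) ^ (0.97 : ℝ) := by
  obtain ⟨C, hC, hBT⟩ := bt_weak (1 / 100) (by norm_num)
  obtain ⟨Ce, hCe, h2⟩ := step2 hC hBT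
  obtain ⟨ε₁, hε₁, h3⟩ := step3 Ce
  obtain ⟨T₂, hT₂, h4b⟩ := step4b hC hBT Ce
  obtain ⟨ε₂, hε₂, h4a⟩ := step4a hC hBT T₂
  have h1a := step1 (min (1 / 2) (min ε₁ ε₂)) (by positivity)
  filter_upwards [h2, h3, h4b, h4a, h1a] with x h2 h3 h4b h4a h1 m b c d e hxm hmx hrep
  have k1 := h1 m b c d e hxm hmx hrep
  have hm' : (0 : ℝ) ≤ m := by positivity
  have k2 : (m : ℝ) - b ≤ 1 / 2 * m := k1.trans (mul_le_mul_of_nonneg_right (min_le_left _ _) hm')
  have k3 : (m : ℝ) - b ≤ ε₁ * m :=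
    k1.trans (mul_le_mul_of_nonneg_right ((min_le_right _ _).trans (min_le_left _ _)) hm')
  have k4 : (m : ℝ) - b ≤ ε₂ * m :=
    k1.trans (mul_le_mul_of_nonneg_right ((min_le_right _ _).trans (min_le_right _ _)) hm')
  have hmb : m ≤ 2 * b := by
    have : (m : ℝ) ≤ 2 * b := by linarith
    exact_mod_cast this
  rcases le_total (c - d) (m - b) with hle | hle
  · have key : ((m - b : ℕ) : ℝ) < (x : ℝ) ^ (0.97 : ℝ) := by
      by_contra hcon
      push Not at hcon
      have k5 := h2 m b c d e (m - b) hxm hmx hrep hmb le_rfl hle hcon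
      exact h3 m b c d e hxm hmx hrep hle hcon k5 k3
    refine ⟨key, lt_of_le_of_lt ?_ key⟩
    exact_mod_cast hle
  · have key : ((c - d : ℕ) : ℝ) < (x : ℝ) ^ (0.97 : ℝ) := by
      by_contra hcon
      push Not at hcon
      have k5 := h2 m b c d e (c - d) hxm hmx hrep hmb hle le_rfl hcon
      have k6 := h4b m b c d e hxm hmx hrep hmb hle hcon k5
      exact h4a m b c d e hxm hmx hrep hmb hle hcon k6 k4
    refine ⟨lt_of_le_of_lt ?_ key, key⟩
    exact_mod_cast hle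

end D6
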