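import Mathlib
import Pool.Agent.H90.D6.PropA5

open Finset Filter

namespace D6

theorem sum_log_dvd_Ioc {u v : ℕ} {x : ℝ} (huv : u ≤ v) (hvx : (v : ℝ) ≤ x) (hx : 1 ≤ x)
    (S : Finset ℕ)
    (hS : ∀ q ∈ S, q.Prime ∧ ∃ n ∈ Ioc u v, q ∣ n) :
    ∑ q ∈ S, Real.log q ≤ ((v - u : ℕ) : ℝ) * Real.log x := by
  have h1 := sum_log_primes_le (S := S) (n := ∏ n ∈ Ioc u v, n) (prod_Ioc_ne_zero u v) (by
    intro q hq
    obtain ⟨h1, n, hn, hqn⟩ := hS q hq
    exact ⟨h1, hqn.trans (Finset.dvd_prod_of_mem _ hn)⟩)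
  refine h1.trans ?_
  rw [Nat.cast_prod, Real.log_prod (by
    intro n hn
    simp only [mem_Ioc] at hn
    exact_mod_cast (by omega : n ≠ 0))]
  calc ∑ n ∈ Ioc u v, Real.log n ≤ ∑ n ∈ Ioc u v, Real.log x := by
        apply Finset.sum_le_sum
        intro n hn
        simp only [mem_Ioc] at hn
        apply Real.log_le_log (by exact_mod_cast (by omega : 0 < n))
        exact le_trans (by exact_mod_cast hn.2) hvx
    _ = _ := by simp

/-- a general bound for `e` -/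
theorem ebound : ∃ C₁ : ℝ, 0 < C₁ ∧ ∀ᶠ x : ℕ in atTop, ∀ m b c d e : ℕ, m ≤ x →
    Rep m b c d e → (e : ℝ) ≤ C₁ * (((m - b : ℕ) : ℝ) + ((c - d : ℕ) : ℝ)) * Real.log x := by
  obtain ⟨c₁, hc₁, Y, hY⟩ := pnt_lite (1 / 2) (by norm_num) (by norm_num)
  refine ⟨max 1 (1 / c₁), by positivity, ?_⟩
  filter_upwards [eventually_ge_atTop 2, ev_le_log (Y + 1)] with x hx2 hxY m b c d e hmx hrep
  have hx2' : (2 : ℝ) ≤ x := by exact_mod_cast hx2
  have hlogx : 0 < Real.log x := Real.log_pos (by linarith)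
  obtain ⟨r1, r2, r3, r4, -⟩ := id hrep
  have hK1 : (1 : ℝ) ≤ ((m - b : ℕ) : ℝ) := by exact_mod_cast (by omega : 1 ≤ m - b)
  have hL0 : (0 : ℝ) ≤ ((c - d : ℕ) : ℝ) := by positivity
  rcases lt_or_ge (e : ℝ) Y with he | he
  · have h1 : (1 : ℝ) * 1 ≤ max 1 (1 / c₁) * (((m - b : ℕ) : ℝ) + ((c - d : ℕ) : ℝ)) :=
      mul_le_mul (le_max_left _ _) (by linarith) (by norm_num) (by positivity)
    have h2 := mul_le_mul_of_nonneg_right h1 hlogx.le
    linarith
  · have h1 := hY e he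
    set S₁ : Finset ℕ := (Icc 1 e).filter (fun q => q.Prime ∧ e < 2 * q ∧ ∃ n ∈ Ioc b m, q ∣ n)
      with hS₁
    set S₂ : Finset ℕ := (Icc 1 e).filter (fun q => q.Prime ∧ e < 2 * q ∧ ∃ n ∈ Ioc d c, q ∣ n)
      with hS₂
    have h2 := theta_sub_le (a := 1 / 2 * e) (y := e) (by positivity) (S₁ ∪ S₂) (by
      intro q hq
      simp only [hS₁, hS₂, mem_union, mem_filter, mem_Icc] at hq
      rcases hq with hq | hq
      · exact hq.1.1
      · exact hq.1.1) (by
      intro q hq hq1 hq2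
      have hq1' : e < 2 * q := by
        have : (e : ℝ) < 2 * q := by linarith
        exact_mod_cast this
      have hq2' : q ≤ e := by exact_mod_cast hq2
      have h3 := hrep.match3 (q := q) (by
        rw [factorization_factorial_eq_one hq hq2' hq1']
        decide)
      simp only [hS₁, hS₂, mem_union, mem_filter, mem_Icc]
      rcases h3 with h3 | h3
      · exact Or.inl ⟨⟨hq.one_le, hq2'⟩, hq, hq1', h3⟩
      · exact Or.inr ⟨⟨hq.one_le, hq2'⟩, hq, hq1', h3⟩)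
    have h3 : ∑ q ∈ S₁ ∪ S₂, Real.log q ≤ ∑ q ∈ S₁, Real.log q + ∑ q ∈ S₂, Real.log q := by
      rw [← Finset.sum_union_inter]
      have : 0 ≤ ∑ i ∈ S₁ ∩ S₂, Real.log i := by
        apply Finset.sum_nonneg
        intro q hq
        simp only [mem_inter, hS₁, mem_filter, mem_Icc] at hq
        exact Real.log_nonneg (by exact_mod_cast hq.1.1.1)
      linarith
    have h4 := sum_log_dvd_Ioc (x := x) (u := b) (v := m) r1.le (by exact_mod_cast hmx)
      (by linarith) S₁ (by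
        intro q hq
        simp only [hS₁, mem_filter, mem_Icc] at hq
        exact ⟨hq.2.1, hq.2.2.2⟩)
    have h5 := sum_log_dvd_Ioc (x := x) (u := d) (v := c) r3
      (by exact_mod_cast (by omega : c ≤ x))
      (by linarith) S₂ (by
        intro q hq
        simp only [hS₂, mem_filter, mem_Icc] at hq
        exact ⟨hq.2.1, hq.2.2.2⟩)
    have h6 : c₁ * e ≤ (((m - b : ℕ) : ℝ) + ((c - d : ℕ) : ℝ)) * Real.log x := by
      linarith
    have h7 : (e : ℝ) ≤ 1 / c₁ * ((((m - b : ℕ) : ℝ) + ((c - d : ℕ) : ℝ)) * Real.log x) := by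
      rw [one_div, ← div_eq_inv_mul, le_div_iff₀ hc₁]
      linarith
    refine h7.trans ?_
    rw [mul_assoc]
    apply mul_le_mul_of_nonneg_right (le_max_right _ _) (by positivity)

theorem k_le_rpow {k x : ℕ} (h : k ^ 100 ≤ x) : (k : ℝ) ≤ (x : ℝ) ^ (0.01 : ℝ) := by
  have h1 : ((k : ℝ) ^ 100) ≤ x := by exact_mod_cast h
  have h2 : ((k : ℝ) ^ 100) ^ (0.01 : ℝ) ≤ (x : ℝ) ^ (0.01 : ℝ) :=
    Real.rpow_le_rpow (by positivity) h1 (by norm_num)
  rw [← Real.rpow_natCast, ← Real.rpow_mul (by positivity)] at h2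
  norm_num at h2 ⊢
  exact h2

theorem p_ge_rpow {k p x : ℕ} (hx : 1 ≤ x) (h : k ^ 100 ≤ x) (h2 : x < 2 * (k * p)) :
    (x : ℝ) ^ (0.99 : ℝ) ≤ 2 * p := by
  have hx0 : (0 : ℝ) < x := by exact_mod_cast hx
  have h1 := k_le_rpow h
  have h3 : (x : ℝ) ≤ 2 * (k * p) := by exact_mod_cast h2.le
  have h4 : (x : ℝ) = (x : ℝ) ^ (0.01 : ℝ) * (x : ℝ) ^ (0.99 : ℝ) := by
    rw [← Real.rpow_add hx0]; norm_num
  have h5 : (x : ℝ) ^ (0.01 : ℝ) * (x : ℝ) ^ (0.99 : ℝ) ≤ (x : ℝ) ^ (0.01 : ℝ) * (2 * p) := by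
    rw [← h4]
    calc (x : ℝ) ≤ 2 * (k * p) := h3
      _ = k * (2 * p) := by ring
      _ ≤ _ := mul_le_mul_of_nonneg_right h1 (by positivity)
  exact le_of_mul_le_mul_left h5 (by positivity)

/-- large primes are matched -/
theorem matched : ∀ᶠ x : ℕ in atTop, ∀ m b c d e k p : ℕ, x < 2 * m → m ≤ x →
    Rep m b c d e → p.Prime → k ^ 100 ≤ x → k * p ∈ Ioc b m → x < 2 * (k * p) →
    ∃ j, 1 ≤ j ∧ j * p ∈ Ioc d c ∧ (j : ℝ) ≤ 2 * (x : ℝ) ^ (0.01 : ℝ) ∧ m - b < p ∧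
      c - d < p ∧ e < p := by
  obtain ⟨C₁, hC₁, hE⟩ := ebound
  filter_upwards [propA, hE, eventually_ge_atTop 2, ev_le0 4 0.97 0.99 (by norm_num),
    ev_le (4 * C₁) 0.97 0.98 1 (by norm_num), ev_le0 4 0.98 0.99 (by norm_num),
    ev_le0 8 1 1.98 (by norm_num)]
    with x hA hE hx2 hx1 hx3 hx4 hx5 m b c d e k p hxm hmx hrep hp hk hkp hxkp
  obtain ⟨hK, hL⟩ := hA m b c d e hxm hmx hrep
  have he := hE m b c d e hmx hrep
  have hx2' : (2 : ℝ) ≤ x := by exact_mod_cast hx2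
  have hx0 : (0 : ℝ) < x := by linarith
  have hlogx : 0 < Real.log x := Real.log_pos (by linarith)
  have hp99 := p_ge_rpow (by omega) hk hxkp
  obtain ⟨r1, r2, r3, r4, -⟩ := id hrep
  have hKp : m - b < p := by
    have : ((m - b : ℕ) : ℝ) < p := by
      have : (0 : ℝ) < (x : ℝ) ^ (0.97 : ℝ) := by positivity
      linarith
    exact_mod_cast this
  have hLp : c - d < p := by
    have : ((c - d : ℕ) : ℝ) < p := by
      have : (0 : ℝ) < (x : ℝ) ^ (0.97 : ℝ) := by positivity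
      linarith
    exact_mod_cast this
  have hep : e < p := by
    have h1 : C₁ * (((m - b : ℕ) : ℝ) + ((c - d : ℕ) : ℝ)) * Real.log x ≤
        C₁ * (2 * (x : ℝ) ^ (0.97 : ℝ)) * Real.log x := by
      apply mul_le_mul_of_nonneg_right _ hlogx.le
      apply mul_le_mul_of_nonneg_left _ hC₁.le
      linarith
    have h2 : C₁ * (2 * (x : ℝ) ^ (0.97 : ℝ)) * Real.log x =
      (4 * C₁ * (x : ℝ) ^ (0.97 : ℝ) * Real.log x ^ 1) / 2 := by rw [pow_one]; ring
    have h3 : (0 : ℝ) < (x : ℝ) ^ (0.98 : ℝ) := by positivity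
    have : (e : ℝ) < p := by linarith
    exact_mod_cast this
  have hkp' := hkp
  simp only [mem_Ioc] at hkp'
  have hsq : m < p ^ 2 := by
    have h1 : ((x : ℝ) ^ (0.99 : ℝ)) ^ 2 ≤ (2 * p) ^ 2 := pow_le_pow_left₀ (by positivity) hp99 2
    have h2 : ((x : ℝ) ^ (0.99 : ℝ)) ^ 2 = (x : ℝ) ^ (1.98 : ℝ) := by
      rw [← Real.rpow_natCast, ← Real.rpow_mul hx0.le]; norm_num
    rw [Real.rpow_one] at hx5
    have h3 : (m : ℝ) ≤ x := by exact_mod_cast hmx
    have h4 : (m : ℝ) < (p : ℝ) ^ 2 := by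
      nlinarith
    exact_mod_cast h4
  have hv : (k * p).factorization p = 1 :=
    factorization_eq_one_of_sq hp (by omega) (Dvd.intro_left _ rfl) (by omega)
  obtain ⟨n', hn', a, rfl⟩ := hrep.match1 (q := p) (n := k * p) hKp.le hkp (by rw [hv]; decide) hep
  have hn'' := hn'
  simp only [mem_Ioc] at hn''
  have ha : 1 ≤ a := by
    rcases Nat.eq_zero_or_pos a with rfl | ha
    · simp at hn''
    · exact ha
  refine ⟨a, ha, by rwa [mul_comm], ?_, hKp, hLp, hep⟩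
  have hpa : p * a ≤ x := by omega
  have hpa' : (p : ℝ) * a ≤ x := by exact_mod_cast hpa
  have h1 : (x : ℝ) ^ (0.99 : ℝ) * a ≤ (x : ℝ) ^ (0.99 : ℝ) * (2 * (x : ℝ) ^ (0.01 : ℝ)) := by
    calc (x : ℝ) ^ (0.99 : ℝ) * a ≤ (2 * p) * a := mul_le_mul_of_nonneg_right hp99 (by positivity)
      _ = 2 * (p * a) := by ring
      _ ≤ 2 * x := by linarith
      _ = 2 * ((x : ℝ) ^ (0.99 : ℝ) * (x : ℝ) ^ (0.01 : ℝ)) := by
          rw [← Real.rpow_add hx0]; norm_num
      _ = _ := by ring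
  exact le_of_mul_le_mul_left h1 (by positivity)

/-- good cofactors -/
def Good (A k : ℕ) : Prop :=
  Squarefree k ∧ (∀ q : ℕ, q.Prime → q ∣ k → A ≤ q) ∧
    ∀ j e : ℕ, 1 ≤ j → j < k → ¬ IsSquare (k * j * e.factorial)

/-- the family -/
def InM (A x m : ℕ) : Prop :=
  x < 2 * m ∧ m ≤ x ∧ ∃ k p : ℕ, m = k * p ∧ p.Prime ∧ Good A k ∧ 2 ≤ k ∧ k ^ 100 ≤ x

/-- Proposition B -/
theorem propB (A : ℕ) : ∀ᶠ x : ℕ in atTop, ∀ m m' b c d e : ℕ, InM A x m → InM A x m' →
    m' < m → m - m' < A → Rep m b c d e → A ≤ m - b → False := by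
  filter_upwards [matched, eventually_ge_atTop 2, propA, ev_le0 4 0.99 1 (by norm_num),
    ev_le0 (8 * A) 0.02 1 (by norm_num)]
    with x hmat hx2 hA hx3 hx4 m m' b c d e hm hm' hlt hmA hrep hK
  obtain ⟨h1, h2, k, p, rfl, hp, hg, hk2, hk100⟩ := hm
  obtain ⟨h1', h2', k', p', rfl, hp', hg', hk2', hk100'⟩ := hm'
  have hx2' : (2 : ℝ) ≤ x := by exact_mod_cast hx2
  have hx0 : (0 : ℝ) < x := by linarith
  obtain ⟨hAK, hAL⟩ := hA _ b c d e h1 h2 hrep
  obtain ⟨r1, r2, r3, r4, -⟩ := id hrep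
  obtain ⟨j, hj1, hj2, hj3, hpK, hpL, hpe⟩ :=
    hmat _ b c d e k p h1 h2 hrep hp hk100 (by simp only [mem_Ioc]; omega) h1
  obtain ⟨j', hj1', hj2', hj3', hpK', hpL', hpe'⟩ :=
    hmat _ b c d e k' p' h1 h2 hrep hp' hk100' (by simp only [mem_Ioc]; omega) h1'
  simp only [mem_Ioc] at hj2 hj2'
  -- j < k
  have hjk : j < k := by
    have : j * p < k * p := by omega
    exact Nat.lt_of_mul_lt_mul_right this
  -- j k' = j' k
  have hk := k_le_rpow hk100
  have hk' := k_le_rpow hk100'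
  have heq : j * k' = j' * k := by
    by_contra hne
    have hne' : (j : ℤ) * k' - j' * k ≠ 0 := by
      intro h0
      apply hne
      have : (j : ℤ) * k' = j' * k := by linarith
      exact_mod_cast this
    have habs : (1 : ℝ) ≤ |(j : ℝ) * k' - j' * k| := by
      have : (1 : ℤ) ≤ |(j : ℤ) * k' - j' * k| := Int.one_le_abs hne'
      exact_mod_cast this
    have hid : ((j : ℝ) * k' - j' * k) * (k * p) =
        ((j * p : ℝ) - j' * p') * (k * k') - (j' * k) * ((k * p : ℝ) - k' * p') := by ring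
    have hdiff : |(j * p : ℝ) - j' * p'| ≤ (x : ℝ) ^ (0.97 : ℝ) := by
      have g1 : (j * p : ℤ) - j' * p' ≤ ((c - d : ℕ) : ℤ) := by
        push_cast [r3]; 
        have : (j * p : ℤ) ≤ c := by exact_mod_cast hj2.2
        have : (d : ℤ) < j' * p' := by exact_mod_cast hj2'.1
        linarith
      have g2 : -((c - d : ℕ) : ℤ) ≤ (j * p : ℤ) - j' * p' := by
        push_cast [r3]; 
        have : (j' * p' : ℤ) ≤ c := by exact_mod_cast hj2'.2
        have : (d : ℤ) < j * p := by exact_mod_cast hj2.1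
        linarith
      have g1' : (j * p : ℝ) - j' * p' ≤ ((c - d : ℕ) : ℝ) := by exact_mod_cast g1
      have g2' : -((c - d : ℕ) : ℝ) ≤ (j * p : ℝ) - j' * p' := by exact_mod_cast g2
      rw [abs_le]
      constructor <;> linarith
    have hdiff2 : |(k * p : ℝ) - k' * p'| ≤ A := by
      have g1 : (k * p : ℤ) - k' * p' < A := by
        have := hmA
        zify [hlt.le] at this
        exact this
      have g2 : (0 : ℤ) < (k * p : ℤ) - k' * p' := by
        have : (k' * p' : ℤ) < k * p := by exact_mod_cast hlt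
        linarith
      have g1' : (k * p : ℝ) - k' * p' < A := by exact_mod_cast g1
      have g2' : (0 : ℝ) < (k * p : ℝ) - k' * p' := by exact_mod_cast g2
      rw [abs_le]
      constructor <;> linarith
    have hkp : (x : ℝ) / 2 < k * p := by
      have : (x : ℝ) < 2 * (k * p) := by exact_mod_cast h1
      linarith
    have hkp0 : (0 : ℝ) < k * p := by linarith
    have hkk : (k : ℝ) * k' ≤ (x : ℝ) ^ (0.02 : ℝ) := by
      calc (k : ℝ) * k' ≤ (x : ℝ) ^ (0.01 : ℝ) * (x : ℝ) ^ (0.01 : ℝ) :=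
            mul_le_mul hk hk' (by positivity) (by positivity)
        _ = _ := by rw [← Real.rpow_add hx0]; norm_num
    have hjkk : (j' : ℝ) * k ≤ 2 * (x : ℝ) ^ (0.02 : ℝ) := by
      calc (j' : ℝ) * k ≤ (2 * (x : ℝ) ^ (0.01 : ℝ)) * (x : ℝ) ^ (0.01 : ℝ) :=
            mul_le_mul hj3' hk (by positivity) (by positivity)
        _ = 2 * ((x : ℝ) ^ (0.01 : ℝ) * (x : ℝ) ^ (0.01 : ℝ)) := by ring
        _ = _ := by rw [← Real.rpow_add hx0]; norm_num
    have hfin : (k * p : ℝ) ≤ (x : ℝ) ^ (0.97 : ℝ) * (x : ℝ) ^ (0.02 : ℝ) +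
        (2 * (x : ℝ) ^ (0.02 : ℝ)) * A := by
      calc (k * p : ℝ) ≤ |(j : ℝ) * k' - j' * k| * (k * p) := by
            nlinarith
        _ = |((j : ℝ) * k' - j' * k) * (k * p)| := by
            rw [abs_mul, abs_of_pos hkp0]
        _ = |((j * p : ℝ) - j' * p') * (k * k') - (j' * k) * ((k * p : ℝ) - k' * p')| := by
            rw [hid]
        _ ≤ |((j * p : ℝ) - j' * p') * (k * k')| + |(j' * k) * ((k * p : ℝ) - k' * p')| :=
            abs_sub _ _
        _ = |((j * p : ℝ) - j' * p')| * (k * k') + (j' * k) * |((k * p : ℝ) - k' * p')| := by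
            rw [abs_mul ((j * p : ℝ) - j' * p') (k * k'), abs_mul ((j' : ℝ) * k) _,
              abs_of_nonneg (show (0 : ℝ) ≤ (k : ℝ) * k' by positivity),
              abs_of_nonneg (show (0 : ℝ) ≤ (j' : ℝ) * k by positivity)]
        _ ≤ _ := by
            apply add_le_add
            · exact mul_le_mul hdiff hkk (by positivity) (by positivity)
            · exact mul_le_mul hjkk hdiff2 (by positivity) (by positivity)
    have e1 : (x : ℝ) ^ (0.97 : ℝ) * (x : ℝ) ^ (0.02 : ℝ) = (x : ℝ) ^ (0.99 : ℝ) := by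
      rw [← Real.rpow_add hx0]; norm_num
    rw [e1] at hfin
    rw [Real.rpow_one] at hx3 hx4
    have e2 : (2 * (x : ℝ) ^ (0.02 : ℝ)) * A = (8 * A * (x : ℝ) ^ (0.02 : ℝ)) / 4 := by ring
    rw [e2] at hfin
    linarith
  -- coprimality
  have hcop : Nat.Coprime k k' := by
    rw [Nat.coprime_iff_gcd_eq_one]
    by_contra hne
    obtain ⟨q, hq, hqd⟩ := Nat.exists_prime_and_dvd hne
    have hqk : q ∣ k := hqd.trans (Nat.gcd_dvd_left _ _)
    have hqk' : q ∣ k' := hqd.trans (Nat.gcd_dvd_right _ _)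
    have hqA := hg.2.1 q hq hqk
    have hqm : q ∣ k * p - k' * p' := Nat.dvd_sub (hqk.mul_right _) (hqk'.mul_right _)
    have := Nat.le_of_dvd (by omega) hqm
    omega
  have hkj : k ∣ j := by
    have : k ∣ j * k' := by rw [heq]; exact Dvd.intro_left _ rfl
    exact hcop.dvd_of_dvd_mul_right this
  have := Nat.le_of_dvd (by omega) hkj
  omega

end D6
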