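import Mathlib
import Pool.Agent.H90.D6.PropB

open Finset Filter

namespace D6

theorem sup_primeFactors {p n : ℕ} (hp : p.Prime) (hn : n ≠ 0) (hpn : p ∣ n) (h : n < p ^ 2) :
    n.primeFactors.sup id = p := by
  apply le_antisymm
  · apply Finset.sup_le
    intro q hq
    simp only [id]
    rw [Nat.mem_primeFactors] at hq
    by_contra hlt
    push Not at hlt
    have hne : p ≠ q := by omega
    have hcop : Nat.Coprime p q := (Nat.coprime_primes hp hq.1).mpr hne
    have h1 : p * q ∣ n := hcop.mul_dvd_of_dvd_of_dvd hpn hq.2.1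
    have h2 := Nat.le_of_dvd (Nat.pos_of_ne_zero hn) h1
    have h3 : p * p ≤ p * q := Nat.mul_le_mul_left _ hlt.le
    nlinarith
  · exact Finset.le_sup (f := id) (Nat.mem_primeFactors.mpr ⟨hp, hpn, hn⟩)

/-- counting lemma: each `n₀ ∈ Z` accounts for at most `x^0.01` elements of the family -/
theorem count_le {x : ℕ} (B Z : Finset ℕ) (hZ : ∀ n ∈ Z, n ≤ x ∧ n ≠ 0)
    (hB : ∀ m ∈ B, ∃ k p j : ℕ, m = k * p ∧ p.Prime ∧ x < p ^ 2 ∧ k ≠ 0 ∧ k ^ 100 ≤ x ∧
      j * p ∈ Z) :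
    (B.card : ℝ) ≤ (x : ℝ) ^ (0.01 : ℝ) * Z.card := by
  set K := ⌊(x : ℝ) ^ (0.01 : ℝ)⌋₊ with hK
  have h1 : B ⊆ ((Icc 1 K) ×ˢ Z).image (fun y => y.1 * (y.2.primeFactors.sup id)) := by
    intro m hm
    obtain ⟨k, p, j, rfl, hp, hxp, hk0, hk, hj⟩ := hB m hm
    simp only [mem_image, mem_product, Prod.exists, mem_Icc]
    refine ⟨k, j * p, ⟨⟨by omega, ?_⟩, hj⟩, ?_⟩
    · apply Nat.le_floor
      exact k_le_rpow hk
    · obtain ⟨h2, h3⟩ := hZ _ hj
      rw [sup_primeFactors hp h3 (Dvd.intro_left _ rfl) (by omega)]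
  have h2 : B.card ≤ K * Z.card := by
    calc B.card ≤ _ := Finset.card_le_card h1
      _ ≤ ((Icc 1 K) ×ˢ Z).card := Finset.card_image_le
      _ = K * Z.card := by simp [card_product]
  calc (B.card : ℝ) ≤ ((K * Z.card : ℕ) : ℝ) := by exact_mod_cast h2
    _ = (K : ℝ) * Z.card := by push_cast; ring
    _ ≤ _ := by
        apply mul_le_mul_of_nonneg_right _ (by positivity)
        exact Nat.floor_le (by positivity)

open Classical in
/-- numbers up to `x` divisible by the square of some `w ≥ y` -/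
noncomputable def SQ (y : ℝ) (x : ℕ) : Finset ℕ :=
  (Icc 1 x).filter (fun n => ∃ w : ℕ, y ≤ w ∧ w ^ 2 ∣ n)

theorem card_multiples (x r : ℕ) (hr : 0 < r) :
    (((Icc 1 x).filter (fun n => r ∣ n)).card : ℝ) ≤ x / r := by
  have h1 : ((Icc 1 x).filter (fun n => r ∣ n)) ⊆ (Icc 1 (x / r)).image (fun a => r * a) := by
    intro n hn
    simp only [mem_filter, mem_Icc] at hn
    obtain ⟨⟨h1, h2⟩, a, rfl⟩ := hn
    simp only [mem_image, mem_Icc]
    refine ⟨a, ⟨?_, ?_⟩, rfl⟩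
    · rcases Nat.eq_zero_or_pos a with rfl | ha
      · simp at h1
      · exact ha
    · rw [Nat.le_div_iff_mul_le hr, mul_comm]
      exact h2
  calc (((Icc 1 x).filter (fun n => r ∣ n)).card : ℝ) ≤
      (((Icc 1 (x / r)).image (fun a => r * a)).card : ℝ) := by
        exact_mod_cast Finset.card_le_card h1
    _ ≤ ((Icc 1 (x / r)).card : ℝ) := by exact_mod_cast Finset.card_image_le
    _ = ((x / r : ℕ) : ℝ) := by simp
    _ ≤ _ := Nat.cast_div_le

theorem card_SQ (y : ℝ) (hy : 1 ≤ y) (x : ℕ) : ((SQ y x).card : ℝ) ≤ 3 * x / y := by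
  classical
  set y' := ⌈y⌉₊ with hy'
  have hy1 : 1 ≤ y' := Nat.one_le_ceil_iff.mpr (by linarith)
  have h1 : SQ y x ⊆ (Icc y' (max x y')).biUnion (fun w => (Icc 1 x).filter (fun n => w ^ 2 ∣ n)) := by
    intro n hn
    simp only [SQ, mem_filter] at hn
    obtain ⟨h1, w, hw1, hw2⟩ := hn
    simp only [mem_biUnion, mem_filter]
    refine ⟨w, ?_, h1, hw2⟩
    simp only [mem_Icc] at h1 ⊢
    refine ⟨Nat.ceil_le.mpr hw1, ?_⟩
    have h3 := Nat.le_of_dvd (by omega) hw2
    have h4 : w ≤ w ^ 2 := Nat.le_self_pow (by norm_num) w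
    exact le_trans (by omega) (le_max_left _ _)
  have h2 : ((SQ y x).card : ℝ) ≤ ∑ w ∈ Icc y' (max x y'), (x : ℝ) / ((w : ℝ) ^ 2) := by
    calc ((SQ y x).card : ℝ) ≤ (((Icc y' (max x y')).biUnion
        (fun w => (Icc 1 x).filter (fun n => w ^ 2 ∣ n))).card : ℝ) := by
          exact_mod_cast Finset.card_le_card h1
      _ ≤ ((∑ w ∈ Icc y' (max x y'), ((Icc 1 x).filter (fun n => w ^ 2 ∣ n)).card : ℕ) : ℝ) := by
          exact_mod_cast Finset.card_biUnion_le
      _ = ∑ w ∈ Icc y' (max x y'), (((Icc 1 x).filter (fun n => w ^ 2 ∣ n)).card : ℝ) := by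
          push_cast; rfl
      _ ≤ _ := by
          apply Finset.sum_le_sum
          intro w hw
          simp only [mem_Icc] at hw
          have := card_multiples x (w ^ 2) (by
            have : 0 < w := by omega
            positivity)
          push_cast at this
          exact this
  have hyy : y ≤ y' := Nat.le_ceil y
  have hy'0 : (0 : ℝ) < y' := by linarith
  have h3 : ∑ w ∈ Icc y' (max x y'), (x : ℝ) / ((w : ℝ) ^ 2) ≤ x * (2 / y') := by
    have e1 : ∑ w ∈ Icc y' (max x y'), (x : ℝ) / ((w : ℝ) ^ 2) =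
        x * ∑ w ∈ Icc y' (max x y'), ((w : ℝ) ^ 2)⁻¹ := by
      rw [Finset.mul_sum]
      apply Finset.sum_congr rfl
      intro w _
      rw [div_eq_mul_inv]
    rw [e1]
    apply mul_le_mul_of_nonneg_left _ (by positivity)
    rw [← Finset.Ioc_insert_left (le_max_right _ _), Finset.sum_insert (by simp)]
    have h4 := sum_Ioc_inv_sq_le_sub (α := ℝ) (k := y') (n := max x y') (by omega) (le_max_right _ _)
    have h5 : ((y' : ℝ) ^ 2)⁻¹ ≤ (y' : ℝ)⁻¹ := by
      apply inv_anti₀ hy'0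
      have : (1 : ℝ) ≤ y' := by exact_mod_cast hy1
      nlinarith
    have h6 : (0 : ℝ) ≤ (((max x y' : ℕ) : ℝ))⁻¹ := by positivity
    have h7 : (2 : ℝ) / y' = (y' : ℝ)⁻¹ + (y' : ℝ)⁻¹ := by ring
    rw [h7]
    linarith
  refine h2.trans (h3.trans ?_)
  rw [mul_div_assoc', div_le_div_iff₀ hy'0 (by linarith)]
  have hx0 : (0 : ℝ) ≤ x := by positivity
  nlinarith

end D6
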