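import Mathlib
import Pool.Agent.H90.D6.Count

open Finset Filter

namespace D6

open Classical in
theorem near_count (B : Finset ℕ) (x Λ : ℕ) (θ : ℝ) :
    (((Icc 1 x).filter (fun n => θ ≤
      ((B.filter (fun n' => n ≤ n' + Λ ∧ n' ≤ n + Λ)).card : ℝ))).card : ℝ) * θ ≤
      (2 * Λ + 1) * B.card := by
  set N := (Icc 1 x).filter (fun n => θ ≤
      ((B.filter (fun n' => n ≤ n' + Λ ∧ n' ≤ n + Λ)).card : ℝ)) with hN
  calc (N.card : ℝ) * θ = ∑ n ∈ N, θ := by rw [Finset.sum_const, nsmul_eq_mul]
    _ ≤ ∑ n ∈ N, ((B.filter (fun n' => n ≤ n' + Λ ∧ n' ≤ n + Λ)).card : ℝ) := by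
        apply Finset.sum_le_sum
        intro n hn
        simp only [hN, mem_filter] at hn
        exact hn.2
    _ = ∑ n' ∈ B, ((N.filter (fun n => n ≤ n' + Λ ∧ n' ≤ n + Λ)).card : ℝ) := by
        simp only [Finset.card_filter, Nat.cast_sum]
        rw [Finset.sum_comm]
    _ ≤ ∑ n' ∈ B, (2 * Λ + 1 : ℝ) := by
        apply Finset.sum_le_sum
        intro n' _
        have h1 : (N.filter (fun n => n ≤ n' + Λ ∧ n' ≤ n + Λ)) ⊆ Icc (n' - Λ) (n' + Λ) := by
          intro n hn
          simp only [mem_filter] at hn
          simp only [mem_Icc]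
          omega
        have h2 := Finset.card_le_card h1
        rw [Nat.card_Icc] at h2
        have h3 : (N.filter (fun n => n ≤ n' + Λ ∧ n' ≤ n + Λ)).card ≤ 2 * Λ + 1 := by omega
        exact_mod_cast h3
    _ = _ := by rw [Finset.sum_const, nsmul_eq_mul]; ring

theorem factorization_choose_eq {d L q : ℕ} (hq : L < q) :
    ((d + L).choose L).factorization q = ∑ n ∈ Ioc d (d + L), n.factorization q := by
  rw [← factorization_prod_Ioc, prod_Ioc_eq_factorial_mul_choose,
    Nat.factorization_mul (Nat.factorial_ne_zero _) (Nat.choose_pos (by omega)).ne',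
    Finsupp.add_apply, factorization_factorial_eq_zero hq, zero_add]

theorem sum_factorization_mul_log_le {S : Finset ℕ} {n : ℕ} (hn : n ≠ 0) :
    ∑ q ∈ S, (n.factorization q : ℝ) * Real.log q ≤ Real.log n := by
  rw [log_eq_sum_primeFactors n]
  have h1 : ∑ q ∈ S, (n.factorization q : ℝ) * Real.log q =
      ∑ q ∈ S.filter (fun q => q ∈ n.primeFactors), (n.factorization q : ℝ) * Real.log q := by
    symm
    apply Finset.sum_subset (Finset.filter_subset _ _)
    intro q hq hq'
    simp only [mem_filter, not_and] at hq'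
    have := hq' hq
    rw [← Nat.support_factorization, Finsupp.mem_support_iff, not_not] at this
    rw [this]; simp
  rw [h1]
  apply Finset.sum_le_sum_of_subset_of_nonneg
  · intro q hq
    simp only [mem_filter] at hq
    exact hq.2
  · intro q hq _
    have : 0 ≤ Real.log q := Real.log_nonneg (by
      exact_mod_cast (Nat.prime_of_mem_primeFactors hq).one_le)
    positivity

open Classical in
/-- lower bound for `e` in terms of the length of the second interval -/
theorem e_lower_aux {x m b c d e : ℕ} (hrep : Rep m b c d e) (hmx : m ≤ x) (hdc : d < c)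
    (B : Finset ℕ)
    (hB : ∀ n ∈ Ioc d c, (∃ q : ℕ, q.Prime ∧ c - d < q ∧ q ^ 2 ∣ n) → n ∈ B) :
    ((c - d : ℕ) : ℝ) * Real.log (c / ((c - d : ℕ) : ℝ)) ≤
      ((((Ioc 0 (c - d)).filter Nat.Prime).card : ℝ) +
        (((Ioc d c).filter (fun n => n ∈ B)).card : ℝ) + ((m - b : ℕ) : ℝ)) * Real.log x +
        Chebyshev.theta e := by
  obtain ⟨r1, r2, r3, r4, -⟩ := id hrep
  set L := c - d with hL
  have hdL : d + L = c := by omega
  have hL1 : 1 ≤ L := by omega
  have hx1 : 1 ≤ x := by omega
  have hlogx : 0 ≤ Real.log x := Real.log_nonneg (by exact_mod_cast hx1)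
  have hc0 : 0 < c := by omega
  have hcx : Real.log c ≤ Real.log x :=
    Real.log_le_log (by exact_mod_cast hc0) (by exact_mod_cast (by omega : c ≤ x))
  have h1 := log_choose_ge c L hL1 (by omega)
  refine h1.trans ?_
  rw [log_eq_sum_primeFactors]
  set P := (c.choose L).primeFactors with hP
  have hpr : ∀ q ∈ P, q.Prime := fun q hq => Nat.prime_of_mem_primeFactors hq
  rw [← Finset.sum_filter_add_sum_filter_not P (fun q => q ≤ L)]
  have s1 : ∑ q ∈ P.filter (fun q => q ≤ L), ((c.choose L).factorization q : ℝ) * Real.log q ≤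
      (((Ioc 0 L).filter Nat.Prime).card : ℝ) * Real.log x := by
    calc ∑ q ∈ P.filter (fun q => q ≤ L), ((c.choose L).factorization q : ℝ) * Real.log q ≤
        ∑ q ∈ P.filter (fun q => q ≤ L), Real.log x := by
          apply Finset.sum_le_sum
          intro q hq
          exact (factorization_choose_mul_log_le c L q hc0).trans hcx
      _ = ((P.filter (fun q => q ≤ L)).card : ℝ) * Real.log x := by
          rw [Finset.sum_const, nsmul_eq_mul]
      _ ≤ _ := by
          apply mul_le_mul_of_nonneg_right _ hlogx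
          have : P.filter (fun q => q ≤ L) ⊆ (Ioc 0 L).filter Nat.Prime := by
            intro q hq
            simp only [mem_filter, mem_Ioc] at hq ⊢
            exact ⟨⟨(hpr q hq.1).pos, hq.2⟩, hpr q hq.1⟩
          exact_mod_cast Finset.card_le_card this
  set P₂ := P.filter (fun q => ¬ q ≤ L) with hP₂
  rw [← Finset.sum_filter_add_sum_filter_not P₂ (fun q => ∃ n ∈ Ioc d c, n ∈ B ∧ q ∣ n)]
  have hfac : ∀ q ∈ P₂, (c.choose L).factorization q = ∑ n ∈ Ioc d c, n.factorization q := by
    intro q hq
    simp only [hP₂, mem_filter, not_le] at hq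
    have := factorization_choose_eq (d := d) (L := L) hq.2
    rwa [hdL] at this
  have hLq : ∀ q ∈ P₂, c - d ≤ q := by
    intro q hq
    simp only [hP₂, mem_filter, not_le] at hq
    omega
  -- bad part
  have s2 : ∑ q ∈ P₂.filter (fun q => ∃ n ∈ Ioc d c, n ∈ B ∧ q ∣ n),
      ((c.choose L).factorization q : ℝ) * Real.log q ≤
      (((Ioc d c).filter (fun n => n ∈ B)).card : ℝ) * Real.log x := by
    calc ∑ q ∈ P₂.filter (fun q => ∃ n ∈ Ioc d c, n ∈ B ∧ q ∣ n),
          ((c.choose L).factorization q : ℝ) * Real.log q ≤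
        ∑ q ∈ P₂.filter (fun q => ∃ n ∈ Ioc d c, n ∈ B ∧ q ∣ n),
          ∑ n ∈ (Ioc d c).filter (fun n => n ∈ B), (n.factorization q : ℝ) * Real.log q := by
          apply Finset.sum_le_sum
          intro q hq
          simp only [mem_filter] at hq
          obtain ⟨hq2, n, hn, hnB, hqn⟩ := hq
          have hq1 : q.Prime := by
            simp only [hP₂, mem_filter] at hq2
            exact hpr q hq2.1
          have hlq : 0 ≤ Real.log q := Real.log_nonneg (by exact_mod_cast hq1.one_le)
          rw [hfac q hq2, sum_factorization_eq (hLq q hq2) hn hqn]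
          have hsl := Finset.single_le_sum (s := (Ioc d c).filter (fun n => n ∈ B))
            (f := fun n : ℕ => (n.factorization q : ℝ) * Real.log q)
            (by
              intro i _
              positivity) (a := n) (by
              simp only [mem_filter]
              exact ⟨hn, hnB⟩)
          exact hsl
      _ = ∑ n ∈ (Ioc d c).filter (fun n => n ∈ B),
            ∑ q ∈ P₂.filter (fun q => ∃ n ∈ Ioc d c, n ∈ B ∧ q ∣ n),
              (n.factorization q : ℝ) * Real.log q := Finset.sum_comm
      _ ≤ ∑ n ∈ (Ioc d c).filter (fun n => n ∈ B), Real.log x := by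
          apply Finset.sum_le_sum
          intro n hn
          simp only [mem_filter, mem_Ioc] at hn
          refine (sum_factorization_mul_log_le (by omega)).trans ?_
          apply Real.log_le_log (by exact_mod_cast (by omega : 0 < n))
          exact_mod_cast (by omega : n ≤ x)
      _ = _ := by rw [Finset.sum_const, nsmul_eq_mul]
  -- good part
  have s3 : ∑ q ∈ P₂.filter (fun q => ¬ ∃ n ∈ Ioc d c, n ∈ B ∧ q ∣ n),
      ((c.choose L).factorization q : ℝ) * Real.log q ≤
      ((m - b : ℕ) : ℝ) * Real.log x + Chebyshev.theta e := by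
    set G := P₂.filter (fun q => ¬ ∃ n ∈ Ioc d c, n ∈ B ∧ q ∣ n) with hG
    have hG1 : ∀ q ∈ G, q.Prime ∧ (c.choose L).factorization q = 1 ∧
        ((∃ n' ∈ Ioc b m, q ∣ n') ∨ q ≤ e) := by
      intro q hq
      simp only [hG, mem_filter] at hq
      obtain ⟨hq2, hq3⟩ := hq
      have hq2' := hq2
      simp only [hP₂, mem_filter, not_le] at hq2'
      have hq1 : q.Prime := hpr q hq2'.1
      have hdvd : q ∣ c.choose L := Nat.dvd_of_mem_primeFactors hq2'.1
      have hdvd2 : q ∣ ∏ n ∈ Ioc d c, n := by
        rw [← hdL, prod_Ioc_eq_factorial_mul_choose, hdL]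
        exact hdvd.mul_left _
      obtain ⟨n, hn, hqn⟩ := (hq1.prime.dvd_finsetProd_iff _).mp hdvd2
      have hn' := hn
      simp only [mem_Ioc] at hn'
      have hnB : n ∉ B := fun h => hq3 ⟨n, hn, h, hqn⟩
      have hv : n.factorization q = 1 := by
        have h3 : 1 ≤ n.factorization q := (hq1.dvd_iff_one_le_factorization (by omega)).mp hqn
        by_contra hne
        have h4 : q ^ 2 ∣ n :=
          (hq1.pow_dvd_iff_le_factorization (by omega)).mpr (by omega)
        exact hnB (hB n hn ⟨q, hq1, hq2'.2, h4⟩)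
      refine ⟨hq1, ?_, ?_⟩
      · rw [hfac q hq2, sum_factorization_eq (hLq q hq2) hn hqn, hv]
      · rcases hrep.match2 (q := q) (n := n) (hLq q hq2) hn (by rw [hv]; decide) with h5 | h5
        · exact Or.inl h5
        · right
          by_contra h6
          push Not at h6
          apply h5
          rw [factorization_factorial_eq_zero h6]
          exact Even.zero
    calc ∑ q ∈ G, ((c.choose L).factorization q : ℝ) * Real.log q = ∑ q ∈ G, Real.log q := by
          apply Finset.sum_congr rfl
          intro q hq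
          rw [(hG1 q hq).2.1]; simp
      _ = ∑ q ∈ G.filter (fun q => q ≤ e), Real.log q +
          ∑ q ∈ G.filter (fun q => ¬ q ≤ e), Real.log q :=
          (Finset.sum_filter_add_sum_filter_not _ _ _).symm
      _ ≤ Chebyshev.theta e + ((m - b : ℕ) : ℝ) * Real.log x := by
          apply add_le_add
          · apply sum_log_primes_le_theta
            intro q hq
            simp only [mem_filter] at hq
            exact ⟨(hG1 q hq.1).1, hq.2⟩
          · apply sum_log_dvd_Ioc (x := x) r1.le (by exact_mod_cast hmx) (by exact_mod_cast hx1)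
            intro q hq
            simp only [mem_filter] at hq
            refine ⟨(hG1 q hq.1).1, ?_⟩
            rcases (hG1 q hq.1).2.2 with h6 | h6
            · exact h6
            · exact absurd h6 hq.2
      _ = _ := by ring
  calc _ ≤ (((Ioc 0 L).filter Nat.Prime).card : ℝ) * Real.log x +
        ((((Ioc d c).filter (fun n => n ∈ B)).card : ℝ) * Real.log x +
        (((m - b : ℕ) : ℝ) * Real.log x + Chebyshev.theta e)) :=
        add_le_add s1 (add_le_add s2 s3)
    _ = _ := by ring

end D6
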