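import Mathlib
import Pool.Agent.H90.D6.Count
import Pool.Agent.H90.D6.PntLite
import Pool.Agent.H86.GoodDensity

open Finset Filter

namespace D6

theorem good_iff (A k : ℕ) : Pool.Agent.H86.D6.Good A k ↔ Good A k := Iff.rfl

open Classical in
/-- the primes `p` with `k p ∈ (x/2, x]` -/
noncomputable def Pk (x k : ℕ) : Finset ℕ :=
  (Icc 1 x).filter (fun p => p.Prime ∧ x < 2 * (k * p) ∧ k * p ≤ x)

theorem Pk_card : ∃ c : ℝ, 0 < c ∧ ∀ᶠ x : ℕ in atTop, ∀ k : ℕ, 1 ≤ k → k ^ 100 ≤ x →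
    c * x / (k * Real.log x) ≤ (Pk x k).card := by
  obtain ⟨c, hc, Y, hY⟩ := pnt_lite (1 / 2) (by norm_num) (by norm_num)
  refine ⟨c, hc, ?_⟩
  filter_upwards [ev_const_le (max Y 3) 0.99 (by norm_num), eventually_ge_atTop 3] with x hx hx3 k hk1 hk
  have hx3' : (3 : ℝ) ≤ x := by exact_mod_cast hx3
  have hx0 : (0 : ℝ) < x := by linarith
  have hk1' : (1 : ℝ) ≤ k := by exact_mod_cast hk1
  have hk0 : (0 : ℝ) < k := by linarith
  have hlog : 0 < Real.log x := Real.log_pos (by linarith)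
  have hkx := k_le_rpow hk
  set y : ℝ := x / k with hy
  have hy99 : (x : ℝ) ^ (0.99 : ℝ) ≤ y := by
    rw [hy, le_div_iff₀ hk0]
    calc (x : ℝ) ^ (0.99 : ℝ) * k ≤ (x : ℝ) ^ (0.99 : ℝ) * (x : ℝ) ^ (0.01 : ℝ) :=
          mul_le_mul_of_nonneg_left hkx (by positivity)
      _ = x := by
          rw [← Real.rpow_add hx0]
          norm_num
  have hyY : Y ≤ y := le_trans (le_trans (le_max_left _ _) hx) hy99
  have hy3 : 3 ≤ y := le_trans (le_trans (le_max_right _ _) hx) hy99
  have hyx : y ≤ x := by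
    rw [hy, div_le_iff₀ hk0]
    nlinarith
  have h1 := hY y hyY
  have h2 : Chebyshev.theta y - Chebyshev.theta (1 / 2 * y) ≤ (Pk x k).card * Real.log x := by
    rw [Chebyshev.theta, Chebyshev.theta]
    have hsub : (Ioc 0 ⌊1 / 2 * y⌋₊).filter Nat.Prime ⊆ (Ioc 0 ⌊y⌋₊).filter Nat.Prime := by
      apply Finset.filter_subset_filter
      apply Finset.Ioc_subset_Ioc_right
      apply Nat.floor_mono
      linarith
    rw [← Finset.sum_sdiff hsub, add_sub_cancel_right]
    have h3 : ((Ioc 0 ⌊y⌋₊).filter Nat.Prime) \ ((Ioc 0 ⌊1 / 2 * y⌋₊).filter Nat.Prime) ⊆ Pk x k := by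
      intro p hp
      rw [Finset.mem_sdiff, Finset.mem_filter, Finset.mem_filter, Finset.mem_Ioc, Finset.mem_Ioc] at hp
      simp only [Pk, Finset.mem_filter, mem_Icc]
      obtain ⟨⟨⟨hp0, hpy⟩, hpp⟩, hp2⟩ := hp
      have hpy' : (p : ℝ) ≤ y := (Nat.le_floor_iff (by linarith)).mp hpy
      have hp3 : ¬ (p ≤ ⌊1 / 2 * y⌋₊) := fun h => hp2 ⟨⟨hp0, h⟩, hpp⟩
      have hp4 : 1 / 2 * y < p := by
        by_contra h
        push Not at h
        exact hp3 (Nat.le_floor h)
      have hkp : (k : ℝ) * p ≤ x := by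
        rw [hy, le_div_iff₀ hk0] at hpy'
        linarith
      have hkp2 : (x : ℝ) < 2 * (k * p) := by
        rw [hy] at hp4
        have := mul_lt_mul_of_pos_left hp4 hk0
        field_simp at this
        linarith
      refine ⟨⟨by omega, ?_⟩, hpp, by exact_mod_cast hkp2, by exact_mod_cast hkp⟩
      have : (p : ℝ) ≤ x := le_trans hpy' hyx
      exact_mod_cast this
    calc ∑ p ∈ ((Ioc 0 ⌊y⌋₊).filter Nat.Prime) \ ((Ioc 0 ⌊1 / 2 * y⌋₊).filter Nat.Prime), Real.log p
        ≤ ∑ p ∈ Pk x k, Real.log p := by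
          apply Finset.sum_le_sum_of_subset_of_nonneg h3
          intro p hp _
          exact Real.log_natCast_nonneg p
      _ ≤ ∑ p ∈ Pk x k, Real.log x := by
          apply Finset.sum_le_sum
          intro p hp
          simp only [Pk, mem_filter, mem_Icc] at hp
          apply Real.log_le_log
          · have : 0 < p := hp.1.1
            exact_mod_cast this
          · exact_mod_cast hp.1.2
      _ = (Pk x k).card * Real.log x := by
          rw [Finset.sum_const, nsmul_eq_mul]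
  rw [div_le_iff₀ (by positivity)]
  have h4 : c * y ≤ (Pk x k).card * Real.log x := le_trans h1 h2
  have h5 : c * x = (c * y) * k := by rw [hy]; field_simp
  rw [h5]
  calc c * y * k ≤ (Pk x k).card * Real.log x * k := mul_le_mul_of_nonneg_right h4 hk0.le
    _ = (Pk x k).card * (k * Real.log x) := by ring

open Classical in
/-- the family -/
noncomputable def MM (A x : ℕ) : Finset ℕ := (Icc 1 x).filter (fun m => InM A x m)

open Classical in
theorem MM_card : ∃ c : ℝ, 0 < c ∧ ∃ A₀ : ℕ, ∀ A : ℕ, A₀ ≤ A → ∀ᶠ x : ℕ in atTop,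
    c / Real.sqrt A * x ≤ ((MM A x).card : ℝ) := by
  obtain ⟨c, hc, hP⟩ := Pk_card
  obtain ⟨A₀, hA₀⟩ := Pool.Agent.H86.D6.good_density
  refine ⟨c * 0.005 / 8, by positivity, A₀ + 1, ?_⟩
  intro A hA
  obtain ⟨Y₀, hY₀⟩ := hA₀ A (by omega)
  have hA1 : 0 < Real.sqrt A := by
    apply Real.sqrt_pos.mpr
    have : 0 < A := by omega
    exact_mod_cast this
  filter_upwards [hP, ev_const_le (Y₀ + 1 + 2) 0.01 (by norm_num), ev_le_log (200 * Real.log 2),
    eventually_ge_atTop 3] with x hPx hxY hxl hx3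
  have hx3' : (3 : ℝ) ≤ x := by exact_mod_cast hx3
  have hx0 : (0 : ℝ) < x := by linarith
  have hlog : 0 < Real.log x := Real.log_pos (by linarith)
  set Y := ⌊(x : ℝ) ^ (0.01 : ℝ)⌋₊ with hYdef
  have hr0 : 0 ≤ (x : ℝ) ^ (0.01 : ℝ) := by positivity
  have hYle : (Y : ℝ) ≤ (x : ℝ) ^ (0.01 : ℝ) := Nat.floor_le hr0
  have hYge : (x : ℝ) ^ (0.01 : ℝ) < Y + 1 := Nat.lt_floor_add_one _
  have hYY₀ : Y₀ ≤ Y := by
    apply Nat.le_floor
    linarith
  have hk100 : ∀ k ≤ Y, k ^ 100 ≤ x := by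
    intro k hk
    have h1 : (k : ℝ) ≤ (x : ℝ) ^ (0.01 : ℝ) := le_trans (by exact_mod_cast hk) hYle
    have h2 : (k : ℝ) ^ 100 ≤ ((x : ℝ) ^ (0.01 : ℝ)) ^ 100 := pow_le_pow_left₀ (by positivity) h1 _
    rw [← Real.rpow_natCast ((x : ℝ) ^ (0.01 : ℝ)) 100, ← Real.rpow_mul hx0.le] at h2
    norm_num at h2
    exact_mod_cast h2
  have hd := hY₀ Y hYY₀
  have hlogY : 0.005 * Real.log x ≤ Real.log Y := by
    have h1 : (x : ℝ) ^ (0.01 : ℝ) / 2 ≤ Y := by linarith
    have h2 : Real.log ((x : ℝ) ^ (0.01 : ℝ) / 2) ≤ Real.log Y :=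
      Real.log_le_log (by positivity) h1
    rw [Real.log_div (by positivity) (by norm_num), Real.log_rpow hx0] at h2
    linarith
  -- the injection
  set G := (Finset.Icc 2 Y).filter (Good A) with hG
  have hcard : (G.sigma (fun k => Pk x k)).card ≤ (MM A x).card := by
    apply Finset.card_le_card_of_injOn (fun s => s.1 * s.2)
    · rintro ⟨k, p⟩ hs
      simp only [coe_sigma, Set.mem_sigma_iff, mem_coe, hG, mem_filter, mem_Icc, Pk] at hs
      obtain ⟨⟨⟨hk2, hkY⟩, hkG⟩, ⟨hp1, hpx⟩, hpp, h1, h2⟩ := hs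
      simp only [MM, coe_filter, Set.mem_ofPred_eq, mem_Icc]
      refine ⟨⟨?_, h2⟩, ?_⟩
      · have : 0 < k * p := Nat.mul_pos (by omega) (by omega)
        exact this
      · refine ⟨h1, h2, k, p, rfl, hpp, hkG, hk2, hk100 k hkY⟩
    · rintro ⟨k, p⟩ hs ⟨k', p'⟩ hs' heq
      simp only [coe_sigma, Set.mem_sigma_iff, mem_coe, hG, mem_filter, mem_Icc, Pk] at hs hs'
      obtain ⟨⟨⟨hk2, hkY⟩, hkG⟩, ⟨hp1, hpx⟩, hpp, h1, h2⟩ := hs
      obtain ⟨⟨⟨hk2', hkY'⟩, hkG'⟩, ⟨hp1', hpx'⟩, hpp', h1', h2'⟩ := hs'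
      simp only at heq
      have key : ∀ a b q : ℕ, 2 ≤ a → a ≤ Y → b ≤ Y → 1 ≤ q → x < 2 * (a * q) → b < q := by
        intro a b q ha haY hbY hq hx1
        by_contra hcon
        push Not at hcon
        have h3 : a * q ≤ Y * Y := Nat.mul_le_mul haY (le_trans hcon hbY)
        have h4 : Y ^ 100 ≤ x := hk100 Y le_rfl
        have hY2 : 2 ≤ Y := le_trans ha haY
        have h5 : Y ^ 3 ≤ Y ^ 100 := Nat.pow_le_pow_right (by omega) (by norm_num)
        have h6 : 2 * (Y * Y) ≤ Y ^ 3 := by nlinarith [Nat.mul_le_mul_right (Y * Y) hY2]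
        omega
      have hb1 : k' < p := key k k' p hk2 hkY hkY' hp1 h1
      have hpd : p ∣ k' * p' := by rw [← heq]; exact Dvd.intro_left k rfl
      rcases (Nat.Prime.dvd_mul hpp).mp hpd with h3 | h3
      · exfalso
        have := Nat.le_of_dvd (by omega) h3
        omega
      · have h4 : p = p' := (Nat.prime_dvd_prime_iff_eq hpp hpp').mp h3
        subst h4
        have h5 : k = k' := Nat.eq_of_mul_eq_mul_right hpp.pos heq
        subst h5
        rfl
  have hsum : ((G.sigma (fun k => Pk x k)).card : ℝ) = ∑ k ∈ G, ((Pk x k).card : ℝ) := by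
    rw [Finset.card_sigma]
    push_cast
    rfl
  have hG' : ∑ k ∈ (Finset.Icc 2 Y).filter (Pool.Agent.H86.D6.Good A), (1 / (k : ℝ)) =
      ∑ k ∈ G, (1 / (k : ℝ)) := by
    rw [hG]
    apply Finset.sum_congr _ (fun _ _ => rfl)
    ext k
    simp only [mem_filter]
    rfl
  calc c * 0.005 / 8 / Real.sqrt A * x = c * x / Real.log x * ((1 / 8) * (0.005 * Real.log x) / Real.sqrt A) := by
        field_simp
    _ ≤ c * x / Real.log x * ((1 / 8) * Real.log Y / Real.sqrt A) := by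
        apply mul_le_mul_of_nonneg_left _ (by positivity)
        apply div_le_div_of_nonneg_right _ hA1.le
        linarith
    _ ≤ c * x / Real.log x * ∑ k ∈ G, (1 / (k : ℝ)) := by
        apply mul_le_mul_of_nonneg_left _ (by positivity)
        rw [← hG']
        exact hd
    _ = ∑ k ∈ G, c * x / (k * Real.log x) := by
        rw [Finset.mul_sum]
        apply Finset.sum_congr rfl
        intro k hk
        simp only [hG, mem_filter, mem_Icc] at hk
        have : (0 : ℝ) < k := by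
          have : 0 < k := by omega
          exact_mod_cast this
        field_simp
    _ ≤ ∑ k ∈ G, ((Pk x k).card : ℝ) := by
        apply Finset.sum_le_sum
        intro k hk
        simp only [hG, mem_filter, mem_Icc] at hk
        exact hPx k (by omega) (hk100 k hk.1.2)
    _ = ((G.sigma (fun k => Pk x k)).card : ℝ) := hsum.symm
    _ ≤ ((MM A x).card : ℝ) := by exact_mod_cast hcard

end D6
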