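import Mathlib
import Pool.Agent.H90.D6.Pop
import Pool.Agent.H86.PropD
import Pool.Agent.H2.D6.PropE

open Finset Filter

namespace D6

/-- isolated elements -/
theorem iso_card (A x : ℕ) (hA : 0 < A) (I : Finset ℕ) (hI : ∀ m ∈ I, m ≤ x)
    (hsep : ∀ m ∈ I, ∀ m' ∈ I, m' < m → A ≤ m - m') : (I.card : ℝ) ≤ x / A + 1 := by
  have h1 : I.card ≤ (range (x / A + 1)).card := by
    apply Finset.card_le_card_of_injOn (fun m => m / A)
    · intro m hm
      simp only [coe_range, Set.mem_Iio]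
      have := hI m hm
      exact Nat.lt_succ_of_le (Nat.div_le_div_right this)
    · intro m hm m' hm' heq
      simp only at heq
      by_contra hne
      rcases lt_or_gt_of_ne hne with h | h
      · have h2 := hsep m' hm' m hm h
        have h3 := Nat.div_add_mod m A
        have h4 := Nat.div_add_mod m' A
        have h5 := Nat.mod_lt m hA
        have h6 := Nat.mod_lt m' hA
        rw [heq] at h3
        omega
      · have h2 := hsep m hm m' hm' h
        have h3 := Nat.div_add_mod m A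
        have h4 := Nat.div_add_mod m' A
        have h5 := Nat.mod_lt m hA
        have h6 := Nat.mod_lt m' hA
        rw [heq] at h3
        omega
  rw [card_range] at h1
  calc (I.card : ℝ) ≤ ((x / A + 1 : ℕ) : ℝ) := by exact_mod_cast h1
    _ = ((x / A : ℕ) : ℝ) + 1 := by push_cast; ring
    _ ≤ x / A + 1 := by
        have := Nat.cast_div_le (α := ℝ) (m := x) (n := A)
        linarith

/-- the statement of regime C -/
def PropCStatement : Prop := ∀ A : ℕ, ∀ᶠ x : ℕ in atTop, ∀ B : Finset ℕ,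
  (∀ m ∈ B, InM A x m ∧ ∃ b c d e, Rep m b c d e ∧ m - b < A ∧
    (x : ℝ) ^ (0.1 : ℝ) ≤ ((c - d : ℕ) : ℝ)) → (B.card : ℝ) ≤ (x : ℝ) ^ (0.995 : ℝ)

open Classical in
/-- elements of the family without representation -/
noncomputable def NR (A x : ℕ) : Finset ℕ :=
  (MM A x).filter (fun m => ¬ ∃ b c d e, Rep m b c d e)

open Classical in
theorem mem_NR {A x m : ℕ} (h : m ∈ NR A x) :
    InM A x m ∧ m ≤ x ∧ ¬ ∃ b c d e, Rep m b c d e := by
  rw [NR, Finset.mem_filter, MM, Finset.mem_filter] at h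
  exact ⟨h.1.2, h.1.2.2.1, h.2⟩

open Classical in
theorem NR_card (hC : PropCStatement) : ∃ c : ℝ, 0 < c ∧ ∃ A : ℕ, ∀ᶠ x : ℕ in atTop,
    c * x < ((NR A x).card : ℝ) := by
  obtain ⟨c₂, hc₂, A₀, hM⟩ := MM_card
  -- choice of `A`
  obtain ⟨A₁, hA₁⟩ := exists_nat_gt ((2 / c₂) ^ 2)
  set A := A₀ + A₁ + 1 with hAdef
  have hA0 : 0 < A := by omega
  have hA0' : (0 : ℝ) < A := by exact_mod_cast hA0
  have hsA : 0 < Real.sqrt A := Real.sqrt_pos.mpr hA0'
  have hA2 : (2 / c₂) ^ 2 < A := by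
    have : (A₁ : ℝ) ≤ A := by
      have : A₁ ≤ A := by omega
      exact_mod_cast this
    linarith
  have hA3 : 2 / c₂ < Real.sqrt A := Real.lt_sqrt_of_sq_lt hA2
  have hA4 : 2 / (A : ℝ) ≤ c₂ / Real.sqrt A := by
    rw [div_le_div_iff₀ hA0' hsA]
    have h1 : Real.sqrt A * Real.sqrt A = A := Real.mul_self_sqrt hA0'.le
    have h2 : 2 < c₂ * Real.sqrt A := by
      rw [div_lt_iff₀ hc₂] at hA3
      linarith
    nlinarith
  obtain ⟨L₀, hD⟩ := propD A
  refine ⟨1 / (4 * A), by positivity, A, ?_⟩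
  filter_upwards [hM A (by omega), propB A, hC A, hD, propE A L₀,
    ev_le0 (12 * A) 0.995 1 (by norm_num), ev_const_le (4 * A) 1 (by norm_num),
    eventually_ge_atTop 3] with x hMx hBx hCx hDx hEx hx1 hx2 hx3
  have hx3' : (3 : ℝ) ≤ x := by exact_mod_cast hx3
  have hx0 : (0 : ℝ) < x := lt_of_lt_of_le (by norm_num) hx3'
  rw [Real.rpow_one] at hx1 hx2
  set M := MM A x with hMdef
  have hMin : ∀ m ∈ M, InM A x m := by
    intro m hm
    simp only [hMdef, MM, Finset.mem_filter] at hm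
    exact hm.2
  set I := M.filter (fun m => ∀ m' ∈ M, m' < m → A ≤ m - m') with hI
  set BC := M.filter (fun m => ∃ b c d e, Rep m b c d e ∧ m - b < A ∧
    (x : ℝ) ^ (0.1 : ℝ) ≤ ((c - d : ℕ) : ℝ)) with hBC
  set BD := M.filter (fun m => ∃ b c d e, Rep m b c d e ∧ m - b < A ∧ L₀ ≤ c - d ∧
    ((c - d : ℕ) : ℝ) ≤ (x : ℝ) ^ (0.1 : ℝ)) with hBD
  set BE := M.filter (fun m => ∃ b c d e, Rep m b c d e ∧ m - b < A ∧ c - d < L₀) with hBE
  have hIc : (I.card : ℝ) ≤ x / A + 1 := by
    apply iso_card A x hA0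
    · intro m hm
      rw [hI, Finset.mem_filter] at hm
      exact (hMin m hm.1).2.1
    · intro m hm m' hm' hlt
      rw [hI, Finset.mem_filter] at hm hm'
      exact hm.2 m' hm'.1 hlt
  have hCc : (BC.card : ℝ) ≤ (x : ℝ) ^ (0.995 : ℝ) := by
    apply hCx
    intro m hm
    rw [hBC, Finset.mem_filter] at hm
    exact ⟨hMin m hm.1, hm.2⟩
  have hDc : (BD.card : ℝ) ≤ (x : ℝ) ^ (0.995 : ℝ) := by
    apply hDx
    intro m hm
    rw [hBD, Finset.mem_filter] at hm
    exact ⟨hMin m hm.1, hm.2⟩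
  have hEc : (BE.card : ℝ) ≤ (x : ℝ) ^ (0.995 : ℝ) := by
    apply hEx
    intro m hm
    rw [hBE, Finset.mem_filter] at hm
    exact ⟨hMin m hm.1, hm.2⟩
  have hcover : M ⊆ NR A x ∪ (I ∪ (BC ∪ (BD ∪ BE))) := by
    intro m hm
    by_cases h1 : m ∈ NR A x
    · exact Finset.mem_union_left _ h1
    apply Finset.mem_union_right
    by_cases h2 : m ∈ I
    · exact Finset.mem_union_left _ h2
    apply Finset.mem_union_right
    rw [NR, Finset.mem_filter, not_and, not_not] at h1
    obtain ⟨b, c, d, e, hrep⟩ := h1 hm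
    rw [hI, Finset.mem_filter, not_and] at h2
    have h3 := h2 hm
    push Not at h3
    obtain ⟨m', hm', hlt, hmA⟩ := h3
    have hb : m - b < A := by
      by_contra hcon
      push Not at hcon
      exact hBx m m' b c d e (hMin m hm) (hMin m' hm') hlt hmA hrep hcon
    by_cases h4 : (x : ℝ) ^ (0.1 : ℝ) ≤ ((c - d : ℕ) : ℝ)
    · apply Finset.mem_union_left
      rw [hBC, Finset.mem_filter]
      exact ⟨hm, b, c, d, e, hrep, hb, h4⟩
    apply Finset.mem_union_right
    by_cases h5 : c - d < L₀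
    · apply Finset.mem_union_right
      rw [hBE, Finset.mem_filter]
      exact ⟨hm, b, c, d, e, hrep, hb, h5⟩
    · apply Finset.mem_union_left
      rw [hBD, Finset.mem_filter]
      exact ⟨hm, b, c, d, e, hrep, hb, by omega, by linarith⟩
  have hcard : (M.card : ℝ) ≤ (NR A x).card + ((I.card : ℝ) + ((BC.card : ℝ) +
      ((BD.card : ℝ) + (BE.card : ℝ)))) := by
    have h1 : M.card ≤ (NR A x).card + (I.card + (BC.card + (BD.card + BE.card))) := by
      calc M.card ≤ (NR A x ∪ (I ∪ (BC ∪ (BD ∪ BE)))).card := Finset.card_le_card hcover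
        _ ≤ (NR A x).card + (I ∪ (BC ∪ (BD ∪ BE))).card := Finset.card_union_le _ _
        _ ≤ (NR A x).card + (I.card + (BC ∪ (BD ∪ BE)).card) := by
            gcongr; exact Finset.card_union_le _ _
        _ ≤ (NR A x).card + (I.card + (BC.card + (BD ∪ BE).card)) := by
            gcongr; exact Finset.card_union_le _ _
        _ ≤ (NR A x).card + (I.card + (BC.card + (BD.card + BE.card))) := by
            gcongr; exact Finset.card_union_le _ _
    exact_mod_cast h1
  have h2A : 2 / (A : ℝ) * x ≤ c₂ / Real.sqrt A * x := mul_le_mul_of_nonneg_right hA4 hx0.le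
  have hMx' : 2 / (A : ℝ) * x ≤ M.card := le_trans h2A hMx
  have e1 : 2 / (A : ℝ) * x = 2 * (x / A) := by ring
  have e2 : 1 / (4 * (A : ℝ)) * x = (x / A) / 4 := by field_simp
  have h6 : 3 * (x : ℝ) ^ (0.995 : ℝ) ≤ (x / A) / 4 := by
    rw [div_div, le_div_iff₀ (by positivity)]
    linarith
  have h7 : 1 ≤ (x / A : ℝ) / 4 := by
    rw [div_div, le_div_iff₀ (by positivity)]
    linarith
  rw [e2]
  have h8 : 0 < (x / A : ℝ) := by positivity
  linarith

end D6
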