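import Mathlib
import Pool.Agent.H86.TrigVar

namespace D6

open Classical in
/-- T3: trigonometric variance bound -/
theorem trig_variance :
    ∃ C : ℝ, 0 < C ∧ ∀ (x E Λ : ℕ) (P Z : Finset ℕ),
      100 ≤ E → 1000 * Λ ≤ E → 1 ≤ x →
      (∀ q ∈ P, q.Prime ∧ E < 2 * q ∧ q ≤ E) →
      (∀ n ∈ Z, n ≤ x) →
      (∀ n ∈ Z, P.card ≤
        2 * (P.filter (fun q : ℕ => ∃ a : ℤ, |(n : ℤ) - a * (q : ℤ)| ≤ (Λ : ℤ))).card) →
      (Z.card : ℝ) * (P.card : ℝ) ^ 2 ≤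
        C * ((x : ℝ) * P.card + (E : ℝ) ^ 3 * (1 + Real.log E)) :=
  Pool.Agent.H86.D6.trig_variance

end D6
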