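import Mathlib
import Pool.Agent.H90.D6.ELower
import Pool.Agent.H90.D6.Trig

open Finset Filter

namespace D6

/-- primes in `(17/32 E, E]` -/
def PE (E : ℕ) : Finset ℕ := (Icc 1 E).filter (fun q => q.Prime ∧ 17 * E < 32 * q)

theorem PE_card : ∃ c₂ : ℝ, 0 < c₂ ∧ ∃ Y : ℝ, ∀ E : ℕ, Y ≤ E → 2 ≤ E →
    c₂ * E ≤ (PE E).card * Real.log E := by
  obtain ⟨c₂, hc₂, Y, hY⟩ := pnt_lite (17 / 32) (by norm_num) (by norm_num)
  refine ⟨c₂, hc₂, Y, fun E hE hE2 => ?_⟩
  have h1 := hY E hE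
  have h2 := theta_sub_le (a := 17 / 32 * E) (y := E) (by positivity) (PE E) (by
    intro q hq
    simp only [PE, mem_filter, mem_Icc] at hq
    exact hq.1.1) (by
    intro q hq hq1 hq2
    simp only [PE, mem_filter, mem_Icc]
    refine ⟨⟨hq.one_le, by exact_mod_cast hq2⟩, hq, ?_⟩
    have : (17 : ℝ) * E < 32 * q := by linarith
    exact_mod_cast this)
  have h3 : ∑ q ∈ PE E, Real.log q ≤ (PE E).card * Real.log E := by
    rw [← nsmul_eq_mul, ← Finset.sum_const]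
    apply Finset.sum_le_sum
    intro q hq
    simp only [PE, mem_filter, mem_Icc] at hq
    exact Real.log_le_log (by exact_mod_cast hq.1.1) (by exact_mod_cast hq.1.2)
  linarith

open Classical in
/-- numbers close to multiples of most primes in `PE E` -/
noncomputable def ZE (x E Λ : ℕ) : Finset ℕ :=
  (Icc 1 x).filter (fun n => (PE E).card ≤
    2 * ((PE E).filter (fun q : ℕ => ∃ a : ℤ, |(n : ℤ) - a * (q : ℤ)| ≤ (Λ : ℤ))).card)

theorem ZE_card : ∀ᶠ x : ℕ in atTop, ∀ E Λ : ℕ, (x : ℝ) ^ (0.1 : ℝ) ≤ E →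
    (E : ℝ) ≤ (x : ℝ) ^ (0.975 : ℝ) → 1000 * Λ ≤ E →
    ((ZE x E Λ).card : ℝ) ≤ (x : ℝ) ^ (0.98 : ℝ) := by
  obtain ⟨C, hC, hT⟩ := trig_variance
  obtain ⟨c₂, hc₂, Y, hY⟩ := PE_card
  filter_upwards [ev_const_le Y 0.1 (by norm_num), ev_const_le 100 0.1 (by norm_num),
    eventually_ge_atTop 3, ev_le (2 * C / c₂) 0.9 0.98 1 (by norm_num),
    ev_le (4 * C / c₂ ^ 2) 0.975 0.98 3 (by norm_num)]
    with x hxY hx100 hx3 hxa hxb E Λ hE1 hE2 hΛ
  have hx3' : (3 : ℝ) ≤ x := by exact_mod_cast hx3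
  have hx0 : (0 : ℝ) < x := by linarith
  have hlogx1 : 1 ≤ Real.log x := by
    rw [Real.le_log_iff_exp_le hx0]
    have := Real.exp_one_lt_d9
    linarith
  have hE100 : (100 : ℝ) ≤ E := hx100.trans hE1
  have hE100' : 100 ≤ E := by exact_mod_cast hE100
  have hE0 : (0 : ℝ) < E := by linarith
  have h1 := hY E (hxY.trans hE1) (by omega)
  have h2 := hT x E Λ (PE E) (ZE x E Λ) hE100' hΛ (by omega) (by
    intro q hq
    simp only [PE, mem_filter, mem_Icc] at hq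
    exact ⟨hq.2.1, by omega, hq.1.2⟩) (by
    intro n hn
    simp only [ZE, mem_filter, mem_Icc] at hn
    exact hn.1.2) (by
    intro n hn
    simp only [ZE, mem_filter, mem_Icc] at hn
    exact hn.2)
  have hEx : (E : ℝ) ≤ x := by
    calc (E : ℝ) ≤ (x : ℝ) ^ (0.975 : ℝ) := hE2
      _ ≤ (x : ℝ) ^ (1 : ℝ) := Real.rpow_le_rpow_of_exponent_le (by linarith) (by norm_num)
      _ = x := Real.rpow_one _
  have hlogE : Real.log E ≤ Real.log x := Real.log_le_log hE0 hEx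
  have hlogE0 : 0 < Real.log E := Real.log_pos (by linarith)
  set N : ℝ := ((PE E).card : ℝ) with hN
  have hNlow : c₂ * E ≤ N * Real.log x := h1.trans (mul_le_mul_of_nonneg_left hlogE (by positivity))
  have hNpos : 0 < N := by
    by_contra hcon
    push Not at hcon
    have : N = 0 := le_antisymm hcon (by positivity)
    rw [this, zero_mul] at hNlow
    have : 0 < c₂ * E := by positivity
    linarith
  have hlogx0 : 0 < Real.log x := by linarith
  -- divide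
  have h3 : ((ZE x E Λ).card : ℝ) ≤ C * (x / N + (E : ℝ) ^ 3 * (1 + Real.log E) / N ^ 2) := by
    have e1 : C * (x / N + (E : ℝ) ^ 3 * (1 + Real.log E) / N ^ 2) =
        C * ((x : ℝ) * N + (E : ℝ) ^ 3 * (1 + Real.log E)) / N ^ 2 := by
      field_simp
    rw [e1, le_div_iff₀ (by positivity)]
    exact h2
  have h4 : x / N ≤ (x : ℝ) ^ (0.9 : ℝ) * Real.log x / c₂ := by
    rw [div_le_div_iff₀ hNpos hc₂]
    calc (x : ℝ) * c₂ = (x : ℝ) ^ (0.9 : ℝ) * ((x : ℝ) ^ (0.1 : ℝ) * c₂) := by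
          rw [← mul_assoc, ← Real.rpow_add hx0]; norm_num
      _ ≤ (x : ℝ) ^ (0.9 : ℝ) * (c₂ * E) := by
          apply mul_le_mul_of_nonneg_left _ (by positivity)
          rw [mul_comm c₂]
          exact mul_le_mul_of_nonneg_right hE1 hc₂.le
      _ ≤ (x : ℝ) ^ (0.9 : ℝ) * (N * Real.log x) :=
          mul_le_mul_of_nonneg_left hNlow (by positivity)
      _ = _ := by ring
  have h5 : (E : ℝ) ^ 3 * (1 + Real.log E) / N ^ 2 ≤
      2 * (x : ℝ) ^ (0.975 : ℝ) * Real.log x ^ 3 / c₂ ^ 2 := by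
    rw [div_le_div_iff₀ (by positivity) (by positivity)]
    have g1 : (c₂ * E) ^ 2 ≤ (N * Real.log x) ^ 2 :=
      pow_le_pow_left₀ (by positivity) hNlow 2
    calc (E : ℝ) ^ 3 * (1 + Real.log E) * c₂ ^ 2 = E * (1 + Real.log E) * (c₂ * E) ^ 2 := by ring
      _ ≤ (x : ℝ) ^ (0.975 : ℝ) * (2 * Real.log x) * (N * Real.log x) ^ 2 := by
          apply mul_le_mul _ g1 (by positivity) (by positivity)
          apply mul_le_mul hE2 (by linarith) (by positivity) (by positivity)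
      _ = _ := by ring
  calc ((ZE x E Λ).card : ℝ) ≤ C * (x / N + (E : ℝ) ^ 3 * (1 + Real.log E) / N ^ 2) := h3
    _ ≤ C * ((x : ℝ) ^ (0.9 : ℝ) * Real.log x / c₂ +
        2 * (x : ℝ) ^ (0.975 : ℝ) * Real.log x ^ 3 / c₂ ^ 2) := by
        apply mul_le_mul_of_nonneg_left _ hC.le
        linarith
    _ = (2 * C / c₂ * (x : ℝ) ^ (0.9 : ℝ) * Real.log x ^ 1) / 2 +
        (4 * C / c₂ ^ 2 * (x : ℝ) ^ (0.975 : ℝ) * Real.log x ^ 3) / 2 := by
        rw [pow_one]; ring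
    _ ≤ _ := by linarith

end D6
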