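import Mathlib
import Pool.Agent.H90.D6.PropC1

open Finset Filter

namespace D6

open Classical in
/-- the matched number is close to a multiple of most primes just below `e` -/
theorem mem_ZE {x m b c d e n₀ E Λ A : ℕ} (hrep : Rep m b c d e) (hmx : m ≤ x) (hK : m - b < A)
    (hn₀ : n₀ ∈ Ioc d c) (hn₀x : n₀ ≤ x) (hLΛ : c - d ≤ Λ) (hE1 : E ≤ e) (hE2 : 16 * e < 17 * E)
    (hx : 2 ≤ x) (hlogE : 0.09 * Real.log x ≤ Real.log (17 * E / 32))
    (hPE : 24 * (A : ℝ) ≤ (PE E).card) : n₀ ∈ ZE x E Λ := by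
  have hn₀' := hn₀
  rw [mem_Ioc] at hn₀'
  have hlogx : 0 < Real.log x := Real.log_pos (by exact_mod_cast hx)
  rw [ZE, mem_filter, mem_Icc]
  refine ⟨⟨by omega, hn₀x⟩, ?_⟩
  set H := (PE E).filter (fun q : ℕ => ∃ a : ℤ, |(n₀ : ℤ) - a * (q : ℤ)| ≤ (Λ : ℤ)) with hH
  set S := (PE E).filter (fun q : ℕ => ¬ ∃ a : ℤ, |(n₀ : ℤ) - a * (q : ℤ)| ≤ (Λ : ℤ)) with hS
  have hsum : H.card + S.card = (PE E).card := Finset.card_filter_add_card_filter_not _
  have hS1 : ∀ q ∈ S, q.Prime ∧ ∃ n ∈ Ioc b m, q ∣ n := by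
    intro q hq
    simp only [hS, mem_filter, PE, mem_Icc] at hq
    obtain ⟨⟨⟨hq1, hqE⟩, hqp, hq2⟩, hq3⟩ := hq
    refine ⟨hqp, ?_⟩
    have hone := factorization_factorial_eq_one (e := e) hqp (by omega) (by omega)
    rcases hrep.match3 (q := q) (by rw [hone]; decide) with h | ⟨n, hn, hqn⟩
    · exact h
    · exfalso
      apply hq3
      obtain ⟨a, rfl⟩ := hqn
      rw [mem_Ioc] at hn
      refine ⟨(a : ℤ), ?_⟩
      have e1 : (a : ℤ) * (q : ℤ) = ((q * a : ℕ) : ℤ) := by push_cast; ring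
      rw [e1, abs_le]
      constructor <;> omega
  have hS2 : (S.card : ℝ) * (0.09 * Real.log x) ≤ A * Real.log x := by
    have h1 := sum_log_dvd_Ioc (x := x) hrep.1.le (by exact_mod_cast hmx)
      (by exact_mod_cast (by omega : 1 ≤ x)) S hS1
    have h2 : (S.card : ℝ) * (0.09 * Real.log x) ≤ ∑ q ∈ S, Real.log q := by
      rw [← nsmul_eq_mul, ← Finset.sum_const]
      apply Finset.sum_le_sum
      intro q hq
      simp only [hS, mem_filter, PE, mem_Icc] at hq
      obtain ⟨⟨⟨hq1, hqE⟩, hqp, hq2⟩, hq3⟩ := hq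
      refine hlogE.trans ?_
      have hE0 : 0 < E := by omega
      apply Real.log_le_log
      · positivity
      · have : (17 : ℝ) * E < 32 * q := by exact_mod_cast hq2
        linarith
    have h3 : ((m - b : ℕ) : ℝ) * Real.log x ≤ A * Real.log x := by
      apply mul_le_mul_of_nonneg_right _ hlogx.le
      exact_mod_cast hK.le
    linarith
  have hS3 : (S.card : ℝ) ≤ 12 * A := by
    have h1 : (S.card : ℝ) * 0.09 ≤ A := by
      have : (S.card : ℝ) * 0.09 * Real.log x ≤ A * Real.log x := by linarith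
      exact le_of_mul_le_mul_right this hlogx
    have h2 : (0 : ℝ) ≤ A := by positivity
    linarith
  have h4 : 2 * (S.card : ℝ) ≤ (PE E).card := by linarith
  have h5 : 2 * S.card ≤ (PE E).card := by exact_mod_cast h4
  omega

/-- lower bound for `e` in the second case -/
theorem e_lower {A : ℕ} : ∀ᶠ x : ℕ in atTop, ∀ m b c d e : ℕ, m ≤ x → Rep m b c d e → m - b < A →
    (x : ℝ) ^ (0.1 : ℝ) ≤ ((c - d : ℕ) : ℝ) → ((c - d : ℕ) : ℝ) ≤ (x : ℝ) ^ (0.97 : ℝ) →
    (x : ℝ) ^ (0.99 : ℝ) ≤ 2 * (c : ℝ) →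
    ((((Ioc d c).filter (fun n => n ∈ SQ ((x : ℝ) ^ (0.1 : ℝ)) x)).card : ℝ) ≤
      ((c - d : ℕ) : ℝ) / 1000) →
    0.01 * ((c - d : ℕ) : ℝ) * Real.log x ≤ e := by
  classical
  obtain ⟨C, hC, hBT⟩ := bt_weak (1 / 100) (by norm_num)
  filter_upwards [eventually_ge_atTop 3, ev_le_log (4000 * C), ev_const_le (1000 * A) 0.1 (by norm_num),
    ev_le0 2 0.019 0.02 (by norm_num), ev_le0 1 0.01 0.1 (by norm_num),
    ev_const_le 2 0.1 (by norm_num)]
    with x hx3 hxC hxA hx2 hx1 hxtwo m b c d e hmx hrep hK hL1 hL2 hc hcase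
  have hx3' : (3 : ℝ) ≤ x := by exact_mod_cast hx3
  have hx0 : (0 : ℝ) < x := by linarith
  have hlogx : 0 < Real.log x := Real.log_pos (by linarith)
  set X : ℝ := (x : ℝ) with hX
  set L : ℝ := ((c - d : ℕ) : ℝ) with hL
  have hL0 : 2 ≤ L := le_trans hxtwo hL1
  have hdc : d < c := by
    by_contra h
    have h0 : c - d = 0 := by omega
    rw [h0] at hL
    rw [hL] at hL0
    norm_num at hL0
  obtain ⟨r1, r2, r3, r4, -⟩ := id hrep
  have haux := e_lower_aux hrep hmx hdc (SQ (X ^ (0.1 : ℝ)) x) (by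
    rintro n hn ⟨q, hq, hq1, hq2⟩
    rw [mem_Ioc] at hn
    rw [SQ, mem_filter, mem_Icc]
    refine ⟨⟨by omega, by omega⟩, q, ?_, hq2⟩
    have : L ≤ q := by
      rw [hL]
      exact_mod_cast hq1.le
    linarith)
  have hpi := hBT X (by linarith) 0 (c - d)
  rw [Nat.zero_add, le_div_iff₀ hlogx] at hpi
  have hpi2 : (((Ioc 0 (c - d)).filter Nat.Prime).card : ℝ) * Real.log X ≤ 2 * C * L := by
    refine hpi.trans ?_
    have h1 : X ^ ((1 : ℝ) / 100) ≤ L := by
      have : X ^ ((1 : ℝ) / 100) = X ^ (0.01 : ℝ) := by norm_num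
      rw [this]
      linarith
    have : L + X ^ ((1 : ℝ) / 100) ≤ 2 * L := by linarith
    calc C * (L + X ^ ((1 : ℝ) / 100)) ≤ C * (2 * L) := mul_le_mul_of_nonneg_left this hC.le
      _ = _ := by ring
  have hlogcL : 0.019 * Real.log X ≤ Real.log (c / L) := by
    rw [← Real.log_rpow hx0]
    apply Real.log_le_log (by positivity)
    rw [le_div_iff₀ (by linarith)]
    have h1 : X ^ (0.019 : ℝ) * L ≤ X ^ (0.019 : ℝ) * X ^ (0.97 : ℝ) :=
      mul_le_mul_of_nonneg_left hL2 (by positivity)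
    have h2 : X ^ (0.019 : ℝ) * X ^ (0.97 : ℝ) * 2 ≤ X ^ (0.99 : ℝ) := by
      calc X ^ (0.019 : ℝ) * X ^ (0.97 : ℝ) * 2 = (2 * X ^ (0.019 : ℝ)) * X ^ (0.97 : ℝ) := by ring
        _ ≤ X ^ (0.02 : ℝ) * X ^ (0.97 : ℝ) := mul_le_mul_of_nonneg_right hx2 (by positivity)
        _ = X ^ (0.99 : ℝ) := by rw [← Real.rpow_add hx0]; norm_num
    linarith
  have hKr : ((m - b : ℕ) : ℝ) ≤ 0.001 * L := by
    have : ((m - b : ℕ) : ℝ) ≤ A := by exact_mod_cast hK.le
    linarith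
  have hmain : L * (0.019 * Real.log X) ≤ 2 * C * L + (0.001 * L + 0.001 * L) * Real.log X +
      Chebyshev.theta e := by
    have h1 : L * (0.019 * Real.log X) ≤ L * Real.log (c / L) :=
      mul_le_mul_of_nonneg_left hlogcL (by linarith)
    have h2 : (((Ioc d c).filter (fun n => n ∈ SQ (X ^ (0.1 : ℝ)) x)).card : ℝ) * Real.log X ≤
        (0.001 * L) * Real.log X := by
      apply mul_le_mul_of_nonneg_right _ hlogx.le
      linarith
    have h3 : ((m - b : ℕ) : ℝ) * Real.log X ≤ (0.001 * L) * Real.log X :=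
      mul_le_mul_of_nonneg_right hKr hlogx.le
    have h4 : ((((Ioc 0 (c - d)).filter Nat.Prime).card : ℝ) +
        (((Ioc d c).filter (fun n => n ∈ SQ (X ^ (0.1 : ℝ)) x)).card : ℝ) +
        ((m - b : ℕ) : ℝ)) * Real.log X =
        (((Ioc 0 (c - d)).filter Nat.Prime).card : ℝ) * Real.log X +
        (((Ioc d c).filter (fun n => n ∈ SQ (X ^ (0.1 : ℝ)) x)).card : ℝ) * Real.log X +
        ((m - b : ℕ) : ℝ) * Real.log X := by ring
    rw [h4] at haux
    linarith
  have hCL : 2 * C * L ≤ 0.0005 * L * Real.log X := by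
    have h1 : 2 * C ≤ 0.0005 * Real.log X := by linarith
    calc 2 * C * L ≤ (0.0005 * Real.log X) * L := mul_le_mul_of_nonneg_right h1 (by linarith)
      _ = _ := by ring
  have hth : 0.016 * L * Real.log X ≤ Chebyshev.theta e := by
    have : 0 < L * Real.log X := by positivity
    nlinarith
  have hth2 : Chebyshev.theta e ≤ Real.log 4 * e := Chebyshev.theta_le_log4_mul_x (by positivity)
  have hlog4 : Real.log 4 < 1.39 := by
    have h1 : (4 : ℝ) = 2 ^ 2 := by norm_num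
    rw [h1, Real.log_pow]
    have := Real.log_two_lt_d9
    push_cast
    linarith
  have he0 : (0 : ℝ) ≤ e := by positivity
  have h5 : Real.log 4 * e ≤ 1.39 * e := mul_le_mul_of_nonneg_right hlog4.le he0
  have h6 : 0 < L * Real.log X := by positivity
  nlinarith

end D6
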