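import Mathlib
import Pool.Agent.H90.D6.PropC2

open Finset Filter

namespace D6

open Classical in
/-- the first exceptional set at scale `Λ` -/
noncomputable def Z1 (x Λ : ℕ) : Finset ℕ :=
  (Icc 1 x).filter (fun n => (Λ : ℝ) / 2000 ≤
    (((SQ ((x : ℝ) ^ (0.1 : ℝ)) x).filter (fun n' => n ≤ n' + Λ ∧ n' ≤ n + Λ)).card : ℝ))

theorem Z1_card {x Λ : ℕ} (hx : 1 ≤ x) (hΛ : 1 ≤ Λ) :
    ((Z1 x Λ).card : ℝ) ≤ 18000 * (x : ℝ) ^ (0.9 : ℝ) := by
  have hx0 : (0 : ℝ) < x := by exact_mod_cast hx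
  have hx1 : (1 : ℝ) ≤ x := by exact_mod_cast hx
  have hΛ1 : (1 : ℝ) ≤ Λ := by exact_mod_cast hΛ
  have h1 := near_count (SQ ((x : ℝ) ^ (0.1 : ℝ)) x) x Λ ((Λ : ℝ) / 2000)
  have h2 := card_SQ ((x : ℝ) ^ (0.1 : ℝ)) (Real.one_le_rpow hx1 (by norm_num)) x
  have h3 : ((Z1 x Λ).card : ℝ) * ((Λ : ℝ) / 2000) ≤
      (2 * Λ + 1) * ((SQ ((x : ℝ) ^ (0.1 : ℝ)) x).card : ℝ) := h1
  have e1 : 3 * (x : ℝ) / (x : ℝ) ^ (0.1 : ℝ) = 3 * (x : ℝ) ^ (0.9 : ℝ) := by
    rw [div_eq_iff (by positivity), mul_assoc, ← Real.rpow_add hx0]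
    norm_num
  rw [e1] at h2
  have h4 : ((Z1 x Λ).card : ℝ) * ((Λ : ℝ) / 2000) ≤ (3 * Λ) * (3 * (x : ℝ) ^ (0.9 : ℝ)) := by
    refine h3.trans ?_
    apply mul_le_mul _ h2 (by positivity) (by positivity)
    linarith
  have h5 : ((Z1 x Λ).card : ℝ) * ((Λ : ℝ) / 2000) ≤
      (18000 * (x : ℝ) ^ (0.9 : ℝ)) * ((Λ : ℝ) / 2000) := by
    refine h4.trans (le_of_eq ?_)
    ring
  exact le_of_mul_le_mul_right h5 (by positivity)

open Classical in
/-- the second exceptional set -/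
noncomputable def Z2 (x I : ℕ) : Finset ℕ :=
  ((range (I + 1)) ×ˢ ((range (I + 1)) ×ˢ (range 32))).biUnion (fun t =>
    if (x : ℝ) ^ (0.1 : ℝ) ≤ ((t.2.2 * 2 ^ t.2.1 : ℕ) : ℝ) ∧
      ((t.2.2 * 2 ^ t.2.1 : ℕ) : ℝ) ≤ (x : ℝ) ^ (0.975 : ℝ) ∧
      1000 * 2 ^ t.1 ≤ t.2.2 * 2 ^ t.2.1 then ZE x (t.2.2 * 2 ^ t.2.1) (2 ^ t.1) else ∅)

theorem Z2_card : ∀ᶠ x : ℕ in atTop, ∀ I : ℕ,
    ((Z2 x I).card : ℝ) ≤ ((I : ℝ) + 1) ^ 2 * 32 * (x : ℝ) ^ (0.98 : ℝ) := by
  filter_upwards [ZE_card] with x hZ I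
  have h1 : (Z2 x I).card ≤ ∑ t ∈ ((range (I + 1)) ×ˢ ((range (I + 1)) ×ˢ (range 32))),
      (if (x : ℝ) ^ (0.1 : ℝ) ≤ ((t.2.2 * 2 ^ t.2.1 : ℕ) : ℝ) ∧
      ((t.2.2 * 2 ^ t.2.1 : ℕ) : ℝ) ≤ (x : ℝ) ^ (0.975 : ℝ) ∧
      1000 * 2 ^ t.1 ≤ t.2.2 * 2 ^ t.2.1 then ZE x (t.2.2 * 2 ^ t.2.1) (2 ^ t.1) else ∅).card :=
    card_biUnion_le
  have h2 : ∀ t ∈ ((range (I + 1)) ×ˢ ((range (I + 1)) ×ˢ (range 32))),
      (((if (x : ℝ) ^ (0.1 : ℝ) ≤ ((t.2.2 * 2 ^ t.2.1 : ℕ) : ℝ) ∧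
      ((t.2.2 * 2 ^ t.2.1 : ℕ) : ℝ) ≤ (x : ℝ) ^ (0.975 : ℝ) ∧
      1000 * 2 ^ t.1 ≤ t.2.2 * 2 ^ t.2.1 then ZE x (t.2.2 * 2 ^ t.2.1) (2 ^ t.1) else ∅).card : ℕ) : ℝ)
      ≤ (x : ℝ) ^ (0.98 : ℝ) := by
    intro t _
    split_ifs with h
    · exact hZ _ _ h.1 h.2.1 h.2.2
    · simp only [card_empty, Nat.cast_zero]
      positivity
  have h3 : ((Z2 x I).card : ℝ) ≤ ∑ t ∈ ((range (I + 1)) ×ˢ ((range (I + 1)) ×ˢ (range 32))),
      (((if (x : ℝ) ^ (0.1 : ℝ) ≤ ((t.2.2 * 2 ^ t.2.1 : ℕ) : ℝ) ∧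
      ((t.2.2 * 2 ^ t.2.1 : ℕ) : ℝ) ≤ (x : ℝ) ^ (0.975 : ℝ) ∧
      1000 * 2 ^ t.1 ≤ t.2.2 * 2 ^ t.2.1 then ZE x (t.2.2 * 2 ^ t.2.1) (2 ^ t.1) else ∅).card : ℕ) : ℝ)
      := by exact_mod_cast h1
  refine h3.trans ((Finset.sum_le_sum h2).trans ?_)
  rw [Finset.sum_const, nsmul_eq_mul, card_product, card_product, card_range, card_range]
  push_cast
  apply le_of_eq
  ring

set_option maxHeartbeats 2000000 in
theorem propC (A : ℕ) : ∀ᶠ x : ℕ in atTop, ∀ B : Finset ℕ,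
    (∀ m ∈ B, InM A x m ∧ ∃ b c d e, Rep m b c d e ∧ m - b < A ∧
      (x : ℝ) ^ (0.1 : ℝ) ≤ ((c - d : ℕ) : ℝ)) → (B.card : ℝ) ≤ (x : ℝ) ^ (0.995 : ℝ) := by
  classical
  obtain ⟨C₁, hC₁, hE⟩ := ebound
  obtain ⟨c₂, hc₂, Y, hY⟩ := PE_card
  filter_upwards [matched, hE, propA, e_lower (A := A), Z2_card, eventually_ge_atTop 3,
    ev_le0 8 1 1.98 (by norm_num), ev_le (C₁ * (A + 1)) 0.97 0.975 1 (by norm_num),
    ev_const_le 2 0.1 (by norm_num), ev_le_log 300000, ev_const_le Y 0.1 (by norm_num),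
    ev_le (24 * A / c₂) 0 0.1 1 (by norm_num), ev_le0 2 0.09 0.1 (by norm_num),
    ev_le 54000 0.9 0.98 1 (by norm_num), ev_le 2000 0.98 0.985 2 (by norm_num),
    ev_const_le 100 0.1 (by norm_num)]
    with x hmat hE hA hlow hZ2 hx3 hr2 hr3 hr4 hlogbig hYx hPEbig hr5 hr6 hr7 hr8 B hB
  have hx3' : (3 : ℝ) ≤ x := by exact_mod_cast hx3
  have hx0 : (0 : ℝ) < x := by linarith
  set X : ℝ := (x : ℝ) with hX
  have hX1 : 1 ≤ X := by linarith
  have hlogx : 0 < Real.log X := Real.log_pos (by linarith)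
  rw [Real.rpow_one] at hr2
  set I := Nat.clog 2 x with hI
  have hIr : (I : ℝ) + 1 ≤ 3 * Real.log X := by
    have h1 : (I : ℝ) ≤ Real.log X / Real.log 2 + 1 := by
      have h2 := Real.natCeil_logb_natCast 2 x
      have h3 : (I : ℝ) = (⌈Real.logb (2 : ℕ) (x : ℕ)⌉₊ : ℝ) := by rw [h2]
      have h4 : (0 : ℝ) ≤ Real.logb (2 : ℕ) (x : ℕ) :=
        Real.logb_nonneg (by norm_num) (by exact_mod_cast (by omega : 1 ≤ x))
      rw [h3]
      have h5 := (Nat.ceil_lt_add_one h4).le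
      refine h5.trans ?_
      rw [Real.logb]
      push_cast
      linarith
    have h2 : (0.69 : ℝ) < Real.log 2 := by
      have := Real.log_two_gt_d9
      linarith
    have h3 : Real.log X / Real.log 2 ≤ Real.log X / 0.69 :=
      div_le_div_of_nonneg_left hlogx.le (by norm_num) h2.le
    have h4 : Real.log X / 0.69 ≤ 1.45 * Real.log X := by
      rw [div_le_iff₀ (by norm_num)]
      nlinarith
    linarith
  set Z : Finset ℕ := ((range (I + 1)).biUnion (fun i => Z1 x (2 ^ i))) ∪ Z2 x I with hZ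
  have hZc : ((Z.filter (fun n => n ≤ x ∧ n ≠ 0)).card : ℝ) ≤ X ^ (0.985 : ℝ) := by
    have g1 : (Z.filter (fun n => n ≤ x ∧ n ≠ 0)).card ≤
        ((range (I + 1)).biUnion (fun i => Z1 x (2 ^ i))).card + (Z2 x I).card :=
      (card_filter_le _ _).trans (card_union_le _ _)
    have g2 : (((range (I + 1)).biUnion (fun i => Z1 x (2 ^ i))).card : ℝ) ≤
        (I + 1) * (18000 * X ^ (0.9 : ℝ)) := by
      have k1 : ((range (I + 1)).biUnion (fun i => Z1 x (2 ^ i))).card ≤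
        ∑ i ∈ range (I + 1), (Z1 x (2 ^ i)).card := card_biUnion_le
      have k2 : (((range (I + 1)).biUnion (fun i => Z1 x (2 ^ i))).card : ℝ) ≤
        ∑ i ∈ range (I + 1), ((Z1 x (2 ^ i)).card : ℝ) := by exact_mod_cast k1
      refine k2.trans ?_
      have k3 : ∑ i ∈ range (I + 1), ((Z1 x (2 ^ i)).card : ℝ) ≤
          ∑ i ∈ range (I + 1), 18000 * X ^ (0.9 : ℝ) := by
        apply Finset.sum_le_sum
        intro i _
        exact Z1_card (by omega) Nat.one_le_two_pow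
      refine k3.trans ?_
      rw [Finset.sum_const, card_range, nsmul_eq_mul]
      push_cast
      exact le_rfl
    have g3 := hZ2 I
    have g4 : ((Z.filter (fun n => n ≤ x ∧ n ≠ 0)).card : ℝ) ≤
        (I + 1) * (18000 * X ^ (0.9 : ℝ)) + ((I : ℝ) + 1) ^ 2 * 32 * X ^ (0.98 : ℝ) := by
      have : ((Z.filter (fun n => n ≤ x ∧ n ≠ 0)).card : ℝ) ≤
        (((range (I + 1)).biUnion (fun i => Z1 x (2 ^ i))).card : ℝ) + ((Z2 x I).card : ℝ) := by
        exact_mod_cast g1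
      linarith
    refine g4.trans ?_
    have g5 : ((I : ℝ) + 1) * (18000 * X ^ (0.9 : ℝ)) ≤ X ^ (0.98 : ℝ) := by
      calc ((I : ℝ) + 1) * (18000 * X ^ (0.9 : ℝ)) ≤ (3 * Real.log X) * (18000 * X ^ (0.9 : ℝ)) := by
            gcongr
        _ = 54000 * X ^ (0.9 : ℝ) * Real.log X ^ 1 := by ring
        _ ≤ _ := hr6
    have g6 : ((I : ℝ) + 1) ^ 2 * 32 * X ^ (0.98 : ℝ) ≤ 288 * X ^ (0.98 : ℝ) * Real.log X ^ 2 := by
      calc ((I : ℝ) + 1) ^ 2 * 32 * X ^ (0.98 : ℝ) ≤ (3 * Real.log X) ^ 2 * 32 * X ^ (0.98 : ℝ) := by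
            gcongr
        _ = _ := by ring
    have g7 : X ^ (0.98 : ℝ) ≤ X ^ (0.98 : ℝ) * Real.log X ^ 2 := by
      apply le_mul_of_one_le_right (by positivity)
      apply one_le_pow₀
      linarith
    have g8 : 0 ≤ X ^ (0.98 : ℝ) * Real.log X ^ 2 := by positivity
    linarith
  have hcount := count_le (x := x) B (Z.filter (fun n => n ≤ x ∧ n ≠ 0))
    (fun n hn => (mem_filter.1 hn).2) (by
    intro m hm
    obtain ⟨hInM, b, c, d, e, hrep, hK, hLx⟩ := hB m hm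
    obtain ⟨h1, h2, k, p, rfl, hp, hg, hk2, hk100⟩ := hInM
    obtain ⟨r1, r2, r3, r4, -⟩ := id hrep
    obtain ⟨j, hj1, hj2, hj3, hpK, hpL, hpe⟩ :=
      hmat _ b c d e k p h1 h2 hrep hp hk100 (by simp only [mem_Ioc]; omega) h1
    have hp99 := p_ge_rpow (by omega) hk100 h1
    refine ⟨k, p, j, rfl, hp, ?_, by omega, hk100, ?_⟩
    · have g1 : (X ^ (0.99 : ℝ)) ^ 2 ≤ (2 * (p : ℝ)) ^ 2 :=
        pow_le_pow_left₀ (by positivity) hp99 2
      have g2 : (X ^ (0.99 : ℝ)) ^ 2 = X ^ (1.98 : ℝ) := by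
        rw [← Real.rpow_natCast, ← Real.rpow_mul hx0.le]; norm_num
      have g3 : (x : ℝ) < (p : ℝ) ^ 2 := by
        rw [g2] at g1
        nlinarith
      exact_mod_cast g3
    have hj2' := hj2
    rw [mem_Ioc] at hj2'
    have hjx : j * p ≤ x := by omega
    have hj0 : j * p ≠ 0 := by omega
    rw [mem_filter]
    refine ⟨?_, hjx, hj0⟩
    rw [hZ, mem_union]
    have hLup : ((c - d : ℕ) : ℝ) ≤ X ^ (0.97 : ℝ) := (hA _ b c d e h1 h2 hrep).2.le
    set L := c - d with hL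
    have hL2 : (2 : ℝ) ≤ L := hr4.trans hLx
    have hL2' : 2 ≤ L := by exact_mod_cast hL2
    set i := Nat.clog 2 L with hi
    have hLi : L ≤ 2 ^ i := Nat.le_pow_clog (by norm_num) L
    have hLi2 : 2 ^ i < 2 * L := by
      have h3 : 2 ^ (i - 1) < L := Nat.pow_pred_clog_lt_self (by norm_num) (by omega)
      have h4 : 0 < i := Nat.clog_pos (by norm_num) (by omega)
      have h5 : 2 ^ i = 2 * 2 ^ (i - 1) := by
        obtain ⟨i', hi'⟩ : ∃ i', i = i' + 1 := ⟨i - 1, by omega⟩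
        rw [hi', Nat.add_sub_cancel, pow_succ]; ring
      omega
    have hLxx : L ≤ x := by omega
    have hiI : i ≤ I := Nat.clog_mono_right 2 hLxx
    have hcp : (p : ℝ) ≤ c := by
      have : p ≤ j * p := Nat.le_mul_of_pos_left _ hj1
      exact_mod_cast (by omega : p ≤ c)
    by_cases hcase : (((Ioc d c).filter (fun n => n ∈ SQ (X ^ (0.1 : ℝ)) x)).card : ℝ) ≤
      ((L : ℕ) : ℝ) / 1000
    · right
      have he1 := hlow _ b c d e h2 hrep hK hLx hLup (by linarith) hcase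
      have he2 := hE _ b c d e h2 hrep
      have hlog1 : (1 : ℝ) ≤ Real.log X := by linarith
      have heL : 3000 * (L : ℝ) ≤ e := by
        have : 0.01 * (L : ℝ) * 300000 ≤ 0.01 * (L : ℝ) * Real.log X :=
          mul_le_mul_of_nonneg_left hlogbig (by positivity)
        linarith
      have heL' : 3000 * L ≤ e := by exact_mod_cast heL
      have he975 : (e : ℝ) ≤ X ^ (0.975 : ℝ) := by
        refine he2.trans ?_
        have g1 : 1 ≤ X ^ (0.97 : ℝ) := Real.one_le_rpow hX1 (by norm_num)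
        have g2 : ((k * p - b : ℕ) : ℝ) + ((c - d : ℕ) : ℝ) ≤ (A + 1) * X ^ (0.97 : ℝ) := by
          have g4 : ((k * p - b : ℕ) : ℝ) ≤ A := by exact_mod_cast hK.le
          have g5 : (A : ℝ) ≤ A * X ^ (0.97 : ℝ) := le_mul_of_one_le_right (by positivity) g1
          have g6 : ((c - d : ℕ) : ℝ) ≤ X ^ (0.97 : ℝ) := hLup
          linarith
        calc C₁ * (((k * p - b : ℕ) : ℝ) + ((c - d : ℕ) : ℝ)) * Real.log X
            ≤ C₁ * ((A + 1) * X ^ (0.97 : ℝ)) * Real.log X := by gcongr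
          _ = C₁ * (A + 1) * X ^ (0.97 : ℝ) * Real.log X ^ 1 := by ring
          _ ≤ _ := hr3
      -- choice of `E`
      have he32 : 32 ≤ e := by omega
      set l := Nat.log 2 e - 4 with hl
      have hlog4 : 5 ≤ Nat.log 2 e := by
        have : Nat.log 2 32 ≤ Nat.log 2 e := Nat.log_mono_right he32
        have h32 : Nat.log 2 32 = 5 := by
          rw [show 32 = 2 ^ 5 by norm_num, Nat.log_pow (by norm_num)]
        omega
      have hpow1 : 2 ^ Nat.log 2 e ≤ e := Nat.pow_log_le_self 2 (by omega)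
      have hpow2 : e < 2 ^ (Nat.log 2 e + 1) := Nat.lt_pow_succ_log_self (by norm_num) e
      have hpe1 : 2 ^ Nat.log 2 e = 16 * 2 ^ l := by
        have : Nat.log 2 e = l + 4 := by omega
        rw [this, pow_add]; ring
      set s := e / 2 ^ l with hs
      have hlpos : 0 < 2 ^ l := by positivity
      have hs32 : s < 32 := by
        rw [hs, Nat.div_lt_iff_lt_mul hlpos]
        rw [pow_succ, hpe1] at hpow2
        omega
      have hs16 : 16 ≤ s := by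
        rw [hs, Nat.le_div_iff_mul_le hlpos]
        omega
      have hEe : s * 2 ^ l ≤ e := Nat.div_mul_le_self e (2 ^ l)
      have hEe2 : e < (s + 1) * 2 ^ l := by
        have := Nat.lt_div_mul_add (a := e) hlpos
        rw [← hs] at this
        rw [add_mul, one_mul]
        exact this
      have h16 : 16 * 2 ^ l ≤ s * 2 ^ l := Nat.mul_le_mul_right _ hs16
      have hE17 : 16 * e < 17 * (s * 2 ^ l) := by
        rw [add_mul, one_mul] at hEe2
        omega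
      have hElow : 2000 * L ≤ s * 2 ^ l := by omega
      have hEcast : X ^ (0.1 : ℝ) ≤ ((s * 2 ^ l : ℕ) : ℝ) := by
        have : ((2000 * L : ℕ) : ℝ) ≤ ((s * 2 ^ l : ℕ) : ℝ) := by exact_mod_cast hElow
        push_cast at this ⊢
        linarith
      have hEup : ((s * 2 ^ l : ℕ) : ℝ) ≤ X ^ (0.975 : ℝ) := by
        have : ((s * 2 ^ l : ℕ) : ℝ) ≤ e := by exact_mod_cast hEe
        linarith
      have hlI : l ≤ I := by
        have h3 : Nat.log 2 e ≤ Nat.log 2 x := Nat.log_mono_right (by omega)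
        have h4 : Nat.log 2 x ≤ Nat.clog 2 x := Nat.log_le_clog 2 x
        omega
      have hZE : j * p ∈ ZE x (s * 2 ^ l) (2 ^ i) := by
        apply mem_ZE hrep h2 hK hj2 hjx hLi hEe hE17 (by omega)
        · rw [← Real.log_rpow hx0]
          apply Real.log_le_log (by positivity)
          rw [le_div_iff₀ (by norm_num)]
          have : X ^ (0.09 : ℝ) * 32 ≤ 17 * X ^ (0.1 : ℝ) := by linarith
          linarith
        · -- many primes
          have g1 := hY (s * 2 ^ l) (hYx.trans hEcast) (by omega)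
          have hE0 : (0 : ℝ) < ((s * 2 ^ l : ℕ) : ℝ) := by
            have : 0 < s * 2 ^ l := by omega
            exact_mod_cast this
          have g2 : Real.log ((s * 2 ^ l : ℕ) : ℝ) ≤ Real.log X := by
            apply Real.log_le_log hE0
            have : s * 2 ^ l ≤ x := by omega
            exact Nat.cast_le.mpr this
          have g3 : c₂ * X ^ (0.1 : ℝ) ≤ ((PE (s * 2 ^ l)).card : ℝ) * Real.log X := by
            calc c₂ * X ^ (0.1 : ℝ) ≤ c₂ * ((s * 2 ^ l : ℕ) : ℝ) :=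
                  mul_le_mul_of_nonneg_left hEcast hc₂.le
              _ ≤ _ := g1
              _ ≤ _ := mul_le_mul_of_nonneg_left g2 (by positivity)
          rw [Real.rpow_zero, mul_one, pow_one] at hPEbig
          have g4 : 24 * (A : ℝ) * Real.log X ≤ c₂ * X ^ (0.1 : ℝ) := by
            have g5 : 24 * (A : ℝ) * Real.log X = c₂ * (24 * A / c₂ * Real.log X) := by
              field_simp
            rw [g5]
            exact mul_le_mul_of_nonneg_left hPEbig hc₂.le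
          have g6 : 24 * (A : ℝ) * Real.log X ≤ ((PE (s * 2 ^ l)).card : ℝ) * Real.log X :=
            g4.trans g3
          exact le_of_mul_le_mul_right g6 hlogx
      rw [Z2, mem_biUnion]
      refine ⟨(i, l, s), ?_, ?_⟩
      · simp only [mem_product, mem_range]
        omega
      · simp only
        rw [if_pos]
        · exact hZE
        · refine ⟨hEcast, hEup, ?_⟩
          omega
    · left
      push Not at hcase
      rw [mem_biUnion]
      refine ⟨i, ?_, ?_⟩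
      · rw [mem_range]; omega
      rw [Z1, mem_filter, mem_Icc]
      refine ⟨⟨by omega, hjx⟩, ?_⟩
      have g1 : ((Ioc d c).filter (fun n => n ∈ SQ (X ^ (0.1 : ℝ)) x)) ⊆
          (SQ (X ^ (0.1 : ℝ)) x).filter (fun n' => j * p ≤ n' + 2 ^ i ∧ n' ≤ j * p + 2 ^ i) := by
        intro n hn
        rw [mem_filter, mem_Ioc] at hn
        rw [mem_filter]
        exact ⟨hn.2, by omega, by omega⟩
      have g2 : (((Ioc d c).filter (fun n => n ∈ SQ (X ^ (0.1 : ℝ)) x)).card : ℝ) ≤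
          (((SQ (X ^ (0.1 : ℝ)) x).filter
            (fun n' => j * p ≤ n' + 2 ^ i ∧ n' ≤ j * p + 2 ^ i)).card : ℝ) := by
        exact_mod_cast Finset.card_le_card g1
      refine le_trans ?_ g2
      have g3 : ((2 ^ i : ℕ) : ℝ) ≤ 2 * L := by exact_mod_cast hLi2.le
      linarith)
  calc (B.card : ℝ) ≤ X ^ (0.01 : ℝ) * ((Z.filter (fun n => n ≤ x ∧ n ≠ 0)).card : ℝ) := hcount
    _ ≤ X ^ (0.01 : ℝ) * X ^ (0.985 : ℝ) := by gcongr
    _ = X ^ (0.995 : ℝ) := by rw [← Real.rpow_add hx0]; norm_num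

end D6
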